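import Pool.Agent.Y790.TR.Def3

/-!
# Consequences of `α`-labellings: statements
-/

set_option autoImplicit false

namespace Pool.Agent.Y790.TR

/-- trees with an `α`-labelling are harmonious -/
def HarmStm : Prop := ∀ (V : Type) [Fintype V] (G : SimpleGraph V), G.IsTree → 2 ≤ Fintype.card V →
  Alph G → ∃ l : V → ZMod (Fintype.card V - 1),
    (∃ r : ZMod (Fintype.card V - 1), {v | l v = r}.ncard = 2 ∧
      ∀ s : ZMod (Fintype.card V - 1), s ≠ r → {v | l v = s}.ncard = 1) ∧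
    ∀ a b c d : V, G.Adj a b → G.Adj c d → l a + l b = l c + l d →
      Sym2.mk (a, b) = Sym2.mk (c, d)

/-- trees with an `α`-labelling are bigraceful (for both orders of the two sides) -/
def BigrStm : Prop := ∀ (V : Type) [Fintype V] (G : SimpleGraph V), G.IsTree → 2 ≤ Fintype.card V →
  Alph G → ∀ c : G.Coloring Bool, ∃ f : V → ℕ,
    (∀ v, f v < Nat.card G.edgeSet) ∧
    (∀ u v, c u = c v → f u = f v → u = v) ∧
    (∀ u v, G.Adj u v → c u = false → f u ≤ f v) ∧
    (∀ u v u' v', G.Adj u v → G.Adj u' v' → c u = false → c u' = false →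
      ((f v : ℤ) - (f u : ℤ) = (f v' : ℤ) - (f u' : ℤ)) → u = u' ∧ v = v')

/-- the definition of the problem on `α`-labellings -/
def AlphZStm : Prop := ∀ (V : Type) [Fintype V] (G : SimpleGraph V), G.IsTree → 2 ≤ Fintype.card V →
  Alph G → ∃ f : V → ℤ, Function.Injective f ∧
    (∀ v : V, 0 ≤ f v ∧ f v ≤ (Fintype.card V : ℤ) - 1) ∧
    (∀ u v w x : V, G.Adj u v → G.Adj w x → |f u - f v| = |f w - f x| →
      (u = w ∧ v = x) ∨ (u = x ∧ v = w)) ∧
    ∃ k : ℤ, 0 ≤ k ∧ k < (Fintype.card V : ℤ) - 1 ∧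
      ∀ u v : V, G.Adj u v → min (f u) (f v) ≤ k ∧ k < max (f u) (f v)

/-- graceful trees are simply sequential -/
def SeqStm : Prop := ∀ (V : Type) [Fintype V] (G : SimpleGraph V), G.IsTree → 2 ≤ Fintype.card V →
  Alph G → ∃ F : V ⊕ G.edgeSet → ℕ, Function.Injective F ∧
    (∀ (e : G.edgeSet) (u v : V), e.val = s(u, v) →
      F (Sum.inr e) = ((F (Sum.inl u) : ℤ) - (F (Sum.inl v) : ℤ)).natAbs) ∧
    Set.range F = Set.Icc 1 (Fintype.card V + Nat.card G.edgeSet)

/-- `G` decomposes `H`: the edges of `H` are divided into copies of `G` -/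
def Decomposes {V W : Type} (G : SimpleGraph V) (H : SimpleGraph W) : Prop :=
  ∃ (ι : Type) (φ : ι → V → W), (∀ i, Function.Injective (φ i)) ∧
    (∀ i u v, G.Adj u v → H.Adj (φ i u) (φ i v)) ∧
    ∀ e ∈ H.edgeSet, ∃! p : ι × G.edgeSet, Sym2.map (φ p.1) p.2.val = e

/-- a tree with `m` edges and an `α`-labelling decomposes `K_{m a, m b}` and `K_{2 m a + 1}` for all
`a, b ≥ 1` -/
def DecompStm : Prop := ∀ (V : Type) [Fintype V] (G : SimpleGraph V), G.IsTree → 2 ≤ Fintype.card V →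
  Alph G → ∀ a b : ℕ, 1 ≤ a → 1 ≤ b →
    Decomposes G (completeBipartiteGraph (Fin (G.edgeSet.ncard * a)) (Fin (G.edgeSet.ncard * b))) ∧
    Decomposes G (⊤ : SimpleGraph (Fin (2 * G.edgeSet.ncard * a + 1)))

end Pool.Agent.Y790.TR
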