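import Pool.Agent.Y790.TR.Def2
import Pool.Agent.H115R2.Base

/-!
# Rooted trees: parents and geodesics towards the root
-/

set_option autoImplicit false

namespace Pool.Agent.Y790.TR

theorem root : RootStm := by
  classical
  intro V _ T hT r
  obtain ⟨par, h1, h2⟩ := Pool.Agent.H115R2.exists_parent T hT r
  refine ⟨fun x => if x = r then r else par x, by simp, ?_, ?_⟩
  · intro x hx
    simpa [hx] using h1 x hx
  · intro a b hab
    rcases hT.dist_eq_dist_add_one_of_adj r hab with h | h
    · left
      have ha : a ≠ r := by
        rintro rfl
        simp at h
      refine ⟨ha, ?_⟩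
      simp only [ha, if_false]
      exact h2 a b hab h
    · right
      have hb : b ≠ r := by
        rintro rfl
        simp at h
      refine ⟨hb, ?_⟩
      simp only [hb, if_false]
      exact h2 b a hab.symm h

theorem geo : GeoStm := by
  classical
  intro V _ T r par hT hR
  obtain ⟨hr, hp, ha⟩ := hR
  have hc : T.Connected := hT.connected
  constructor
  · intro x k
    induction k with
    | zero => intro _; simp
    | succ k ih =>
      intro hk
      obtain ⟨i1, i2⟩ := ih (by omega)
      have hne : par^[k] x ≠ r := by
        intro h
        rw [h] at i1
        simp at i1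
        omega
      obtain ⟨h1, h2⟩ := hp _ hne
      rw [Function.iterate_succ_apply']
      have h3 : T.dist r (par (par^[k] x)) + (k + 1) = T.dist r x := by omega
      refine ⟨h3, ?_⟩
      apply le_antisymm
      · have h4 : T.dist x (par (par^[k] x)) ≤ T.dist x (par^[k] x) + T.dist (par^[k] x) (par (par^[k] x)) :=
          hc.dist_triangle
        have h5 : T.dist (par^[k] x) (par (par^[k] x)) = 1 := SimpleGraph.dist_eq_one_iff_adj.2 h1.symm
        omega
      · have h4 : T.dist r x ≤ T.dist r (par (par^[k] x)) + T.dist (par (par^[k] x)) x :=
          hc.dist_triangle
        rw [SimpleGraph.dist_comm (u := par (par^[k] x)) (v := x)] at h4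
        omega
  · intro x y k
    induction k generalizing x with
    | zero =>
      intro h0 _
      have := (hc.dist_eq_zero_iff).1 h0
      simpa using this.symm
    | succ k ih =>
      intro h0 h1
      obtain ⟨p, hpl⟩ := hc.exists_walk_length_eq_dist x y
      cases p with
      | nil => simp at hpl; omega
      | @cons _ x' _ hadj q =>
        rw [SimpleGraph.Walk.length_cons] at hpl
        have h2 : T.dist x' y ≤ q.length := SimpleGraph.dist_le q
        have h3 : T.dist x y ≤ T.dist x x' + T.dist x' y := hc.dist_triangle
        have h4 : T.dist x x' = 1 := SimpleGraph.dist_eq_one_iff_adj.2 hadj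
        have h5 : T.dist x' y = k := by omega
        have h6 : T.dist r x' ≤ T.dist r y + T.dist y x' := hc.dist_triangle
        rw [SimpleGraph.dist_comm (u := y) (v := x')] at h6
        have hx' : par x = x' := by
          rcases ha x x' hadj with ⟨_, h⟩ | ⟨h7, h⟩
          · exact h
          · exfalso
            have := (hp x' h7).2
            rw [h] at this
            omega
        have hxr : x ≠ r := by
          rintro rfl
          simp at h1
        have h8 := (hp x hxr).2
        rw [hx'] at h8
        have := ih x' h5 (by omega)
        rw [Function.iterate_succ_apply, hx']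
        exact this

end Pool.Agent.Y790.TR

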