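import Pool.Agent.Y790.TR.Def

/-!
# Trees with long threads: the first thread
-/

set_option autoImplicit false

namespace Pool.Agent.Y790.TR

open Pool.Agent.Y790.LG (Od Sm rt cst hd Lg Kst prd Cls ClsStm Lags)

/-- the root alone, the root on the odd side -/
lemma out0 : Out 0 0 2 (fun _ => -1) (fun _ => 0) (fun _ => 1) := by
  refine ⟨by norm_num, le_rfl, by norm_num, fun _ => [], by simp, ?_, ?_, ?_, ?_, ?_, ?_, ?_⟩
  · rintro z ⟨h1, h2, h3⟩
    left
    exact ⟨0, le_rfl, by change (1:ℤ) = z; omega⟩
  · intro i _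
    exact ⟨by norm_num, by norm_num, by norm_num⟩
  · intro j _ z hz
    simp at hz
  · intro j _
    exact Nat.zero_le _
  · intro j _
    simp
  · intro j _
    simp [em]
  · intro v _ h1 h2
    norm_num at h2
    omega

/-- the root and one vertex of the free thread -/
lemma out1 : Out 0 2 2 (fun _ => -2) (fun _ => 0) (fun _ => 1) := by
  refine ⟨by norm_num, by norm_num, by norm_num, fun _ => [0], by simp, ?_, ?_, ?_, ?_, ?_, ?_, ?_⟩
  · rintro z ⟨h1, h2, h3⟩
    by_cases hz : z = 0
    · right
      exact ⟨0, le_rfl, by simp [hz]⟩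
    · left
      exact ⟨0, le_rfl, by change (1:ℤ) = z; omega⟩
  · intro i _
    exact ⟨by norm_num, by norm_num, by norm_num⟩
  · intro j _ z hz
    have h : z = 0 := by simpa using hz
    subst h
    exact ⟨by norm_num, by norm_num, by norm_num⟩
  · intro j _
    exact Nat.zero_le _
  · intro j _
    simp [Od]
  · intro j _
    simp [em]
  · intro v h0 h1 h2
    have h3 : v = 1 := by norm_num at h2; omega
    subst h3
    refine ⟨0, le_rfl, 1, 0, ?_, by norm_num⟩
    exact List.infix_rfl

/-- lag of the new strand -/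
def pB (P : ℕ) : ℕ → ℕ := fun j => if j = 2 then P else 0

lemma pB_even {P : ℕ} (hP : P % 2 = 0) (j : ℕ) : pB P j % 2 = 0 := by
  unfold pB
  split_ifs
  · exact hP
  · rfl

lemma pB_le (P j : ℕ) : pB P j ≤ P := by
  unfold pB
  split_ifs
  · exact le_rfl
  · exact Nat.zero_le _

/-- classes, the same side -/
def aS : ℕ → ℕ := fun j => if j = 0 then 2 else if j = 1 then 0 else 1

/-- classes, the other side -/
def aD : ℕ → ℕ := fun j => if j = 0 then 1 else if j = 1 then 2 else 0

/-- the conclusion from the state after the event -/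
lemma fin_base (hg : GatherStm) {P : ℕ} {A B z s : ℤ} (hP : P % 2 = 0) (sl : ℕ → ℕ)
    (h0 : sl 0 = 2) (h1 : sl 1 = 0) (h2 : sl 2 = 1)
    (ho : Out 1 A B (fun j => hd 3 (sl j) (pB P j)) (cN 0 0 (fun _ => 0)) (bN 0 z (fun _ => 1)))
    (hz : (z + 1) % 2 = s) :
    ∃ (A B : ℤ) (c : ℕ → ℕ) (b : ℕ → ℤ),
      Out 1 A B (Kst 1 P 0) c b ∧ b 0 % 2 = 1 ∧ (b 1 + b 0) % 2 = s ∧ c 2 = 0 ∧
      ((c 0 = 0 ∧ c 1 = 1) ∨ (c 0 = 1 ∧ c 1 = 0)) := by
  obtain ⟨A', B', c', h3, h4, _, m', hm', h5⟩ := hg 0 0 P A B (fun _ => 0)
    (bN 0 z (fun _ => 1)) sl (pB P)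
    (fun j hj => by
      have : j = 0 ∨ j = 1 ∨ j = 2 := by omega
      rcases this with rfl | rfl | rfl <;> omega)
    (fun i hi => by
      have : i = 0 ∨ i = 1 ∨ i = 2 := by omega
      rcases this with rfl | rfl | rfl
      · exact ⟨1, by omega, h1⟩
      · exact ⟨2, by omega, h2⟩
      · exact ⟨0, by omega, h0⟩)
    h0 (fun m hm => absurd hm (Nat.not_lt_zero m))
    (by
      change sl 1 / 2 = sl 2 / 2
      rw [h1, h2])
    (fun j _ => pB_even hP j)
    (by simp [pB]) ho
  have hm0 : m' = 0 := by omega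
  subst hm0
  exact ⟨A', B', c', _, h3, by simp [bN], by simpa [bN] using hz, h4, h5⟩

theorem base (he : EvRStm) (hg : GatherStm) : BaseStm := by
  intro P hP s hs
  have hw : ∀ j ≤ 2 * 0 + 2, 2 * pB P j + 2 ≤ 2 * P + 2 := fun j _ => by
    have := pB_le P j
    omega
  rcases hs with rfl | rfl
  · obtain ⟨A', B', h⟩ := he 0 0 2 (fun _ => -1) (fun _ => 0) (fun _ => 1) 0 (-1) aS (pB P)
      (2 * P + 2) 0 out0 le_rfl (by norm_num [em]) (by norm_num)
      (fun j _ => by unfold aS; split_ifs <;> omega)
      (fun i hi => by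
        have : i = 0 ∨ i = 1 ∨ i = 2 := by omega
        rcases this with rfl | rfl | rfl
        · exact ⟨1, by omega, rfl⟩
        · exact ⟨2, by omega, rfl⟩
        · exact ⟨0, by omega, rfl⟩)
      (fun j hj => by
        have : j = 0 := by omega
        subst this
        norm_num [Od, aS, pB])
      (by norm_num [Od, aS, pB])
      (fun k hk0 hk1 => by
        have : k = 0 ∨ k = 1 := by norm_num at hk1; omega
        rcases this with rfl | rfl
        · right
          norm_num [aS, pB]
        · left
          refine ⟨0, le_rfl, ?_⟩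
          norm_num [aS, pB])
      (fun j hj => by
        have := hw j hj
        unfold cst
        split_ifs <;> omega)
      (fun j _ _ => pB_even hP j)
    refine fin_base hg hP (fun j => rt 3 0 (aS j)) (by decide) (by decide) (by decide) h ?_
    unfold em aS pB
    push_cast
    split_ifs <;> omega
  · obtain ⟨A', B', h⟩ := he 0 2 2 (fun _ => -2) (fun _ => 0) (fun _ => 1) 0 (-1) aD (pB P)
      (2 * P + 2) 2 out1 le_rfl (by norm_num [em]) (by norm_num)
      (fun j _ => by unfold aD; split_ifs <;> omega)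
      (fun i hi => by
        have : i = 0 ∨ i = 1 ∨ i = 2 := by omega
        rcases this with rfl | rfl | rfl
        · exact ⟨2, by omega, rfl⟩
        · exact ⟨0, by omega, rfl⟩
        · exact ⟨1, by omega, rfl⟩)
      (fun j hj => by
        have : j = 0 := by omega
        subst this
        norm_num [Od, aD, pB])
      (by norm_num [Od, aD, pB])
      (fun k hk0 hk1 => by
        have : k = 0 ∨ k = 1 := by norm_num at hk1; omega
        rcases this with rfl | rfl
        · left
          refine ⟨0, le_rfl, ?_⟩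
          norm_num [aD, pB]
        · right
          norm_num [aD, pB])
      (fun j hj => by
        have := hw j hj
        unfold cst
        split_ifs <;> omega)
      (fun j _ _ => pB_even hP j)
    refine fin_base hg hP (fun j => rt 3 2 (aD j)) (by decide) (by decide) (by decide) h ?_
    unfold em aD pB
    push_cast
    split_ifs <;> omega

end Pool.Agent.Y790.TR
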