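import Pool.Agent.Y790.TR.Def

/-!
# Any two even lag vectors with the same sum are connected
-/

set_option autoImplicit false

namespace Pool.Agent.Y790.TR

open Pool.Agent.Y790.LG (Od Sm rt cst hd Lg Kst prd Cls ClsStm Lags)

/-- connected -/
def Cn (n : ℕ) (p p' : ℕ → ℕ) : Prop := ∃ N : ℕ, Seg n (Lg n p) (fun _ => N) (Lg n p')

/-- even lags -/
def Ev (n : ℕ) (p : ℕ → ℕ) : Prop := ∀ j ≤ 2 * n, p j % 2 = 0

/-- two units of lag are moved from `k` to `k'` -/
def mv (p : ℕ → ℕ) (k k' : ℕ) : ℕ → ℕ := fun i =>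
  p i + (if i = k' then 2 else 0) - (if i = k then 2 else 0)

theorem Cn.trans (ht : SegTransStm) {n : ℕ} {p q r : ℕ → ℕ} (h1 : Cn n p q) (h2 : Cn n q r) :
    Cn n p r := by
  obtain ⟨N, h1⟩ := h1
  obtain ⟨N', h2⟩ := h2
  exact ⟨N + N', ht n _ _ _ _ _ h1 h2⟩

theorem Cn.congr (hc : SegCongrStm) {n : ℕ} {p q p' q' : ℕ → ℕ} (h1 : Cn n p q)
    (hp : ∀ j ≤ 2 * n, p j = p' j) (hq : ∀ j ≤ 2 * n, q j = q' j) : Cn n p' q' := by
  obtain ⟨N, h1⟩ := h1
  refine ⟨N, hc n _ _ _ _ _ _ ?_ (fun _ _ => rfl) ?_ h1⟩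
  · intro i hi
    unfold Lg
    rw [hp i hi]
  · intro i hi
    unfold Lg
    rw [hq i hi]

/-- a bound for the lags -/
theorem le_sum {n : ℕ} (p : ℕ → ℕ) {j : ℕ} (hj : j ≤ 2 * n) :
    p j ≤ ∑ i ∈ Finset.range (2 * n + 1), p i :=
  Finset.single_le_sum (f := p) (fun _ _ => Nat.zero_le _) (Finset.mem_range.2 (by omega))

theorem Cn.refl (hw : WaitStm) {n : ℕ} {p : ℕ → ℕ} (hp : Ev n p) : Cn n p p :=
  ⟨2 * (∑ i ∈ Finset.range (2 * n + 1), p i) + 2, hw n p _ (fun j hj => by
    have := le_sum p hj
    omega) hp⟩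

theorem mv_even {n : ℕ} {p : ℕ → ℕ} (hp : Ev n p) {k k' : ℕ} (hk : 2 ≤ p k) : Ev n (mv p k k') := by
  intro j hj
  have h := hp j hj
  unfold mv
  by_cases h1 : j = k'
  · rw [if_pos h1]
    by_cases h2 : j = k
    · rw [if_pos h2]; omega
    · rw [if_neg h2]; omega
  · rw [if_neg h1]
    by_cases h2 : j = k
    · rw [if_pos h2]
      subst h2
      omega
    · rw [if_neg h2]; omega

theorem step (hc : SegCongrStm) (ht : SegTransStm) (hm : Mov0Stm) {n k k1 : ℕ} (hn : 1 ≤ n)
    (hk1 : k1 ≤ 2 * n)
    (h : ∀ p : ℕ → ℕ, Ev n p → 2 ≤ p k → Cn n p (mv p k k1)) :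
    ∀ p : ℕ → ℕ, Ev n p → 2 ≤ p k → Cn n p (mv p k (prd n k1)) := by
  intro p hp hpk
  have h1 := h p hp hpk
  have h2 : Ev n (mv p k k1) := mv_even hp hpk
  have h3 : 2 ≤ mv p k k1 k1 := by
    unfold mv
    rw [if_pos rfl]
    by_cases h4 : k1 = k
    · rw [if_pos h4, h4]; omega
    · rw [if_neg h4]; omega
  have h4 := hm n (mv p k k1) k1 ((∑ i ∈ Finset.range (2 * n + 1), mv p k k1 i) + 2) hn hk1 h3 h2
    (fun j hj => by
      have := le_sum (mv p k k1) hj
      omega)
  have h5 : Cn n (mv p k k1) (fun i => if i = k1 then mv p k k1 i - 2 else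
      if i = prd n k1 then mv p k k1 i + 2 else mv p k k1 i) := ⟨_, h4⟩
  refine Cn.trans ht h1 (Cn.congr hc h5 (fun _ _ => rfl) fun j hj => ?_)
  have hne : prd n k1 ≠ k1 := by
    unfold prd
    split_ifs with h6 <;> omega
  by_cases e1 : j = k1
  · rw [if_pos e1]
    subst e1
    unfold mv
    rw [if_pos rfl, if_neg (show ¬ j = prd n j from fun h6 => hne h6.symm)]
    by_cases e2 : j = k
    · rw [if_pos e2]; omega
    · rw [if_neg e2]; omega
  · rw [if_neg e1]
    by_cases e2 : j = prd n k1
    · rw [if_pos e2]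
      unfold mv
      rw [if_neg e1, if_pos e2]
      by_cases e3 : j = k
      · rw [if_pos e3]
        have : 2 ≤ p j := by rw [e3]; exact hpk
        omega
      · rw [if_neg e3]; omega
    · rw [if_neg e2]
      unfold mv
      rw [if_neg e1, if_neg e2]

/-- two units of lag can be moved anywhere -/
theorem move (hc : SegCongrStm) (ht : SegTransStm) (hw : WaitStm) (hm : Mov0Stm) {n k : ℕ}
    (hn : 1 ≤ n) (hk : k ≤ 2 * n) : ∀ k' ≤ 2 * n, ∀ p : ℕ → ℕ, Ev n p → 2 ≤ p k →
      Cn n p (mv p k k') := by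
  have h0 : ∀ p : ℕ → ℕ, Ev n p → 2 ≤ p k → Cn n p (mv p k k) := by
    intro p hp hpk
    refine Cn.congr hc (Cn.refl hw hp) (fun _ _ => rfl) fun j hj => ?_
    unfold mv
    omega
  have h1 : ∀ j, j ≤ k → ∀ p : ℕ → ℕ, Ev n p → 2 ≤ p k → Cn n p (mv p k (k - j)) := by
    intro j
    induction j with
    | zero =>
      intro _
      exact h0
    | succ j ih =>
      intro hj
      have h2 := step hc ht hm hn (k1 := k - j) (by omega) (ih (by omega))
      have e : prd n (k - j) = k - (j + 1) := by
        unfold prd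
        rw [if_neg (by omega)]
        omega
      rwa [e] at h2
  have h2 : ∀ p : ℕ → ℕ, Ev n p → 2 ≤ p k → Cn n p (mv p k (2 * n)) := by
    have h3 := h1 k le_rfl
    rw [Nat.sub_self] at h3
    have h4 := step hc ht hm hn (k1 := 0) (by omega) h3
    have e : prd n 0 = 2 * n := by
      unfold prd
      rw [if_pos rfl]
    rwa [e] at h4
  have h3 : ∀ j, j ≤ 2 * n → ∀ p : ℕ → ℕ, Ev n p → 2 ≤ p k → Cn n p (mv p k (2 * n - j)) := by
    intro j
    induction j with
    | zero =>
      intro _
      exact h2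
    | succ j ih =>
      intro hj
      have h4 := step hc ht hm hn (k1 := 2 * n - j) (by omega) (ih (by omega))
      have e : prd n (2 * n - j) = 2 * n - (j + 1) := by
        unfold prd
        rw [if_neg (by omega)]
        omega
      rwa [e] at h4
  intro k' hk'
  have h4 := h3 (2 * n - k') (by omega)
  have e : 2 * n - (2 * n - k') = k' := by omega
  rwa [e] at h4

theorem conn (hc : SegCongrStm) (ht : SegTransStm) (hw : WaitStm) (hm : Mov0Stm) : ConnStm := by
  intro n p p' hn hp hp' hsum
  have main : ∀ D : ℕ, ∀ q : ℕ → ℕ, Ev n q →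
      ∑ j ∈ Finset.range (2 * n + 1), q j = ∑ j ∈ Finset.range (2 * n + 1), p' j →
      ∑ j ∈ Finset.range (2 * n + 1), (q j - p' j) = D → Cn n q p' := by
    intro D
    induction D using Nat.strong_induction_on with
    | _ D ih =>
      intro q hq hs hD
      by_cases hz : ∀ j ∈ Finset.range (2 * n + 1), q j ≤ p' j
      · have h1 := (Finset.sum_eq_sum_iff_of_le hz).1 hs
        exact Cn.congr hc (Cn.refl hw hq) (fun _ _ => rfl)
          fun j hj => h1 j (Finset.mem_range.2 (by omega))
      · push Not at hz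
        obtain ⟨k, hkr, hk⟩ := hz
        have hk2 : k ≤ 2 * n := by
          have := Finset.mem_range.1 hkr
          omega
        obtain ⟨k', hkr', hk'⟩ : ∃ k' ∈ Finset.range (2 * n + 1), q k' < p' k' := by
          by_contra h
          push Not at h
          have h1 := Finset.sum_lt_sum h ⟨k, hkr, hk⟩
          omega
        have hk2' : k' ≤ 2 * n := by
          have := Finset.mem_range.1 hkr'
          omega
        have a1 := hq k hk2
        have a2 := hp' k hk2
        have a3 := hq k' hk2'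
        have a4 := hp' k' hk2'
        have hkk : k ≠ k' := by
          rintro rfl
          omega
        have h2 : 2 ≤ q k := by omega
        have h3 := move hc ht hw hm hn hk2 k' hk2' q hq h2
        refine Cn.trans ht h3 (ih _ ?_ _ (mv_even hq h2) ?_ rfl)
        · rw [← hD]
          refine Finset.sum_lt_sum (fun i hi => ?_) ⟨k, hkr, ?_⟩
          · unfold mv
            by_cases e1 : i = k'
            · subst e1
              rw [if_pos rfl, if_neg (show ¬ i = k from fun h => hkk h.symm)]
              omega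
            · rw [if_neg e1]
              by_cases e2 : i = k
              · rw [if_pos e2]; omega
              · rw [if_neg e2]; omega
          · unfold mv
            rw [if_neg hkk, if_pos rfl]
            omega
        · have e : ∑ i ∈ Finset.range (2 * n + 1), (mv q k k' i + (if i = k then 2 else 0)) =
              ∑ i ∈ Finset.range (2 * n + 1), (q i + (if i = k' then 2 else 0)) := by
            refine Finset.sum_congr rfl fun i _ => ?_
            unfold mv
            by_cases e2 : i = k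
            · rw [if_pos e2]
              have : 2 ≤ q i := by rw [e2]; exact h2
              omega
            · rw [if_neg e2]; omega
          rw [Finset.sum_add_distrib, Finset.sum_add_distrib, Finset.sum_ite_eq',
            Finset.sum_ite_eq', if_pos hkr, if_pos hkr'] at e
          rw [← hs]
          omega
  exact main _ p hp hsum rfl

end Pool.Agent.Y790.TR
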