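import Pool.Agent.Y790.TR.Def
import Pool.Agent.Y790.LG.Cls
import Pool.Agent.Y790.LG.Step
import Pool.Agent.Y790.LG.Core

/-!
# Trees with long threads: the elementary step and the event with a free class (helper430)
-/

set_option autoImplicit false

namespace Pool.Agent.Y790.TR

open Pool.Agent.Y790.LG (Od Sm rt cst hd Lg Kst prd Cls ClsStm Lags)

theorem fwd : FwdStm := by
  intro n x a p w t ht ha hs hod hcr hw hp
  obtain ⟨L, W₀, hW, hlen, hlast, hb, hch, hcov, hsum, hhd⟩ :=
    Pool.Agent.Y790.LG.StepAux.core Pool.Agent.Y790.LG.cls n x a p w t ht ha hs hod hw hp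
  refine ⟨L, W₀, hW, hlen, hlast, hb, hch, hcov, ?_⟩
  intro v hv hv1 hv2
  by_cases hv3 : 2 * (n : ℤ) + 1 ≤ v
  · exact hsum v hv hv3 hv2
  · obtain ⟨j, hj, hj2⟩ := hcr ((v + (2 * n + 1)) / 2) (by omega) (by omega)
    refine ⟨j, hj, ?_⟩
    have h3 := hhd j hj
    rw [hj2] at h3
    have h4 : 2 * ((v + (2 * (n : ℤ) + 1)) / 2) - (2 * n + 1) = v := by omega
    rw [h4] at h3
    exact h3

namespace EvRAux

open Pool.Agent.Y790.LG.StepAux

/-- the class paths of a step, with the sums inside of the class paths -/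
lemma core2 (q : ℕ) (hq : q % 2 = 1) (a p : ℕ → ℕ) (w t : ℕ) (ht : t ≤ q)
    (ha : ∀ j < q, a j < q) (hs : ∀ s < q, ∃ j < q, a j = s)
    (hw : ∀ j < q, 2 * p j + 2 ≤ cst w t (a j))
    (hp : ∀ j < q, cst w t (a j) % 2 = 1 → p j % 2 = 0) :
    ∃ (L : ℕ → List ℤ) (W₀ : ℤ), W₀ = ∑ j ∈ Finset.range q, (cst w t (a j) : ℤ) ∧
      (∀ j < q, (L j).length = cst w t (a j)) ∧
      (∀ j < q, (L j).getLast? = some (hd q (rt q t (a j)) (p j) + W₀)) ∧
      (∀ j < q, ∀ u ∈ L j, 0 ≤ u ∧ u < W₀) ∧
      (∀ j < q, (L j).IsChain Od) ∧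
      (∀ j < q, (L j).head? = some ((a j : ℤ) + p j * q)) ∧
      (∀ u : ℤ, 0 ≤ u → u < W₀ → ∃ j < q, u ∈ L j) ∧
      (∀ v : ℤ, v % 2 = 1 → (q : ℤ) ≤ v → v < 2 * W₀ - q → ∃ j < q, Sm (L j) v) := by
  obtain ⟨n, rfl⟩ : ∃ n, q = 2 * n + 1 := ⟨q / 2, by omega⟩
  have hex : ∀ j : ℕ, ∃ l : List ℤ, j < 2 * n + 1 → Cls (cst w t (a j)) (p j) l := by
    intro j
    by_cases hj : j < 2 * n + 1
    · obtain ⟨l, hl⟩ := Pool.Agent.Y790.LG.cls (cst w t (a j)) (p j) (hw j hj) (hp j hj)
      exact ⟨l, fun _ => hl⟩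
    · exact ⟨[], fun h => absurd h hj⟩
  choose l hl using hex
  have hW : (((2 * n + 1) * w + t : ℕ) : ℤ) =
      ∑ j ∈ Finset.range (2 * n + 1), (cst w t (a j) : ℤ) := by
    rw [← sum_a n w t a ht (fun j hj => Nat.le_of_lt_succ (ha j (by omega))) (fun s hs' => by
      obtain ⟨j, hj, h⟩ := hs s (by omega)
      exact ⟨j, by omega, h⟩)]
    push_cast
    rfl
  refine ⟨fun j => cm (2 * n + 1) (a j) (l j), (((2 * n + 1) * w + t : ℕ) : ℤ), hW,
    ?_, ?_, ?_, ?_, ?_, ?_, ?_⟩
  · intro j hj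
    obtain ⟨h, -⟩ := hl j hj
    simp [cm, h]
  · intro j hj
    obtain ⟨-, -, h, -⟩ := hl j hj
    have haj := ha j hj
    simp only [cm]
    rw [List.getLast?_map, h]
    simp only [Option.map_some, Option.some.injEq]
    unfold hd rt cst
    split_ifs with h3
    · have h4 : ((a j + (2 * n + 1) - t : ℕ) : ℤ) = (a j : ℤ) + (2 * n + 1) - t := by
        rw [Nat.cast_sub (by omega)]; push_cast; ring
      rw [h4]; push_cast; ring
    · have h4 : ((a j - t : ℕ) : ℤ) = (a j : ℤ) - t := by
        rw [Nat.cast_sub (by omega)]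
      rw [h4]; push_cast; ring
  · intro j hj u hu
    obtain ⟨-, -, -, -, h, -⟩ := hl j hj
    simp only [cm, List.mem_map] at hu
    obtain ⟨y, hy, rfl⟩ := hu
    obtain ⟨hy1, hy2⟩ := h y hy
    have haj := ha j hj
    obtain ⟨y', rfl⟩ := Int.eq_ofNat_of_zero_le hy1
    have h5 := cst_lt (2 * n + 1) w t (a j) y' (by omega) (by exact_mod_cast hy2)
    constructor
    · positivity
    · have h6 : ((a j + (2 * n + 1) * y' : ℕ) : ℤ) < (((2 * n + 1) * w + t : ℕ) : ℤ) := by
        exact_mod_cast h5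
      calc ((a j : ℤ) + (2 * n + 1) * (y' : ℕ)) = ((a j + (2 * n + 1) * y' : ℕ) : ℤ) := by
            push_cast; ring
        _ < _ := h6
  · intro j hj
    exact chain_map n (a j) (l j) (hl j hj).2.2.2.2.2.2
  · intro j hj
    obtain ⟨-, h, -⟩ := hl j hj
    simp only [cm]
    rw [List.head?_map, h]
    simp only [Option.map_some, Option.some.injEq]
    push_cast
    ring
  · intro N hN0 hN
    obtain ⟨N', rfl⟩ := Int.eq_ofNat_of_zero_le hN0
    have hN' : N' < (2 * n + 1) * w + t := by exact_mod_cast hN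
    have hmod : N' % (2 * n + 1) < 2 * n + 1 := Nat.mod_lt _ (by omega)
    have hdm := Nat.mod_add_div N' (2 * n + 1)
    obtain ⟨j, hj, hj2⟩ := hs (N' % (2 * n + 1)) (by omega)
    have h5 := lt_cst (2 * n + 1) w t (N' % (2 * n + 1)) (N' / (2 * n + 1)) ht (by omega)
    refine ⟨j, hj, ?_⟩
    obtain ⟨-, -, -, h, -⟩ := hl j hj
    simp only [cm, List.mem_map]
    refine ⟨((N' / (2 * n + 1) : ℕ) : ℤ), h _ (by positivity) (by rw [hj2]; exact_mod_cast h5), ?_⟩
    rw [hj2]
    exact_mod_cast hdm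
  · intro v hv hv1 hv2
    push_cast at hv1 hv2
    obtain ⟨m, hm⟩ : ∃ m : ℕ, v = (2 * n + 1) + 2 * (m : ℤ) := by
      refine ⟨((v - (2 * n + 1)) / 2).toNat, ?_⟩
      omega
    have hm2 : m + (2 * n + 1) < (2 * n + 1) * w + t := by
      have : (m : ℤ) + (2 * n + 1) < (((2 * n + 1) * w + t : ℕ) : ℤ) := by
        push_cast
        linarith
      exact_mod_cast this
    have hmod : m % (2 * n + 1) < 2 * n + 1 := Nat.mod_lt _ (by omega)
    have hdm := Nat.mod_add_div m (2 * n + 1)
    obtain ⟨j, hj, hj2⟩ := hs (m % (2 * n + 1)) (by omega)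
    have h5 := lt_cst (2 * n + 1) w t (m % (2 * n + 1)) (m / (2 * n + 1) + 1) ht (by
      have : (2 * n + 1) * (m / (2 * n + 1) + 1) =
        (2 * n + 1) * (m / (2 * n + 1)) + (2 * n + 1) := by ring
      omega)
    refine ⟨j, hj, ?_⟩
    obtain ⟨-, -, -, -, -, h, -⟩ := hl j hj
    have h6 := h ((m / (2 * n + 1) : ℕ) : ℤ) (by positivity) (by
      rw [hj2]
      have : ((m / (2 * n + 1) + 1 : ℕ) : ℤ) < (cst w t (m % (2 * n + 1)) : ℤ) := by
        exact_mod_cast h5
      push_cast at this ⊢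
      linarith)
    have h7 := Sm_map (2 * n + 1) (a j) (l j) _ h6
    have h8 : 2 * (a j : ℤ) + (2 * n + 1) * (2 * ((m / (2 * n + 1) : ℕ) : ℤ) + 1) = v := by
      have h9 : ((m % (2 * n + 1) + (2 * n + 1) * (m / (2 * n + 1)) : ℕ) : ℤ) = m := by
        exact_mod_cast hdm
      rw [hj2, hm]
      push_cast at h9 ⊢
      linarith
    rw [h8] at h7
    exact h7

/-! ### moving to absolute positions -/

lemma em_add {A B a b : ℤ} (h : Od a b) : em A B a + em A B b = a + b + (A + B) := by
  unfold Od at h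
  unfold em
  split_ifs <;> omega

lemma em_od {A B a b : ℤ} (hAB : (A - B) % 2 = 0) (h : Od a b) : Od (em A B a) (em A B b) := by
  have := em_add (A := A) (B := B) h
  unfold Od at *
  omega

lemma chain_em {A B : ℤ} (hAB : (A - B) % 2 = 0) {M : List ℤ} (h : M.IsChain Od) :
    (M.map (em A B)).IsChain Od := by
  rw [List.isChain_map]
  exact h.imp fun _ _ h => em_od hAB h

lemma sm_em {A B : ℤ} {M : List ℤ} {v : ℤ} (hM : M.IsChain Od) (h : Sm M v) :
    Sm (M.map (em A B)) (v + (A + B)) := by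
  obtain ⟨a, b, h1, h2⟩ := h
  have h3 := Pool.Agent.Y790.LG.infix_chain h1 hM
  refine ⟨em A B a, em A B b, by simpa using h1.map (em A B), ?_⟩
  rw [em_add h3, h2]

lemma ext_chain {A B : ℤ} (hAB : (A - B) % 2 = 0) {S M : List ℤ} {x : ℤ} (hS : S.IsChain Od)
    (hl : S.getLast? = some (em A B x)) (hM : (x :: M).IsChain Od) :
    (S ++ M.map (em A B)).IsChain Od := by
  obtain ⟨S', rfl⟩ := Pool.Agent.Y790.LG.exists_last hl
  have c2 : ([em A B x] ++ M.map (em A B)).IsChain Od := by
    have := chain_em hAB hM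
    simpa using this
  have d1 := hS.append_overlap c2 (by simp)
  simpa using d1

lemma ext_last {A B : ℤ} {S M : List ℤ} {y : ℤ} (h : M.getLast? = some y) :
    (S ++ M.map (em A B)).getLast? = some (em A B y) := by
  simp [List.getLast?_append, List.getLast?_map, h]

lemma ext_old {S T : List ℤ} {v : ℤ} (h : Sm S v) : Sm (S ++ T) v :=
  Pool.Agent.Y790.LG.Sm.inFx h (List.prefix_append S T).isInfix

lemma ext_new {A B : ℤ} {S M : List ℤ} {x v : ℤ} (hl : S.getLast? = some (em A B x))
    (hM : (x :: M).IsChain Od) (h : Sm (x :: M) v) : Sm (S ++ M.map (em A B)) (v + (A + B)) := by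
  obtain ⟨S', rfl⟩ := Pool.Agent.Y790.LG.exists_last hl
  refine Pool.Agent.Y790.LG.Sm.inFx (sm_em hM h) ?_
  refine List.IsSuffix.isInfix ⟨S', ?_⟩
  simp

lemma ext_base (A B W : ℤ) (hAB : (A - B) % 2 = 0) (hA : 0 ≤ A) (hB : 0 ≤ B) (hW : 0 ≤ W) :
    ∃ A' B' : ℤ, (A' - B') % 2 = 0 ∧ 0 ≤ A' ∧ 0 ≤ B' ∧ A' + B' = A + B + 2 * W ∧
      (∀ u, em A' B' u = em A B (u + W)) ∧ (∀ z, In A B z → In A' B' z) ∧
      (∀ u, 0 ≤ u → u < W → In A' B' (em A B u)) ∧
      ∀ z, In A' B' z → In A B z ∨ ∃ u, 0 ≤ u ∧ u < W ∧ em A B u = z := by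
  rcases Int.emod_two_eq_zero_or_one W with h | h
  · refine ⟨A + W, B + W, by omega, by omega, by omega, by ring, ?_, ?_, ?_, ?_⟩
    · intro u
      unfold em
      split_ifs <;> omega
    · rintro z ⟨h1, h2, h3⟩
      refine ⟨h1, fun h4 => ?_, fun h4 => ?_⟩
      · have := h2 (by omega)
        omega
      · have := h3 (by omega)
        omega
    · intro u h1 h2
      unfold em
      split_ifs with h3
      · exact ⟨by omega, fun _ => by omega, fun _ => by omega⟩
      · exact ⟨by omega, fun _ => by omega, fun _ => by omega⟩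
    · rintro z ⟨h1, h2, h3⟩
      rcases Int.emod_two_eq_zero_or_one (z - A) with h4 | h4
      · have h5 := h2 (by omega)
        by_cases h6 : z < A
        · exact Or.inl ⟨h1, fun _ => h6, fun h7 => by omega⟩
        · refine Or.inr ⟨z - A, by omega, by omega, ?_⟩
          unfold em
          rw [if_pos h4]
          ring
      · have h5 := h3 (by omega)
        by_cases h6 : z < B
        · exact Or.inl ⟨h1, fun h7 => by omega, fun _ => h6⟩
        · refine Or.inr ⟨z - B, by omega, by omega, ?_⟩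
          unfold em
          rw [if_neg (by omega)]
          ring
  · refine ⟨B + W, A + W, by omega, by omega, by omega, by ring, ?_, ?_, ?_, ?_⟩
    · intro u
      unfold em
      split_ifs <;> omega
    · rintro z ⟨h1, h2, h3⟩
      refine ⟨h1, fun h4 => ?_, fun h4 => ?_⟩
      · have := h3 (by omega)
        omega
      · have := h2 (by omega)
        omega
    · intro u h1 h2
      unfold em
      split_ifs with h3
      · exact ⟨by omega, fun _ => by omega, fun _ => by omega⟩
      · exact ⟨by omega, fun _ => by omega, fun _ => by omega⟩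
    · rintro z ⟨h1, h2, h3⟩
      rcases Int.emod_two_eq_zero_or_one (z - A) with h4 | h4
      · have h5 := h3 (by omega)
        by_cases h6 : z < A
        · exact Or.inl ⟨h1, fun _ => h6, fun h7 => by omega⟩
        · refine Or.inr ⟨z - A, by omega, by omega, ?_⟩
          unfold em
          rw [if_pos h4]
          ring
      · have h5 := h2 (by omega)
        by_cases h6 : z < B
        · exact Or.inl ⟨h1, fun h7 => by omega, fun _ => h6⟩
        · refine Or.inr ⟨z - B, by omega, by omega, ?_⟩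
          unfold em
          rw [if_neg (by omega)]
          ring

end EvRAux

open EvRAux in
theorem evR : EvRStm := by
  intro n A B x c b V xV a p w t hOut hV hbV ht ha hs hod hodV hcr hw hp
  obtain ⟨hAB, hA, hB, L, hcount, hcov, hbI, hLI, hcn, hch, hlast, hsum⟩ := hOut
  obtain ⟨M, W₀, kW, klen, klast, kb, kch, khd, kcov, ksum⟩ := core2 (2 * n + 3) (by omega) a p w t
    ht (fun j hj => Nat.lt_succ_of_le (ha j (by omega))) (fun s hs' => by
      obtain ⟨j, hj, h⟩ := hs s (by omega)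
      exact ⟨j, by omega, h⟩) (fun j hj => hw j (by omega)) (fun j hj => hp j (by omega))
  have hW0 : 0 ≤ W₀ := by
    rw [kW]
    exact Finset.sum_nonneg fun j _ => by positivity
  obtain ⟨A', B', hAB', hA', hB', hsumAB, hem, hin1, hin2, hin3⟩ := ext_base A B W₀ hAB hA hB hW0
  -- the heads
  obtain ⟨y₀, hy₀⟩ : ∃ y₀ : ℤ, y₀ = a (2 * n + 2) + p (2 * n + 2) * (2 * n + 3) := ⟨_, rfl⟩
  obtain ⟨tl, htl⟩ : ∃ tl, M (2 * n + 2) = y₀ :: tl := by
    have h1 := khd (2 * n + 2) (by omega)
    cases hM : M (2 * n + 2) with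
    | nil => rw [hM] at h1; simp at h1
    | cons z l =>
      rw [hM, List.head?_cons, Option.some.injEq] at h1
      refine ⟨l, ?_⟩
      rw [h1, hy₀]
      push_cast
      rfl
  have kchX : ∀ (j : ℕ) (X : ℤ), j < 2 * n + 3 → Od X (a j + p j * (2 * n + 3)) →
      (X :: M j).IsChain Od ∧ Sm (X :: M j) (X + (a j + p j * (2 * n + 3))) := by
    intro j X hj hX
    have h1 := khd j hj
    have h2 := kch j hj
    cases hM : M j with
    | nil => rw [hM] at h1; simp at h1
    | cons z l =>
      rw [hM] at h1 h2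
      rw [List.head?_cons, Option.some.injEq] at h1
      push_cast at h1
      rw [h1] at h2 ⊢
      exact ⟨List.isChain_cons_cons.mpr ⟨hX, h2⟩, X, _, ⟨[], l, rfl⟩, rfl⟩
  obtain ⟨b', hb'⟩ : ∃ b', b' = bN n (em A B y₀) b := ⟨_, rfl⟩
  obtain ⟨c', hc'⟩ : ∃ c', c' = cN n V c := ⟨_, rfl⟩
  obtain ⟨L', hL'⟩ : ∃ L' : ℕ → List ℤ, L' = fun j => if j = 2 * n + 2 then tl.map (em A B) else
    if j = 2 * n + 1 then (M j).map (em A B) else L j ++ (M j).map (em A B) := ⟨_, rfl⟩
  have hb1 : ∀ i ≤ n, b' i = b i := fun i hi => by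
    rw [hb', bN, if_neg (by omega)]
  have hb2 : b' (n + 1) = em A B y₀ := by
    rw [hb', bN, if_pos rfl]
  have hc1 : ∀ j ≤ 2 * n, c' j = c j := fun j hj => by
    rw [hc', cN, if_neg (by omega), if_neg (by omega)]
  have hc2 : c' (2 * n + 1) = V := by
    rw [hc', cN, if_neg (by omega), if_pos rfl]
  have hc3 : c' (2 * n + 2) = n + 1 := by
    rw [hc', cN, if_pos rfl]
  have hL1 : ∀ j ≤ 2 * n, L' j = L j ++ (M j).map (em A B) := fun j hj => by
    rw [hL']
    simp only
    rw [if_neg (by omega), if_neg (by omega)]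
  have hL2 : L' (2 * n + 1) = (M (2 * n + 1)).map (em A B) := by
    rw [hL']
    simp only
    rw [if_neg (by omega), if_pos trivial]
  have hL3 : L' (2 * n + 2) = tl.map (em A B) := by
    rw [hL']
    simp only
    rw [if_pos trivial]
  have hS1 : ∀ j ≤ 2 * n, b' (c' j) :: L' j = (b (c j) :: L j) ++ (M j).map (em A B) :=
    fun j hj => by rw [hc1 j hj, hb1 _ (hcn j hj), hL1 j hj, List.cons_append]
  have hS2 : b' (c' (2 * n + 1)) :: L' (2 * n + 1) = [em A B xV] ++
      (M (2 * n + 1)).map (em A B) := by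
    rw [hc2, hb1 _ hV, hL2, hbV, List.singleton_append]
  have hS3 : b' (c' (2 * n + 2)) :: L' (2 * n + 2) = (M (2 * n + 2)).map (em A B) := by
    rw [hc3, hb2, hL3, htl, List.map_cons]
  have hcase : ∀ j ≤ 2 * (n + 1), j ≤ 2 * n ∨ j = 2 * n + 1 ∨ j = 2 * n + 2 := fun j hj => by omega
  rw [← hy₀, ← hb', ← hc']
  have hmem : ∀ j < 2 * n + 3, ∀ u ∈ M j, (∃ i ≤ n + 1, b' i = em A B u) ∨
      em A B u ∈ L' j := by
    intro j hj u hu
    rcases hcase j (by omega) with h | h | h
    · right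
      rw [hL1 j h, List.mem_append]
      exact Or.inr (List.mem_map_of_mem hu)
    · right
      rw [h] at hu ⊢
      rw [hL2]
      exact List.mem_map_of_mem hu
    · rw [h] at hu ⊢
      rw [htl, List.mem_cons] at hu
      rcases hu with hu | hu
      · left
        exact ⟨n + 1, le_rfl, by rw [hb2, hu]⟩
      · right
        rw [hL3]
        exact List.mem_map_of_mem hu
  refine ⟨A', B', hAB', hA', hB', L', ?_, ?_, ?_, ?_, ?_, ?_, ?_, ?_⟩
  · -- count
    have e1 : ∑ j ∈ Finset.range (2 * n + 1), ((L' j).length : ℤ) =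
        ∑ j ∈ Finset.range (2 * n + 1), ((L j).length : ℤ) +
          ∑ j ∈ Finset.range (2 * n + 1), (cst w t (a j) : ℤ) := by
      rw [← Finset.sum_add_distrib]
      refine Finset.sum_congr rfl fun j hj => ?_
      rw [Finset.mem_range] at hj
      rw [hL1 j (by omega), List.length_append, List.length_map, klen j (by omega)]
      push_cast
      ring
    have e2 : ((L' (2 * n + 1)).length : ℤ) = (cst w t (a (2 * n + 1)) : ℤ) := by
      rw [hL2, List.length_map, klen _ (by omega)]
    have e3 : ((L' (2 * n + 2)).length : ℤ) = (cst w t (a (2 * n + 2)) : ℤ) - 1 := by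
      rw [hL3, List.length_map, ← klen (2 * n + 2) (by omega), htl, List.length_cons]
      push_cast
      ring
    have e4 : W₀ = ∑ j ∈ Finset.range (2 * n + 1), (cst w t (a j) : ℤ) +
        (cst w t (a (2 * n + 1)) : ℤ) + (cst w t (a (2 * n + 2)) : ℤ) := by
      rw [kW, show 2 * n + 3 = 2 * n + 1 + 1 + 1 by ring, Finset.sum_range_succ,
        Finset.sum_range_succ]
    rw [show 2 * (n + 1) + 1 = 2 * n + 1 + 1 + 1 by ring, Finset.sum_range_succ,
      Finset.sum_range_succ, e1, e2, show 2 * n + 1 + 1 = 2 * n + 2 by ring, e3, hsumAB, hcount, e4]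
    push_cast
    ring
  · -- cover
    intro z hz
    rcases hin3 z hz with h | ⟨u, hu0, hu1, rfl⟩
    · rcases hcov z h with ⟨i, hi, h1⟩ | ⟨j, hj, h1⟩
      · exact Or.inl ⟨i, by omega, by rw [hb1 i hi, h1]⟩
      · refine Or.inr ⟨j, by omega, ?_⟩
        rw [hL1 j hj, List.mem_append]
        exact Or.inl h1
    · obtain ⟨j, hj, hu⟩ := kcov u hu0 hu1
      rcases hmem j hj u hu with h | h
      · exact Or.inl h
      · exact Or.inr ⟨j, by omega, h⟩
  · -- nodes
    intro i hi
    rcases Nat.lt_or_ge i (n + 1) with h | h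
    · rw [hb1 i (by omega)]
      exact hin1 _ (hbI i (by omega))
    · have h1 : i = n + 1 := by omega
      rw [h1, hb2]
      have h2 := kb (2 * n + 2) (by omega) y₀ (by rw [htl]; exact List.mem_cons_self)
      exact hin2 _ h2.1 h2.2
  · -- strands
    intro j hj z hz
    have hnew : ∀ z ∈ (M j).map (em A B), In A' B' z := by
      intro z hz
      obtain ⟨u, hu, rfl⟩ := List.mem_map.1 hz
      have h2 := kb j (by omega) u hu
      exact hin2 _ h2.1 h2.2
    rcases hcase j hj with h | h | h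
    · rw [hL1 j h, List.mem_append] at hz
      rcases hz with hz | hz
      · exact hin1 _ (hLI j h z hz)
      · exact hnew z hz
    · rw [h] at hz hnew
      rw [hL2] at hz
      exact hnew z hz
    · rw [h] at hz hnew
      rw [hL3] at hz
      refine hnew z ?_
      rw [htl, List.map_cons]
      exact List.mem_cons_of_mem _ hz
  · intro j hj
    rcases hcase j hj with h | h | h
    · rw [hc1 j h]
      have := hcn j h
      omega
    · rw [h, hc2]
      omega
    · rw [h, hc3]
  · -- chains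
    intro j hj
    rcases hcase j hj with h | h | h
    · rw [hS1 j h]
      exact ext_chain hAB (hch j h) (hlast j h) (kchX j (x j) (by omega) (hod j h)).1
    · rw [h, hS2]
      exact ext_chain hAB (by simp) (by simp) (kchX (2 * n + 1) xV (by omega) hodV).1
    · rw [h, hS3]
      exact chain_em hAB (kch _ (by omega))
  · -- last vertices
    intro j hj
    have h0 := klast j (by omega)
    rw [hem]
    rcases hcase j hj with h | h | h
    · rw [hS1 j h]
      exact ext_last h0
    · rw [h] at h0 ⊢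
      rw [hS2]
      exact ext_last h0
    · rw [h] at h0 ⊢
      rw [hS3]
      exact ext_last (S := []) h0
  · -- sums
    intro v hv hv1 hv2
    by_cases hv3 : v < A + B - (2 * n + 1)
    · obtain ⟨j, hj, h⟩ := hsum v hv hv1 hv3
      refine ⟨j, by omega, ?_⟩
      rw [hS1 j hj]
      exact ext_old h
    · obtain ⟨v', hv'⟩ : ∃ v', v' = v - (A + B) := ⟨_, rfl⟩
      have hvv : v = v' + (A + B) := by omega
      rw [hvv]
      by_cases hv4 : v' < 2 * n + 3
      · have h4 : 2 * ((v' + (2 * (n : ℤ) + 1)) / 2) - (2 * n + 1) = v' := by omega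
        rcases hcr ((v' + (2 * n + 1)) / 2) (by omega) (by omega) with ⟨j, hj, h5⟩ | h5
        · refine ⟨j, by omega, ?_⟩
          obtain ⟨h6, h7⟩ := kchX j (x j) (by omega) (hod j hj)
          rw [h5, h4] at h7
          rw [hS1 j hj]
          exact ext_new (hlast j hj) h6 h7
        · refine ⟨2 * n + 1, by omega, ?_⟩
          obtain ⟨h6, h7⟩ := kchX (2 * n + 1) xV (by omega) hodV
          rw [h5, h4] at h7
          rw [hS2]
          exact ext_new (by simp) h6 h7
      · obtain ⟨j, hj, h5⟩ := ksum v' (by omega) (by push_cast; omega) (by push_cast at hv2 ⊢; omega)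
        refine ⟨j, by omega, ?_⟩
        have h6 := sm_em (A := A) (B := B) (kch j hj) h5
        have h7 : ∀ S : List ℤ, Sm (S ++ (M j).map (em A B)) (v' + (A + B)) := fun S =>
          Pool.Agent.Y790.LG.Sm.inFx h6 (List.suffix_append S _).isInfix
        rcases hcase j (by omega) with h | h | h
        · rw [hS1 j h]
          exact h7 _
        · rw [h] at h7 ⊢
          rw [hS2]
          exact h7 _
        · rw [h] at h7 ⊢
          rw [hS3]
          exact h7 []

end Pool.Agent.Y790.TR
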