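import Pool.Agent.Y790.TR.Def

/-!
# Trees with long threads: the canonical state after an event (job TR-GATHER)
-/

set_option autoImplicit false

namespace Pool.Agent.Y790.TR

open Pool.Agent.Y790.LG (Od Sm rt cst hd Lg Kst prd)

theorem gather (ho : OutSegStm) (hoc : OutCongrStm) (hr : RelStm) (hn : ConnStm) : GatherStm := by
  intro n V P A B c b s p hs1 hs2 hs3 hs4 hs5 hp hP hO
  have hs2' : ∀ i, ∃ j, i ≤ 2 * n + 2 → (j ≤ 2 * n + 2 ∧ s j = i) := by
    intro i
    by_cases h : i ≤ 2 * n + 2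
    · obtain ⟨j, h1, h2⟩ := hs2 i h
      exact ⟨j, fun _ => ⟨h1, h2⟩⟩
    · exact ⟨0, fun h' => absurd h' h⟩
  choose π hπ using hs2'
  have hinj : ∀ j ≤ 2 * n + 2, ∀ k ≤ 2 * n + 2, s j = s k → j = k := by
    have h : Set.InjOn s (Finset.range (2 * n + 3) : Finset ℕ) := by
      apply Finset.injOn_of_surjOn_of_card_le s (s := Finset.range (2 * n + 3))
        (t := Finset.range (2 * n + 3))
      · intro j hj
        rw [Finset.coe_range, Set.mem_Iio] at hj ⊢
        have := hs1 j (by omega)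
        omega
      · intro i hi
        rw [Finset.coe_range, Set.mem_Iio] at hi
        obtain ⟨h1, h2⟩ := hπ i (by omega)
        refine ⟨π i, ?_, h2⟩
        rw [Finset.coe_range, Set.mem_Iio]
        omega
      · exact le_rfl
    intro j hj k hk hjk
    exact h (by rw [Finset.coe_range, Set.mem_Iio]; omega)
      (by rw [Finset.coe_range, Set.mem_Iio]; omega) hjk
  have hπs : ∀ j ≤ 2 * n + 2, π (s j) = j := by
    intro j hj
    obtain ⟨h1, h2⟩ := hπ (s j) (hs1 j hj)
    exact hinj _ h1 _ hj h2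
  have h1 := hr (n + 1) A B _ _ b π (fun j hj => (hπ j (by omega)).1)
    (fun t ht => ⟨s t, hs1 t (by omega), hπs t (by omega)⟩) hO
  have h2 := hoc (n + 1) A B _ (Lg (n + 1) (fun i => p (π i))) _ (fun i => cN n V c (π i)) b b
    (fun j hj => by
      show hd (2 * n + 3) (s (π j)) (p (π j)) = hd (2 * (n + 1) + 1) j (p (π j))
      rw [(hπ j (by omega)).2]
      rfl) (fun _ _ => rfl) (fun _ _ => rfl) h1
  have hPe : P % 2 = 0 := by
    rw [← hP]
    have : 2 ∣ ∑ j ∈ Finset.range (2 * n + 3), p j := Finset.dvd_sum fun j hj => by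
      rw [Finset.mem_range] at hj
      exact Nat.dvd_of_mod_eq_zero (hp j (by omega))
    exact Nat.mod_eq_zero_of_dvd this
  have hsum : ∑ j ∈ Finset.range (2 * n + 3), p (π j) = ∑ j ∈ Finset.range (2 * n + 3), p j := by
    apply Finset.sum_nbij' π s
    · intro j hj
      rw [Finset.mem_range] at hj ⊢
      have := (hπ j (by omega)).1
      omega
    · intro j hj
      rw [Finset.mem_range] at hj ⊢
      have := hs1 j (by omega)
      omega
    · intro j hj
      rw [Finset.mem_range] at hj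
      exact (hπ j (by omega)).2
    · intro j hj
      rw [Finset.mem_range] at hj
      exact hπs j (by omega)
    · intro j _
      rfl
  obtain ⟨N, h3⟩ := hn (n + 1) (fun i => p (π i)) (fun i => if i = 0 then P else 0) (by omega)
    (fun j hj => hp _ (hπ j (by omega)).1) (fun j _ => by
      show (if j = 0 then P else 0) % 2 = 0
      split_ifs
      · exact hPe
      · rfl)
    (by
      show ∑ j ∈ Finset.range (2 * n + 3), p (π j) =
        ∑ j ∈ Finset.range (2 * n + 3), if j = 0 then P else 0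
      rw [hsum, hP, Finset.sum_ite_eq', if_pos (Finset.mem_range.2 (by omega))])
  obtain ⟨A', B', h4, -⟩ := ho (n + 1) A B _ _ _ b _ _ rfl h2 h3
  refine ⟨A', B', fun i => cN n V c (π i), h4, ?_⟩
  -- the pairs
  have hpair : ∀ j ≤ 2 * n + 2, ∀ k ≤ 2 * n + 2, j ≠ k → j ≠ 2 * n → k ≠ 2 * n →
      s j / 2 = s k / 2 → ∃ m' ≤ n, (π (2 * m') = j ∧ π (2 * m' + 1) = k) ∨
        (π (2 * m') = k ∧ π (2 * m' + 1) = j) := by
    intro j hj k hk hjk hj2 hk2 h
    have a1 := hs1 j hj
    have a2 := hs1 k hk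
    have a3 : s j ≠ s k := fun h => hjk (hinj j hj k hk h)
    have a4 : s j ≠ 2 * n + 2 := fun h => hj2 (hinj j hj _ (by omega) (h.trans hs3.symm))
    have a5 : s k ≠ 2 * n + 2 := fun h => hk2 (hinj k hk _ (by omega) (h.trans hs3.symm))
    refine ⟨s j / 2, by omega, ?_⟩
    rcases Nat.mod_two_eq_zero_or_one (s j) with h0 | h0
    · left
      have b1 : 2 * (s j / 2) = s j := by omega
      have b2 : 2 * (s j / 2) + 1 = s k := by omega
      rw [b1] at b2 ⊢
      rw [b2, hπs j hj, hπs k hk]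
      exact ⟨rfl, rfl⟩
    · right
      have b1 : 2 * (s j / 2) = s k := by omega
      have b2 : 2 * (s j / 2) + 1 = s j := by omega
      rw [b2, b1, hπs j hj, hπs k hk]
      exact ⟨rfl, rfl⟩
  have hc1 : ∀ j, j ≤ 2 * n → cN n V c j = c j := by
    intro j hj
    unfold cN
    rw [if_neg (by omega), if_neg (by omega)]
  have hc2 : cN n V c (2 * n + 1) = V := by
    unfold cN
    rw [if_neg (by omega), if_pos rfl]
  have hc3 : cN n V c (2 * n + 2) = n + 1 := by
    unfold cN
    rw [if_pos rfl]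
  refine ⟨?_, ?_, ?_⟩
  · show cN n V c (π (2 * n + 2)) = c (2 * n)
    rw [← hs3, hπs _ (by omega), hc1 _ le_rfl]
  · intro m hm
    obtain ⟨m', hm', h⟩ := hpair (2 * m) (by omega) (2 * m + 1) (by omega) (by omega) (by omega)
      (by omega) (hs4 m hm)
    refine ⟨m', hm', ?_⟩
    rcases h with ⟨e1, e2⟩ | ⟨e1, e2⟩
    · left
      refine ⟨?_, ?_⟩
      · show cN n V c (π (2 * m')) = _
        rw [e1, hc1 _ (by omega)]
      · show cN n V c (π (2 * m' + 1)) = _
        rw [e2, hc1 _ (by omega)]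
    · right
      refine ⟨?_, ?_⟩
      · show cN n V c (π (2 * m')) = _
        rw [e1, hc1 _ (by omega)]
      · show cN n V c (π (2 * m' + 1)) = _
        rw [e2, hc1 _ (by omega)]
  · obtain ⟨m', hm', h⟩ := hpair (2 * n + 1) (by omega) (2 * n + 2) (by omega) (by omega) (by omega)
      (by omega) hs5
    refine ⟨m', hm', ?_⟩
    rcases h with ⟨e1, e2⟩ | ⟨e1, e2⟩
    · left
      refine ⟨?_, ?_⟩
      · show cN n V c (π (2 * m')) = _
        rw [e1, hc2]
      · show cN n V c (π (2 * m' + 1)) = _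
        rw [e2, hc3]
    · right
      refine ⟨?_, ?_⟩
      · show cN n V c (π (2 * m')) = _
        rw [e1, hc3]
      · show cN n V c (π (2 * m' + 1)) = _
        rw [e2, hc2]

end Pool.Agent.Y790.TR
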