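import Pool.Agent.Y790.TR.Def

/-!
# Trees with long threads: from the canonical state to a rotated state (by helper297)
-/

set_option autoImplicit false

namespace Pool.Agent.Y790.TR

open Pool.Agent.Y790.LG (Od Sm rt cst hd Lg Kst prd Cls ClsStm Lags)

namespace GoAux

/-- the crossing sums -/
theorem key (n : ℕ) (p : ℕ → ℕ) (j : ℕ) :
    Lg n p j + ((j : ℕ) + p j * (2 * n + 1)) = 2 * (j : ℤ) - (2 * n + 1) := by
  unfold Lg hd
  push_cast
  ring

/-- the number of vertices -/
theorem sum_cst (w t : ℕ) : ∀ q : ℕ, ∑ s ∈ Finset.range q, cst w t s = q * w + min t q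
  | 0 => by simp
  | q + 1 => by
    rw [Finset.sum_range_succ, sum_cst w t q]
    have h : (q + 1) * w = q * w + w := by ring
    unfold cst
    split_ifs with h1 <;> omega

theorem even_sum (p : ℕ → ℕ) : ∀ q : ℕ, (∀ j < q, p j % 2 = 0) →
    (∑ j ∈ Finset.range q, p j) % 2 = 0
  | 0 => fun _ => by simp
  | q + 1 => fun h => by
    rw [Finset.sum_range_succ]
    have h1 := even_sum p q fun j hj => h j (by omega)
    have h2 := h q (by omega)
    omega

/-- rotation -/
theorem rotate (hf : FwdStm) (n : ℕ) (p : ℕ → ℕ) (w r : ℕ) (hr : r ≤ 2 * n)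
    (hp : ∀ j ≤ 2 * n, p j % 2 = 0) (hw : ∀ j ≤ 2 * n, 2 * p j + 2 ≤ w) :
    Seg n (Lg n p) (fun j => cst w r j) (fun j => hd (2 * n + 1) (rt (2 * n + 1) r j) (p j)) := by
  refine hf n (Lg n p) (fun j => j) p w r (by omega) (fun j hj => hj) (fun s hs => ⟨s, hs, rfl⟩)
    (fun j _ => ?_) (fun k hk0 hk1 => ⟨k.toNat, by omega, ?_⟩) (fun j hj => ?_)
    (fun j hj _ => hp j hj)
  · have h := key n p j
    show Od (Lg n p j) ((j : ℕ) + p j * (2 * n + 1))
    unfold Od
    omega
  · have h := key n p k.toNat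
    rw [Int.toNat_of_nonneg hk0] at h
    have e : ((k.toNat : ℕ) : ℤ) = k := Int.toNat_of_nonneg hk0
    show Lg n p k.toNat + ((k.toNat : ℕ) + p k.toNat * (2 * n + 1)) = _
    rw [e]
    exact h
  · have h := hw j hj
    show 2 * p j + 2 ≤ cst w r j
    unfold cst
    split_ifs <;> omega

end GoAux

open GoAux in
/-- **from the canonical state to the rotated state with a given number of vertices** -/
theorem go (_hc : SegCongrStm) (ht : SegTransStm) (hf : FwdStm) (hn : ConnStm) : GoStm := by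
  intro n P p r hn1 hp hP hr
  have hPe : P % 2 = 0 := by
    rw [← hP]
    exact even_sum p (2 * n + 1) fun j hj => hp j (by omega)
  have hle : ∀ j ≤ 2 * n, p j ≤ P := by
    intro j hj
    rw [← hP]
    exact Finset.single_le_sum (f := p) (fun _ _ => Nat.zero_le _)
      (Finset.mem_range.2 (by omega))
  have hsum0 : ∑ j ∈ Finset.range (2 * n + 1), (if j = 0 then P else 0) = P := by
    rw [Finset.sum_ite_eq' (Finset.range (2 * n + 1)) 0 (fun _ => P),
      if_pos (Finset.mem_range.2 (by omega))]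
  obtain ⟨N, hN⟩ := hn n (fun i => if i = 0 then P else 0) p hn1
    (fun j _ => by
      show (if j = 0 then P else 0) % 2 = 0
      split_ifs <;> omega) hp (hsum0.trans hP.symm)
  refine ⟨(2 * n + 1) * (N + 2 * P + 2), fun W hW hWr => ?_⟩
  have hdiv : N + 2 * P + 2 ≤ W / (2 * n + 1) := by
    rw [Nat.le_div_iff_mul_le (by omega), mul_comm]
    exact hW
  obtain ⟨w, hw⟩ : ∃ w, W / (2 * n + 1) = N + w := ⟨W / (2 * n + 1) - N, by omega⟩
  have hrot := rotate hf n p w r hr hp fun j hj => by
    have := hle j hj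
    omega
  refine ⟨fun j => N + cst w r j, ?_, ht n _ _ _ _ _ hN hrot⟩
  rw [Finset.sum_add_distrib, sum_cst w r, Finset.sum_const, Finset.card_range, smul_eq_mul]
  have h1 := Nat.div_add_mod W (2 * n + 1)
  rw [hw, hWr, mul_add] at h1
  omega

end Pool.Agent.Y790.TR
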