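import Pool.Agent.Y790.TR.Def

/-!
# Trees with long threads: induction over the nodes
-/

set_option autoImplicit false

namespace Pool.Agent.Y790.TR

open Pool.Agent.Y790.LG (Kst)

lemma grow_sq_mod {M : ℕ} (hM : M % 2 = 1) : (M * M) % 8 = 1 := by
  have h : M % 8 = 1 ∨ M % 8 = 3 ∨ M % 8 = 5 ∨ M % 8 = 7 := by omega
  rw [Nat.mul_mod]
  rcases h with h | h | h | h <;> rw [h]

lemma grow_mod8 {M K : ℕ} (hM : M % 2 = 1) (hK : K % (8 * M) = M * M % (8 * M)) : K % 8 = 1 := by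
  have h : K ≡ M * M [MOD 8 * M] := hK
  have h1 : K ≡ M * M [MOD 8] := h.of_mul_right M
  have h2 : K % 8 = M * M % 8 := h1
  rw [h2, grow_sq_mod hM]

lemma grow_dvd {M K : ℕ} (hK : K % (8 * M) = M * M % (8 * M)) : M ∣ K := by
  have h : K ≡ M * M [MOD 8 * M] := hK
  have h1 : K ≡ M * M [MOD M] := h.of_mul_left 8
  have h2 : M * M ≡ 0 [MOD M] := (Nat.modEq_zero_iff_dvd).2 (Dvd.intro M rfl)
  exact (Nat.modEq_zero_iff_dvd).1 (h1.trans h2)

theorem grow (hb : BaseStm) (h0 : OpenStm 0) (h1 : OpenStm 1) : GrowStm := by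
  intro N M hM2 hdvd hM17 n hn
  induction n, hn using Nat.le_induction with
  | base =>
    intro hN up sd hup hsd hsd0
    refine ⟨M * M, ?_⟩
    intro K hK hKm
    have h8 := grow_mod8 hM2 hKm
    have hMK := grow_dvd hKm
    have h3 : 3 ∣ K := (hdvd 1 hN).trans hMK
    have hM1 : 17 ≤ M := by
      refine le_trans ?_ hM17
      have : 1 ≤ (2 * N + 1) ^ 3 := Nat.one_le_pow _ _ (by omega)
      omega
    have hK9 : 9 ≤ K := by
      refine le_trans ?_ hK
      nlinarith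
    have hP : PK K 1 % 2 = 0 := by
      unfold PK
      have e1 : (2 * 1 + 1) ^ 2 = 9 := by norm_num
      have e2 : 4 * (2 * 1 + 1) = 12 := by norm_num
      rw [e1, e2]
      omega
    have hs : (sd 1 + sd 0) % 2 = 0 ∨ (sd 1 + sd 0) % 2 = 1 := by omega
    obtain ⟨A, B, c, b, hOut, hb0, hb1, hc2, hc⟩ := hb (PK K 1) hP _ hs
    refine ⟨A, B, c, b, hOut, ?_, hc2, ?_⟩
    · intro i hi
      have hsd1 := hsd 1 le_rfl
      have h01 : i = 0 ∨ i = 1 := by omega
      rcases h01 with rfl | rfl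
      · rw [hb0, hsd0]
      · rcases hsd1 with h | h
        · rw [h] at hb1 ⊢
          rw [hsd0] at hb1
          omega
        · rw [h] at hb1 ⊢
          rw [hsd0] at hb1
          omega
    · intro i hi1 hi2
      have hi : i = 1 := by omega
      subst hi
      have hup1 : up 1 = 0 := by
        have := hup 1 le_rfl le_rfl
        omega
      refine ⟨0, one_pos, ?_⟩
      rw [hup1]
      rcases hc with ⟨h2, h3⟩ | ⟨h2, h3⟩
      · exact Or.inr ⟨h2, h3⟩
      · exact Or.inl ⟨h2, h3⟩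
  | succ n hn ih =>
    intro hN up sd hup hsd hsd0
    obtain ⟨K₁, hK₁⟩ := ih (by omega) up sd (fun i h1 h2 => hup i h1 (by omega))
      (fun i hi => hsd i (by omega)) hsd0
    have hM0 : 0 < M := by omega
    have hK0m : (M * M + 8 * M * K₁) % (8 * M) = M * M % (8 * M) := Nat.add_mul_mod_self_left _ _ _
    obtain ⟨A, B, c, b, hOut, hbs, hc, hPr⟩ := hK₁ (M * M + 8 * M * K₁)
      (by nlinarith) hK0m
    have hV : up (n + 1) ≤ n := by
      have := hup (n + 1) (by omega) le_rfl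
      omega
    have hbig : 17 * (2 * n + 3) ^ 3 ≤ M * M + 8 * M * K₁ := by
      have e1 : (2 * n + 3) ^ 3 ≤ (2 * N + 1) ^ 3 := Nat.pow_le_pow_left (by omega) 3
      have e2 : M ≤ M * M := Nat.le_mul_of_pos_left M hM0
      calc 17 * (2 * n + 3) ^ 3 ≤ 17 * (2 * N + 1) ^ 3 := Nat.mul_le_mul_left _ e1
        _ ≤ M := hM17
        _ ≤ M * M + 8 * M * K₁ := by omega
    have key : ∃ K₂ : ℕ, ∀ K' ≥ K₂, K' % (8 * M) = (M * M + 8 * M * K₁) % (8 * M) →
        ∃ (A' B' : ℤ) (c' : ℕ → ℕ) (b' : ℕ → ℤ),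
        Out (n + 1) A' B' (Kst (n + 1) (PK K' (n + 1)) 0) c' b' ∧ (∀ i ≤ n, b' i = b i) ∧
        (b' (n + 1) + b (up (n + 1))) % 2 = (sd (n + 1) + sd (up (n + 1))) % 2 ∧
        Prs n (up (n + 1)) c c' := by
      have hs : (sd (n + 1) + sd (up (n + 1))) % 2 = 0 ∨ (sd (n + 1) + sd (up (n + 1))) % 2 = 1 := by
        omega
      rcases hs with hs | hs
      · rw [hs]
        exact h0 n M _ A B c b (up (n + 1)) hn hM2 (hdvd n (by omega)) (hdvd (n + 1) hN)
          (grow_dvd hK0m) (grow_mod8 hM2 hK0m) hbig hV hOut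
      · rw [hs]
        exact h1 n M _ A B c b (up (n + 1)) hn hM2 (hdvd n (by omega)) (hdvd (n + 1) hN)
          (grow_dvd hK0m) (grow_mod8 hM2 hK0m) hbig hV hOut
    obtain ⟨K₂, hK₂⟩ := key
    refine ⟨K₂, ?_⟩
    intro K hK hKm
    obtain ⟨A', B', c', b', hOut', hb', hbV, hc2, hpr, hlast⟩ := hK₂ K hK (hKm.trans hK0m.symm)
    refine ⟨A', B', c', b', hOut', ?_, ?_, ?_⟩
    · intro i hi
      rcases Nat.lt_or_ge n i with h | h
      · have hi' : i = n + 1 := by omega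
        subst hi'
        have e1 := hbs (up (n + 1)) hV
        have e2 := hsd (n + 1) le_rfl
        have e3 := hsd (up (n + 1)) (by omega)
        rcases e2 with e2 | e2 <;> rcases e3 with e3 | e3 <;> rw [e2, e3] at hbV <;>
          rw [e3] at e1 <;> rw [e2] <;> omega
      · rw [hb' i h]
        exact hbs i h
    · have e : 2 * (n + 1) = 2 * n + 2 := by ring
      rw [e, hc2, hc]
    · intro i hi1 hi2
      rcases Nat.lt_or_ge n i with h | h
      · have hi' : i = n + 1 := by omega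
        subst hi'
        obtain ⟨m', hm', h5⟩ := hlast
        refine ⟨m', by omega, ?_⟩
        rcases h5 with ⟨h6, h7⟩ | ⟨h6, h7⟩
        · exact Or.inr ⟨h6, h7⟩
        · exact Or.inl ⟨h6, h7⟩
      · obtain ⟨m, hm, h5⟩ := hPr i hi1 h
        obtain ⟨m', hm', h6⟩ := hpr m hm
        refine ⟨m', by omega, ?_⟩
        rcases h5 with ⟨h7, h8⟩ | ⟨h7, h8⟩ <;> rcases h6 with ⟨h9, h10⟩ | ⟨h9, h10⟩
        · exact Or.inl ⟨h9.trans h7, h10.trans h8⟩
        · exact Or.inr ⟨h9.trans h8, h10.trans h7⟩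
        · exact Or.inr ⟨h9.trans h7, h10.trans h8⟩
        · exact Or.inl ⟨h9.trans h8, h10.trans h7⟩

end Pool.Agent.Y790.TR
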