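import Pool.Agent.Y790.TR.Def
import Pool.Agent.Y790.LG.Mov

/-!
# Trees with long threads: waiting and moving two units of lag
-/

set_option autoImplicit false

namespace Pool.Agent.Y790.TR

open Pool.Agent.Y790.LG (Od Sm rt cst hd Lg Kst prd Cls ClsStm Lags od_of ad rt_lt rt_rt rt_rt' p1 p2
  cross cross_surj ad_le ad_surj rt_surj prd_ne_mov p1_cases p2_cases crossB crossC p1_le p2_le
  p2_even rt_zero)

/-- only the values at the indices `≤ 2 n` matter -/
theorem Seg.congr_mov {n : ℕ} {x x' y y' : ℕ → ℤ} {c c' : ℕ → ℕ} (hx : ∀ i ≤ 2 * n, x i = x' i)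
    (hc : ∀ i ≤ 2 * n, c i = c' i) (hy : ∀ i ≤ 2 * n, y i = y' i) (h : Seg n x c y) :
    Seg n x' c' y' := by
  obtain ⟨L, W₀, h0, h1, h2, h3, h4, h5, h6⟩ := h
  refine ⟨L, W₀, ?_, fun j hj => ?_, fun j hj => ?_, h3, fun j hj => ?_, h5, ?_⟩
  · rw [h0]
    refine Finset.sum_congr rfl fun j hj => ?_
    rw [hc j (by rw [Finset.mem_range] at hj; omega)]
  · rw [← hc j hj]; exact h1 j hj
  · rw [← hy j hj]; exact h2 j hj
  · rw [← hx j hj]; exact h4 j hj
  · intro v hv1 hv2 hv3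
    obtain ⟨j, hj, h7⟩ := h6 v hv1 hv2 hv3
    exact ⟨j, hj, by rw [← hx j hj]; exact h7⟩

/-- waiting -/
theorem wait (h : FwdStm) : WaitStm := by
  intro n p w hw hp
  have key : ∀ j : ℕ, Lg n p j + ((j : ℕ) + p j * (2 * n + 1)) = 2 * (j : ℤ) - (2 * n + 1) := by
    intro j
    unfold Lg hd
    push_cast
    ring
  have h1 := h n (Lg n p) (fun j => j) p w 0 (by omega) (fun j hj => hj) (fun s hs => ⟨s, hs, rfl⟩)
    (fun j _ => od_of (key j))
    (fun k hk0 hk1 => ⟨k.toNat, by omega, by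
      have := key k.toNat
      rw [Int.toNat_of_nonneg hk0] at this
      have e : ((k.toNat : ℕ) : ℤ) = k := Int.toNat_of_nonneg hk0
      show Lg n p k.toNat + ((k.toNat : ℕ) + p k.toNat * (2 * n + 1)) = _
      rw [e]
      exact this⟩)
    (fun j hj => by unfold cst; rw [if_neg (by omega)]; exact hw j hj)
    (fun j hj _ => hp j hj)
  refine Seg.congr_mov (fun _ _ => rfl) (fun i _ => ?_) (fun i _ => ?_) h1
  · unfold cst; rw [if_neg (by omega)]
  · unfold Lg rt
    rw [if_neg (by omega)]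
    rfl

/-- the first step -/
theorem stepA (h : FwdStm) (n : ℕ) (p : ℕ → ℕ) (κ B : ℕ) (hκ : κ ≤ 2 * n)
    (hp : ∀ j ≤ 2 * n, p j % 2 = 0) (hB : ∀ j ≤ 2 * n, p j + 2 ≤ B) :
    Seg n (Lg n p) (fun j => cst (2 * B + 2) (κ + 1) j)
      (fun j => hd (2 * n + 1) (rt (2 * n + 1) (κ + 1) j) (p j)) := by
  have key : ∀ j : ℕ, Lg n p j + ((j : ℕ) + p j * (2 * n + 1)) = 2 * (j : ℤ) - (2 * n + 1) := by
    intro j
    unfold Lg hd
    push_cast
    ring
  exact h n (Lg n p) (fun j => j) p (2 * B + 2) (κ + 1) (by omega) (fun j hj => hj)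
    (fun s hs => ⟨s, hs, rfl⟩)
    (fun j _ => od_of (key j))
    (fun k hk0 hk1 => ⟨k.toNat, by omega, by
      have := key k.toNat
      rw [Int.toNat_of_nonneg hk0] at this
      have e : ((k.toNat : ℕ) : ℤ) = k := Int.toNat_of_nonneg hk0
      show Lg n p k.toNat + ((k.toNat : ℕ) + p k.toNat * (2 * n + 1)) = _
      rw [e]
      exact this⟩)
    (fun j hj => by
      have := hB j hj
      unfold cst
      split_ifs <;> omega)
    (fun j hj _ => hp j hj)

/-- two units of lag are moved to the predecessor -/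
theorem mov0 (h : FwdStm) (hc : SegCongrStm) (ht : SegTransStm) : Mov0Stm := by
  intro n p κ B hn hκ hk2 hp hB
  have hA := stepA h n p κ B hκ hp hB
  have hBs := h n (fun j => hd (2 * n + 1) (rt (2 * n + 1) (κ + 1) j) (p j))
    (fun j => ad (2 * n + 1) (rt (2 * n + 1) (κ + 1) j)) (p1 n κ p) (2 * B + 2) 0 (by omega)
    (fun j hj => ad_le hn (rt_lt (by omega) (by omega)))
    (fun s hs => ad_surj hn hκ hs)
    (fun j hj => od_of (crossB hn hκ (p1_cases hk2) j hj))
    (fun k hk0 hk1 => by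
      obtain ⟨j, hj, hj'⟩ := cross_surj hκ k hk0 hk1
      exact ⟨j, hj, by rw [← hj']; exact crossB hn hκ (p1_cases hk2) j hj⟩)
    (fun j hj => by
      have := p1_le (n := n) (κ := κ) (hB j hj)
      unfold cst; split_ifs <;> omega)
    (fun j hj hodd => by
      exfalso
      unfold cst at hodd
      rw [if_neg (by omega)] at hodd
      omega)
  have hCs := h n (fun j => hd (2 * n + 1) (rt (2 * n + 1) 0 (ad (2 * n + 1) (rt (2 * n + 1) (κ + 1) j)))
      (p1 n κ p j))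
    (fun j => rt (2 * n + 1) (κ + 1) j) (p2 n κ p) (2 * B + 2) (2 * n + 1 - (κ + 1)) (by omega)
    (fun j hj => by
      have := rt_lt (q := 2 * n + 1) (t := κ + 1) (s := j) (by omega) (by omega)
      omega)
    (fun s hs => rt_surj hκ hs)
    (fun j hj => by
      refine od_of (n := n) (k := (((rt (2 * n + 1) (κ + 1) j + 1) % (2 * n + 1) : ℕ) : ℤ)) ?_
      rw [rt_zero]
      exact crossC hn hκ (p2_cases hk2) j hj)
    (fun k hk0 hk1 => by
      obtain ⟨j, hj, hj'⟩ := cross_surj hκ k hk0 hk1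
      exact ⟨j, hj, by rw [← hj', rt_zero]; exact crossC hn hκ (p2_cases hk2) j hj⟩)
    (fun j hj => by
      have := p2_le (n := n) (κ := κ) (hB j hj)
      unfold cst; split_ifs <;> omega)
    (fun j hj _ => p2_even (hp j hj))
  refine hc _ _ _ _ _ _ _ (fun _ _ => rfl) (fun i hi => ?_) (fun i hi => ?_)
    (ht _ _ _ _ _ _ (ht _ _ _ _ _ _ hA hBs) hCs)
  · show cst (2 * B + 2) (κ + 1) i + cst (2 * B + 2) 0 (ad (2 * n + 1) (rt (2 * n + 1) (κ + 1) i)) +
      cst (2 * B + 2) (2 * n + 1 - (κ + 1)) (rt (2 * n + 1) (κ + 1) i) = 6 * B + 7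
    unfold cst rt
    split_ifs <;> omega
  · show hd (2 * n + 1) (rt (2 * n + 1) (2 * n + 1 - (κ + 1)) (rt (2 * n + 1) (κ + 1) i)) (p2 n κ p i) = _
    rw [rt_rt (by omega) (by omega)]
    rfl

end Pool.Agent.Y790.TR
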