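import Pool.Agent.Y790.TR.Def

/-!
# Trees with long threads: a new node on the same side (helper497)
-/

set_option autoImplicit false

namespace Pool.Agent.Y790.TR

open Pool.Agent.Y790.LG (Od Sm rt cst hd Lg Kst prd Cls ClsStm Lags)

/-! ### arithmetic -/

theorem sq_mod8 (n : ℕ) : (2 * n + 1) * (2 * n + 1) % 8 = 1 := by
  obtain ⟨m, hm⟩ := Nat.even_mul_succ_self n
  have : (2 * n + 1) * (2 * n + 1) = 4 * (n * (n + 1)) + 1 := by ring
  rw [this, hm]
  omega

theorem PK_fact (n K : ℕ) (hq : 2 * n + 1 ∣ K) (h8 : K % 8 = 1)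
    (hle : (2 * n + 1) ^ 2 ≤ K) :
    4 * (2 * n + 1) * PK K n + (2 * n + 1) ^ 2 = K ∧ PK K n % 2 = 0 := by
  obtain ⟨k, hk⟩ := hq
  have hq0 : 0 < 2 * n + 1 := by omega
  have h1 : 8 ∣ K - (2 * n + 1) ^ 2 := by
    refine (Nat.modEq_iff_dvd' hle).1 ?_
    unfold Nat.ModEq
    rw [h8, sq, sq_mod8]
  have h2 : K - (2 * n + 1) ^ 2 = (2 * n + 1) * (k - (2 * n + 1)) := by
    rw [hk, sq, Nat.mul_sub]
  have hc : Nat.Coprime 8 (2 * n + 1) := by
    have : Nat.Coprime 2 (2 * n + 1) := by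
      rw [Nat.coprime_two_left]
      exact ⟨n, rfl⟩
    exact this.pow_left 3
  rw [h2] at h1
  obtain ⟨m, hm⟩ := hc.dvd_of_dvd_mul_left h1
  have h3 : K - (2 * n + 1) ^ 2 = 4 * (2 * n + 1) * (2 * m) := by
    rw [h2, hm]
    ring
  have h4 : PK K n = 2 * m := by
    unfold PK
    rw [h3]
    exact Nat.mul_div_cancel_left _ (by positivity)
  rw [h4]
  constructor
  · omega
  · omega

theorem sum_id (n : ℕ) : ∑ j ∈ Finset.range (2 * n + 1), (j : ℤ) = n * (2 * n + 1) := by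
  induction n with
  | zero => simp
  | succ n ih =>
    rw [show 2 * (n + 1) + 1 = 2 * n + 1 + 1 + 1 by ring, Finset.sum_range_succ,
      Finset.sum_range_succ, ih]
    push_cast
    ring

/-- the inverse of `rt` -/
def ri (q t i : ℕ) : ℕ := if i + t < q then i + t else i + t - q

theorem rt_ltR {q t s : ℕ} (hs : s < q) (ht : t ≤ q) : rt q t s < q := by
  unfold rt
  split_ifs <;> omega

theorem rt_ri {q t i : ℕ} (hi : i < q) (ht : t ≤ q) : ri q t i < q ∧ rt q t (ri q t i) = i := by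
  unfold ri rt
  split_ifs <;> omega

theorem ri_rt {q t s : ℕ} (hs : s < q) (ht : t ≤ q) : ri q t (rt q t s) = s := by
  unfold ri rt
  split_ifs <;> omega

theorem sum_rt {q t : ℕ} (ht : t ≤ q) :
    ∑ j ∈ Finset.range q, (rt q t j : ℤ) = ∑ j ∈ Finset.range q, (j : ℤ) := by
  refine Finset.sum_nbij' (rt q t) (ri q t) ?_ ?_ ?_ ?_ ?_
  · intro j hj
    rw [Finset.mem_range] at *
    exact rt_ltR hj ht
  · intro j hj
    rw [Finset.mem_range] at *
    exact (rt_ri hj ht).1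
  · intro j hj
    rw [Finset.mem_range] at hj
    exact ri_rt hj ht
  · intro j hj
    rw [Finset.mem_range] at hj
    exact (rt_ri hj ht).2
  · intro j _
    rfl

theorem sum_surj (N : ℕ) (a : ℕ → ℕ) (h1 : ∀ j ≤ N, a j ≤ N) (h2 : ∀ s ≤ N, ∃ j ≤ N, a j = s) :
    ∑ j ∈ Finset.range (N + 1), (a j : ℤ) = ∑ j ∈ Finset.range (N + 1), (j : ℤ) := by
  have him : (Finset.range (N + 1)).image a = Finset.range (N + 1) := by
    ext s
    rw [Finset.mem_image, Finset.mem_range]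
    constructor
    · rintro ⟨j, hj, rfl⟩
      rw [Finset.mem_range] at hj
      have := h1 j (by omega)
      omega
    · intro hs
      obtain ⟨j, hj, hj2⟩ := h2 s (by omega)
      exact ⟨j, Finset.mem_range.2 (by omega), hj2⟩
  have hinj : Set.InjOn a (Finset.range (N + 1) : Set ℕ) := by
    rw [← Finset.card_image_iff, him]
  calc ∑ j ∈ Finset.range (N + 1), (a j : ℤ) = ∑ s ∈ (Finset.range (N + 1)).image a, (s : ℤ) :=
        (Finset.sum_image hinj).symm
    _ = _ := by rw [him]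

/-- the sums of the crossing -/
def ii (n j : ℕ) : ℕ := if j < n + 2 then j else j + 1

theorem sum_ii {n : ℕ} (hn : 1 ≤ n) :
    ∑ j ∈ Finset.range (2 * n + 1), (ii n j : ℤ) = 2 * n ^ 2 + 2 * n - 1 := by
  obtain ⟨k, rfl⟩ : ∃ k, n = k + 1 := ⟨n - 1, by omega⟩
  have h1 : ∀ m ≤ k, ∑ j ∈ Finset.range (k + 3 + m), (ii (k + 1) j : ℤ) =
      ∑ j ∈ Finset.range (k + 3 + m), (j : ℤ) + m := by
    intro m hm
    induction m with
    | zero =>
      simp only [Nat.cast_zero, add_zero]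
      refine Finset.sum_congr rfl fun j hj => ?_
      rw [Finset.mem_range] at hj
      unfold ii
      rw [if_pos (by omega)]
    | succ m ih =>
      rw [show k + 3 + (m + 1) = k + 3 + m + 1 by ring, Finset.sum_range_succ,
        Finset.sum_range_succ, ih (by omega)]
      unfold ii
      rw [if_neg (by omega)]
      push_cast
      ring
  have h2 := h1 k le_rfl
  rw [show k + 3 + k = 2 * (k + 1) + 1 by ring, sum_id] at h2
  rw [h2]
  push_cast
  ring

theorem openR (hgo : GoStm) (ho : OutSegStm) (he : EvRStm) (ha : ArrRStm) (hu : TuneStm)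
    (hg : GatherStm) : OpenStm 0 := by
  intro n M K A B c b V hn hM hq hQ hMK hK8 hK hV hout
  have hAB : (A - B) % 2 = 0 := hout.1
  have hqK : 2 * n + 1 ∣ K := hq.trans hMK
  have hQK : 2 * n + 3 ∣ K := hQ.trans hMK
  have hle1 : (2 * n + 1) ^ 2 ≤ K := by nlinarith
  have hle2 : (2 * n + 3) ^ 2 ≤ K := by nlinarith
  obtain ⟨hP, hPe⟩ := PK_fact n K hqK hK8 hle1
  obtain ⟨P, hPdef⟩ : ∃ P, P = PK K n := ⟨_, rfl⟩
  rw [← hPdef] at hP hPe hout
  have hP4 : 4 * (2 * n + 3) * (2 * n + 1) ≤ P := by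
    by_contra hcon
    have h1 : P + 1 ≤ 4 * (2 * n + 3) * (2 * n + 1) := by omega
    have h2 : 4 * (2 * n + 1) * (P + 1) ≤ 4 * (2 * n + 1) * (4 * (2 * n + 3) * (2 * n + 1)) :=
      Nat.mul_le_mul_left _ h1
    nlinarith
  -- the position of the node `V`
  obtain ⟨x0, hx0⟩ : ∃ x0 : ℤ, b V = em A B x0 := by
    by_cases h : (b V - A) % 2 = 0
    · refine ⟨b V - A, ?_⟩
      unfold em
      rw [if_pos h]
      ring
    · refine ⟨b V - B, ?_⟩
      unfold em
      rw [if_neg (by omega)]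
      ring
  obtain ⟨t, ht⟩ : ∃ t : ℕ, (t : ℤ) = (x0 - 2) % (2 * n + 1) :=
    ⟨((x0 - 2) % (2 * n + 1)).toNat, Int.toNat_of_nonneg (Int.emod_nonneg _ (by omega))⟩
  have htn : t ≤ 2 * n := by
    have := Int.emod_lt_of_pos (x0 - 2) (show (0 : ℤ) < 2 * n + 1 by omega)
    omega
  obtain ⟨t', a, ht', ha1, ha2, ha3, ha4, ha5, ha6, ha7, ha8⟩ := ha n t hn htn
  -- tuning of the lags
  obtain ⟨g, hgdef⟩ : ∃ g : ℕ → ℤ, g = fun j => 2 * (ii n j : ℤ) - rt (2 * n + 1) t j - a j :=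
    ⟨_, rfl⟩
  have hg1 : ∀ j ≤ 2 * n, g j % 2 = 0 ∧ -(4 * (n : ℤ) + 6) ≤ g j := by
    intro j hj
    have h1 := ha3 j hj
    have h2 := ha1 j (by omega)
    have h3 := rt_ltR (q := 2 * n + 1) (t := t) (s := j) (by omega) (by omega)
    rw [hgdef]
    constructor
    · simp only
      omega
    · simp only
      omega
  have hgs : ∑ j ∈ Finset.range (2 * n + 1), g j = -(2 * (n : ℤ) + 2) := by
    rw [hgdef]
    simp only
    rw [Finset.sum_sub_distrib, Finset.sum_sub_distrib, ← Finset.mul_sum, sum_ii hn,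
      sum_rt (by omega), sum_id]
    have h1 := sum_surj (2 * n + 2) a ha1 ha2
    rw [show 2 * n + 2 + 1 = 2 * n + 1 + 1 + 1 by ring, Finset.sum_range_succ,
      Finset.sum_range_succ] at h1
    have h2 := sum_id (n + 1)
    rw [show 2 * (n + 1) + 1 = 2 * n + 1 + 1 + 1 by ring] at h2
    rw [h2, show 2 * n + 1 + 1 = 2 * n + 2 by ring, ha4, ha5] at h1
    push_cast at h1
    linear_combination (-1 : ℤ) * h1
  have hPz : 4 * (2 * (n : ℤ) + 1) * P + (2 * n + 1) ^ 2 = K := by exact_mod_cast hP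
  obtain ⟨k3, hk3⟩ := hQK
  have hgd : (∑ j ∈ Finset.range (2 * n + 1), g j + (2 * n + 1) * (P : ℤ)) % (2 * n + 3) = 0 := by
    have h1 : 4 * (∑ j ∈ Finset.range (2 * n + 1), g j + (2 * n + 1) * (P : ℤ)) =
        (2 * n + 3) * (k3 - (2 * n + 3)) := by
      rw [hgs]
      have h2 : (K : ℤ) = (2 * n + 3) * k3 := by exact_mod_cast hk3
      linear_combination hPz + h2
    have h3 : IsCoprime (2 * (n : ℤ) + 3) 4 := by
      have h4 : IsCoprime (2 * (n : ℤ) + 3) 2 := ⟨1, -(n : ℤ) - 1, by ring⟩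
      have h5 : IsCoprime (2 * (n : ℤ) + 3) (2 ^ 2) := h4.pow_right
      norm_num at h5
      exact h5
    have h6 : (2 * (n : ℤ) + 3) ∣ 4 * (∑ j ∈ Finset.range (2 * n + 1), g j + (2 * n + 1) * (P : ℤ)) :=
      ⟨_, h1⟩
    exact Int.emod_eq_zero_of_dvd (h3.dvd_of_dvd_mul_left h6)
  obtain ⟨p, p', hpp, hpP⟩ := hu n P g hPe hP4 hg1 hgd
  obtain ⟨W₁, hW₁⟩ := hgo n P p t hn (fun j hj => (hpp j hj).1) hpP htn
  obtain ⟨M1, hM1⟩ := hQ
  obtain ⟨M2, hM2⟩ := hq
  refine ⟨K + 4 * (W₁ + 2 + x0.natAbs), fun K' hK' hKK' => ?_⟩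
  have hle : K ≤ K' := by omega
  obtain ⟨e, he'⟩ := (Nat.modEq_iff_dvd' hle).1 (show K ≡ K' [MOD 8 * M] from hKK'.symm)
  have hKe : K' = K + 8 * M * e := by omega
  obtain ⟨d, hdd⟩ : ∃ d : ℕ, d = 2 * M * e := ⟨_, rfl⟩
  have hd4 : K' = K + 4 * d := by rw [hKe, hdd]; ring
  have hdW : W₁ + 2 + x0.natAbs ≤ d := by omega
  obtain ⟨W, hW⟩ : ∃ W : ℕ, (W : ℤ) = x0 - 2 + d :=
    ⟨(x0 - 2 + d).toNat, Int.toNat_of_nonneg (by omega)⟩
  have hWW : W₁ ≤ W := by omega
  have hWt : W % (2 * n + 1) = t := by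
    have h1 : (W : ℤ) % (2 * n + 1) = t := by
      rw [ht, hW]
      have h2 : (d : ℤ) = (2 * n + 1) * (2 * M2 * e) := by
        rw [hdd, hM2]
        push_cast
        ring
      rw [h2, Int.add_mul_emod_self_left]
    exact_mod_cast h1
  obtain ⟨C, hC1, hC2⟩ := hW₁ W hWW hWt
  obtain ⟨A1, B1, hout1, hem⟩ := ho n A B (Kst n P 0) _ c b C W
    (by exact_mod_cast hC1.symm) hout hC2
  -- the event
  obtain ⟨pp, hppdef⟩ : ∃ pp : ℕ → ℕ, pp = fun j =>
      if j = 2 * n + 2 then 0 else if j = 2 * n + 1 then 2 * M1 * e else p' j := ⟨_, rfl⟩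
  have pp1 : pp (2 * n + 2) = 0 := by rw [hppdef]; simp
  have pp2 : pp (2 * n + 1) = 2 * M1 * e := by rw [hppdef]; simp
  have pp3 : ∀ j ≤ 2 * n, pp j = p' j := by
    intro j hj
    rw [hppdef]
    simp only
    rw [if_neg (by omega), if_neg (by omega)]
  have ppe : ∀ j ≤ 2 * n + 2, pp j % 2 = 0 := by
    intro j hj
    rcases (show j = 2 * n + 2 ∨ j = 2 * n + 1 ∨ j ≤ 2 * n by omega) with h | h | h
    · rw [h, pp1]
    · rw [h, pp2, mul_assoc]
      exact Nat.mul_mod_right 2 _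
    · rw [pp3 j h]
      exact (hpp j h).2.1
  have hdQ : (d : ℤ) = (2 * M1 * e : ℕ) * (2 * n + 3) := by
    rw [hdd, hM1]
    push_cast
    ring
  have hd2 : (d : ℤ) % 2 = 0 := by
    rw [hdd]
    push_cast
    rw [mul_assoc]
    exact Int.mul_emod_right 2 _
  have hbV : b V = em A1 B1 (2 - d) := by
    rw [hem, hx0]
    congr 1
    rw [hW]
    ring
  have cross : ∀ j ≤ 2 * n, hd (2 * n + 1) (rt (2 * n + 1) t j) (p j) +
      ((a j : ℤ) + (pp j : ℤ) * (2 * n + 3)) = 2 * (ii n j : ℤ) - (2 * n + 1) := by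
    intro j hj
    rw [pp3 j hj]
    have h1 := (hpp j hj).2.2
    rw [hgdef] at h1
    simp only at h1
    unfold Pool.Agent.Y790.LG.hd
    push_cast
    linear_combination h1
  obtain ⟨w, hw⟩ : ∃ w, w = 2 * ∑ j ∈ Finset.range (2 * n + 3), pp j + 2 := ⟨_, rfl⟩
  have hppw : ∀ j ≤ 2 * n + 2, 2 * pp j + 2 ≤ cst w t' (a j) := by
    intro j hj
    have h1 : pp j ≤ ∑ j ∈ Finset.range (2 * n + 3), pp j :=
      Finset.single_le_sum (f := pp) (fun _ _ => Nat.zero_le _) (Finset.mem_range.2 (by omega))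
    have h2 : w ≤ cst w t' (a j) := by
      unfold cst
      split_ifs <;> omega
    omega
  obtain ⟨A2, B2, hout2⟩ := he n A1 B1 _ c b V (2 - d) a pp w t' hout1 hV hbV ht' ha1 ha2
    (by
      intro j hj
      unfold Od
      rw [cross j hj]
      omega)
    (by
      unfold Od
      rw [pp2, ha4, ← hdQ]
      push_cast
      omega)
    (by
      intro k hk0 hk1
      by_cases hk : k = n + 2
      · right
        rw [pp2, ha4, ← hdQ, hk]
        push_cast
        ring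
      · left
        by_cases hk2 : k < n + 2
        · refine ⟨k.toNat, by omega, ?_⟩
          rw [cross _ (by omega)]
          unfold ii
          rw [if_pos (by omega), Int.toNat_of_nonneg hk0]
        · refine ⟨(k - 1).toNat, by omega, ?_⟩
          rw [cross _ (by omega)]
          unfold ii
          rw [if_neg (by omega)]
          push_cast
          rw [Int.toNat_of_nonneg (by omega)]
          ring)
    hppw (fun j hj _ => ppe j hj)
  -- the number of the lags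
  have hK'8 : K' % 8 = 1 := by
    rw [hd4, hdd]
    obtain ⟨z, hz⟩ : ∃ z, z = M * e := ⟨_, rfl⟩
    rw [show 4 * (2 * M * e) = 8 * z by rw [hz]; ring]
    omega
  have hQK' : 2 * (n + 1) + 1 ∣ K' := by
    rw [hKe]
    refine dvd_add ?_ ?_
    · exact ⟨k3, hk3⟩
    · exact ⟨8 * M1 * e, by rw [hM1]; ring⟩
  have hle3 : (2 * (n + 1) + 1) ^ 2 ≤ K' := le_trans hle2 hle
  obtain ⟨hP', hPe'⟩ := PK_fact (n + 1) K' hQK' hK'8 hle3
  have hsum : ∑ j ∈ Finset.range (2 * n + 3), pp j = PK K' (n + 1) := by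
    have h1 : ∑ j ∈ Finset.range (2 * n + 3), (pp j : ℤ) =
        ∑ j ∈ Finset.range (2 * n + 1), (p' j : ℤ) + (2 * M1 * e : ℕ) := by
      rw [show 2 * n + 3 = 2 * n + 1 + 1 + 1 by ring, Finset.sum_range_succ,
        Finset.sum_range_succ, show 2 * n + 1 + 1 = 2 * n + 2 by ring, pp1, pp2]
      rw [Nat.cast_zero, add_zero]
      congr 1
      refine Finset.sum_congr rfl fun j hj => ?_
      rw [Finset.mem_range] at hj
      rw [pp3 j (by omega)]
    have h2 : (2 * (n : ℤ) + 3) * ∑ j ∈ Finset.range (2 * n + 1), (p' j : ℤ) =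
        ∑ j ∈ Finset.range (2 * n + 1), g j + (2 * n + 1) * P := by
      rw [Finset.mul_sum, ← hpP]
      push_cast
      rw [Finset.mul_sum, ← Finset.sum_add_distrib]
      refine Finset.sum_congr rfl fun j hj => ?_
      rw [Finset.mem_range] at hj
      exact (hpp j (by omega)).2.2
    have h3 : 4 * (2 * ((n + 1 : ℕ) : ℤ) + 1) * (PK K' (n + 1) : ℤ) +
        (2 * ((n + 1 : ℕ) : ℤ) + 1) ^ 2 = K' := by exact_mod_cast hP'
    have h4 : (K' : ℤ) = K + 4 * d := by exact_mod_cast hd4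
    have h5 : (4 * (2 * (n : ℤ) + 3)) * ∑ j ∈ Finset.range (2 * n + 3), (pp j : ℤ) =
        (4 * (2 * (n : ℤ) + 3)) * (PK K' (n + 1) : ℤ) := by
      rw [h1]
      rw [hgs] at h2
      push_cast at h3 hdQ ⊢
      linear_combination 4 * h2 + hPz - h3 - h4 - 4 * hdQ
    have h6 : (4 * (2 * (n : ℤ) + 3)) ≠ 0 := by positivity
    have h7 := mul_left_cancel₀ h6 h5
    exact_mod_cast h7
  have hQt : ∀ j ≤ 2 * n + 2, rt (2 * n + 3) t' (a j) ≤ 2 * n + 2 := by
    intro j hj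
    have := rt_ltR (q := 2 * n + 3) (t := t') (s := a j) (by have := ha1 j hj; omega) ht'
    omega
  obtain ⟨A3, B3, c', hout3, hprs⟩ := hg n V (PK K' (n + 1)) A2 B2 c
    (bN n (em A1 B1 (a (2 * n + 2) + pp (2 * n + 2) * (2 * n + 3))) b)
    (fun j => rt (2 * n + 3) t' (a j)) pp hQt
    (by
      intro i hi
      obtain ⟨h1, h2⟩ := rt_ri (q := 2 * n + 3) (t := t') (i := i) (by omega) ht'
      obtain ⟨j, hj, hj2⟩ := ha2 (ri (2 * n + 3) t' i) (by omega)
      exact ⟨j, hj, by rw [hj2, h2]⟩)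
    ha6 ha7 ha8 ppe hsum hout2
  refine ⟨A3, B3, c', _, hout3, ?_, ?_, hprs⟩
  · intro i hi
    unfold bN
    rw [if_neg (by omega)]
  · have h1 : bN n (em A1 B1 (a (2 * n + 2) + pp (2 * n + 2) * (2 * n + 3))) b (n + 1) =
        2 + A1 := by
      unfold bN
      rw [if_pos rfl, pp1, ha5]
      unfold em
      norm_num
    have h2 : b V = 2 - d + A1 := by
      rw [hbV]
      unfold em
      rw [if_pos (by omega)]
    rw [h1, h2]
    omega

end Pool.Agent.Y790.TR
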