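import Pool.Agent.Y790.TR.Def

/-!
# A new node on the other side
-/

set_option autoImplicit false

namespace Pool.Agent.Y790.TR

open Pool.Agent.Y790.LG (Od Sm rt cst hd Lg Kst prd Cls ClsStm Lags)

namespace OW

/-- sums over a permutation -/
lemma sum_perm (N : ℕ) (f : ℕ → ℕ) (h1 : ∀ j ≤ N, f j ≤ N) (h2 : ∀ s ≤ N, ∃ j ≤ N, f j = s)
    (F : ℕ → ℤ) : ∑ j ∈ Finset.range (N + 1), F (f j) = ∑ j ∈ Finset.range (N + 1), F j := by
  have him : (Finset.range (N + 1)).image f = Finset.range (N + 1) := by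
    ext s
    simp only [Finset.mem_image, Finset.mem_range]
    constructor
    · rintro ⟨j, hj, rfl⟩
      have := h1 j (by omega)
      omega
    · intro hs
      obtain ⟨j, hj, hjs⟩ := h2 s (by omega)
      exact ⟨j, by omega, hjs⟩
  have hinj : Set.InjOn f (Finset.range (N + 1) : Set ℕ) := by
    apply Finset.injOn_of_card_image_eq
    rw [him]
  rw [← Finset.sum_image (f := F) hinj, him]

lemma rt_le {q t s : ℕ} (hs : s < q) (ht : t ≤ q) : rt q t s < q := by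
  unfold rt
  split_ifs <;> omega

lemma rt_surj {q t : ℕ} (ht : t ≤ q) (s : ℕ) (hs : s < q) : ∃ j, j < q ∧ rt q t j = s := by
  by_cases h : s + t < q
  · refine ⟨s + t, h, ?_⟩
    unfold rt
    split_ifs <;> omega
  · refine ⟨s + t - q, by omega, ?_⟩
    unfold rt
    split_ifs <;> omega

lemma sum_id (n : ℕ) : ∑ j ∈ Finset.range (2 * n + 1), (j : ℤ) = n * (2 * n + 1) := by
  induction n with
  | zero => simp
  | succ n ih =>
    have e : 2 * (n + 1) + 1 = 2 * n + 1 + 1 + 1 := by ring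
    rw [e, Finset.sum_range_succ, Finset.sum_range_succ, ih]
    push_cast
    ring

lemma sum_odd (n : ℕ) : ∑ j ∈ Finset.range (2 * n + 1), (if j % 2 = 1 then (2 : ℤ) else 0) =
    2 * n := by
  induction n with
  | zero => simp
  | succ n ih =>
    have e : 2 * (n + 1) + 1 = 2 * n + 1 + 1 + 1 := by ring
    rw [e, Finset.sum_range_succ, Finset.sum_range_succ, ih, if_pos (by omega),
      if_neg (by omega)]
    push_cast
    ring

lemma sum_gap (n e : ℕ) (he : e ≤ 1) (hn : 1 ≤ n) :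
    ∑ j ∈ Finset.range (2 * n + 1), (if j < n + 1 + e then (0 : ℤ) else 2) = 2 * (n - e) := by
  obtain ⟨m, hm⟩ : ∃ m, n = m + e := ⟨n - e, by omega⟩
  have e1 : 2 * n + 1 = (n + 1 + e) + m := by omega
  rw [e1, Finset.sum_range_add]
  have h1 : ∑ j ∈ Finset.range (n + 1 + e), (if j < n + 1 + e then (0 : ℤ) else 2) = 0 :=
    Finset.sum_eq_zero fun j hj => if_pos (Finset.mem_range.1 hj)
  have h2 : ∑ j ∈ Finset.range m, (if n + 1 + e + j < n + 1 + e then (0 : ℤ) else 2) =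
      ∑ j ∈ Finset.range m, (2 : ℤ) :=
    Finset.sum_congr rfl fun j _ => if_neg (by omega)
  rw [h1, h2, Finset.sum_const, Finset.card_range, hm]
  push_cast
  ring

/-- the index without the two new slots -/
def ii (n e j : ℕ) : ℕ := if j < n + 1 + e then j else j + 2

/-- the differences -/
def gg (n t : ℕ) (a : ℕ → ℕ) (j : ℕ) : ℤ :=
  2 * (ii n (t % 2) j : ℤ) - rt (2 * n + 1) t j - a j -
    (if rt (2 * n + 1) t j % 2 = 1 then 2 else 0)

lemma gg_sum (n t : ℕ) (hn : 1 ≤ n) (ht : t ≤ 2 * n) (a : ℕ → ℕ)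
    (h1 : ∀ j ≤ 2 * n + 2, a j ≤ 2 * n + 2) (h2 : ∀ s ≤ 2 * n + 2, ∃ j ≤ 2 * n + 2, a j = s)
    (h3 : a (2 * n + 1) = 2 * (t % 2) + 1) (h4 : a (2 * n + 2) = 2 * (t % 2)) :
    ∑ j ∈ Finset.range (2 * n + 1), gg n t a j = -(2 * (n : ℤ) + 2) := by
  have hperm := fun F : ℕ → ℤ => sum_perm (2 * n) (rt (2 * n + 1) t)
    (fun j hj => by
      have := rt_le (q := 2 * n + 1) (t := t) (s := j) (by omega) (by omega)
      omega)
    (fun s hs => by
      obtain ⟨j, hj, hjs⟩ := rt_surj (q := 2 * n + 1) (t := t) (by omega) s (by omega)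
      exact ⟨j, by omega, hjs⟩) F
  have e1 : ∑ j ∈ Finset.range (2 * n + 1), (rt (2 * n + 1) t j : ℤ) = n * (2 * n + 1) := by
    rw [hperm fun j => (j : ℤ)]
    exact sum_id n
  have e2 : ∑ j ∈ Finset.range (2 * n + 1), (if rt (2 * n + 1) t j % 2 = 1 then (2 : ℤ) else 0) =
      2 * n := by
    rw [hperm fun j => if j % 2 = 1 then (2 : ℤ) else 0]
    exact sum_odd n
  have e3 : ∑ j ∈ Finset.range (2 * n + 1), (a j : ℤ) =
      (n + 1) * (2 * n + 3) - (4 * (t % 2 : ℕ) + 1) := by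
    have h5 := sum_perm (2 * n + 2) a h1 h2 (fun j => (j : ℤ))
    have h6 := sum_id (n + 1)
    have e : 2 * (n + 1) + 1 = 2 * n + 2 + 1 := by ring
    rw [e] at h6
    rw [h6, Finset.sum_range_succ, Finset.sum_range_succ, h3, h4] at h5
    push_cast at h5 ⊢
    linarith
  have e4 : ∑ j ∈ Finset.range (2 * n + 1), 2 * (ii n (t % 2) j : ℤ) =
      2 * (n * (2 * n + 1) + 2 * (n - (t % 2 : ℕ))) := by
    rw [← Finset.mul_sum, ← sum_id n, ← sum_gap n (t % 2) (by omega) hn,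
      ← Finset.sum_add_distrib]
    congr 1
    refine Finset.sum_congr rfl fun j _ => ?_
    unfold ii
    split_ifs
    · simp
    · push_cast
      ring
  unfold gg
  rw [Finset.sum_sub_distrib, Finset.sum_sub_distrib, Finset.sum_sub_distrib, e1, e2, e3, e4]
  push_cast
  ring

lemma sq_mod (n : ℕ) : (2 * n + 1) ^ 2 % 8 = 1 := by
  obtain ⟨c, hc⟩ : ∃ c, n * (n + 1) = 2 * c := by
    obtain ⟨c, hc⟩ := Nat.even_mul_succ_self n
    exact ⟨c, by rw [hc]; ring⟩
  have h : (2 * n + 1) ^ 2 = 8 * c + 1 := by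
    have : (2 * n + 1) ^ 2 = 4 * (n * (n + 1)) + 1 := by ring
    rw [this, hc]
    ring
  omega

lemma PK_spec (n K : ℕ) (hK : K % 8 = 1) (hq : 2 * n + 1 ∣ K) (hle : (2 * n + 1) ^ 2 ≤ K) :
    4 * (2 * n + 1) * PK K n + (2 * n + 1) ^ 2 = K ∧ PK K n % 2 = 0 := by
  have h8 : 8 ∣ K - (2 * n + 1) ^ 2 := by
    have := sq_mod n
    omega
  have hqd : 2 * n + 1 ∣ K - (2 * n + 1) ^ 2 := Nat.dvd_sub hq (dvd_pow_self _ two_ne_zero)
  have hcop : Nat.Coprime 8 (2 * n + 1) := by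
    have h2 : Nat.Coprime 2 (2 * n + 1) := by simp
    have h3 : Nat.Coprime (2 ^ 3) (2 * n + 1) := Nat.Coprime.pow_left 3 h2
    exact h3
  obtain ⟨c, hc⟩ := hcop.mul_dvd_of_dvd_of_dvd h8 hqd
  have hPK : PK K n = 2 * c := by
    unfold PK
    rw [hc]
    have e : 8 * (2 * n + 1) * c = 4 * (2 * n + 1) * (2 * c) := by ring
    rw [e]
    exact Nat.mul_div_cancel_left _ (by positivity)
  rw [hPK]
  refine ⟨?_, by omega⟩
  have e : 4 * (2 * n + 1) * (2 * c) = 8 * (2 * n + 1) * c := by ring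
  rw [e, ← hc]
  omega

lemma PK_large (n K : ℕ) (h17 : 17 * (2 * n + 3) ^ 3 ≤ K)
    (hs : 4 * (2 * n + 1) * PK K n + (2 * n + 1) ^ 2 = K) :
    4 * (2 * n + 3) * (2 * n + 1) ≤ PK K n := by
  by_contra hcon
  push Not at hcon
  have h1 : 4 * (2 * n + 1) * PK K n ≤ 4 * (2 * n + 1) * (4 * (2 * n + 3) * (2 * n + 1)) :=
    Nat.mul_le_mul_left _ hcon.le
  have h2 : K ≤ 4 * (2 * n + 1) * (4 * (2 * n + 3) * (2 * n + 1)) + (2 * n + 1) ^ 2 := by omega
  have h3 : 4 * (2 * n + 1) * (4 * (2 * n + 3) * (2 * n + 1)) + (2 * n + 1) ^ 2 <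
      17 * (2 * n + 3) ^ 3 := by
    ring_nf
    nlinarith
  omega

lemma ex_em (A B z : ℤ) (h : (A - B) % 2 = 0) : ∃ x, z = em A B x := by
  by_cases hz : (z - A) % 2 = 0
  · refine ⟨z - A, ?_⟩
    unfold em
    rw [if_pos hz]
    ring
  · refine ⟨z - B, ?_⟩
    unfold em
    rw [if_neg (by omega)]
    ring

/-- the crossing at the level `n + 1` -/
lemma cross (n t : ℕ) (a p p' : ℕ → ℕ) (d dd : ℤ)
    (hdd : d = (2 * n + 3) * dd)
    (h3 : a (2 * n + 1) = 2 * (t % 2) + 1) (h4 : a (2 * n + 2) = 2 * (t % 2))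
    (hp : ∀ j ≤ 2 * n, p j % 2 = 0 ∧
      (2 * (n : ℤ) + 3) * p' j = gg n t a j + (2 * n + 1) * p j)
    (pp : ℕ → ℕ) (hpp : ∀ j ≤ 2 * n, pp j = p' j) (hpp1 : (pp (2 * n + 1) : ℤ) = dd)
    (hpp2 : pp (2 * n + 2) = 0) (x : ℕ → ℤ)
    (hx : x = xW n (-d) fun j => hd (2 * n + 1) (rt (2 * n + 1) t j) (p j)) :
    (∀ j ≤ 2 * n, x j + (a j + pp j * (2 * n + 3)) = 2 * (ii n (t % 2) j : ℤ) - (2 * n + 3)) ∧
    x (2 * n + 1) + (a (2 * n + 1) + pp (2 * n + 1) * (2 * n + 3)) =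
      2 * ((n : ℤ) + 2 + (t % 2 : ℕ)) - (2 * n + 3) ∧
    x (2 * n + 2) + (a (2 * n + 2) + pp (2 * n + 2) * (2 * n + 3)) =
      2 * ((n : ℤ) + 1 + (t % 2 : ℕ)) - (2 * n + 3) := by
  refine ⟨?_, ?_, ?_⟩
  · intro j hj
    obtain ⟨hpj, hpe⟩ := hp j hj
    have hx1 : x j = if hd (2 * n + 1) (rt (2 * n + 1) t j) (p j) % 2 = 0 then
        hd (2 * n + 1) (rt (2 * n + 1) t j) (p j) else
        hd (2 * n + 1) (rt (2 * n + 1) t j) (p j) - 2 := by
      rw [hx]
      unfold xW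
      rw [if_neg (by omega), if_neg (by omega)]
    rw [hpp j hj, hx1]
    unfold gg at hpe
    unfold Pool.Agent.Y790.LG.hd
    generalize rt (2 * n + 1) t j = s at *
    obtain ⟨r, hr⟩ : ∃ r, p j = 2 * r := ⟨p j / 2, by omega⟩
    have hpar : ((s : ℤ) - ((2 * n + 1 : ℕ) : ℤ) - (p j : ℤ) * ((2 * n + 1 : ℕ) : ℤ)) % 2 =
        ((s : ℤ) + 1) % 2 := by
      rw [hr]
      push_cast
      have e : (s : ℤ) - (2 * n + 1) - 2 * r * (2 * n + 1) =
          (s : ℤ) + 1 + 2 * (-(n : ℤ) - 1 - r * (2 * n + 1)) := by ring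
      rw [e, Int.add_mul_emod_self_left]
    rw [hpar]
    by_cases hs : s % 2 = 1
    · rw [if_pos (by omega)]
      rw [if_pos hs] at hpe
      push_cast
      linarith
    · rw [if_neg (by omega)]
      rw [if_neg hs] at hpe
      push_cast
      linarith
  · have hx1 : x (2 * n + 1) = -d := by
      rw [hx]
      unfold xW
      rw [if_neg (by omega), if_pos rfl]
    rw [hx1, h3, hpp1, hdd]
    push_cast
    ring
  · have hx1 : x (2 * n + 2) = -1 := by
      rw [hx]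
      unfold xW
      rw [if_pos rfl]
    rw [hx1, h4, hpp2]
    push_cast
    ring

end OW

open OW in
/-- **A new node on the other side.** -/
theorem openW (hgo : GoStm) (ho : OutSegStm) (_hoc : OutCongrStm) (hx : ExtWStm) (hf : FwdStm)
    (ha : ArrWStm) (hu : TuneStm) (hg : GatherStm) : OpenStm 1 := by
  intro n M K A B c b V hn hM hqM hQM hMK hK8 h17 hV hOut
  have hqK : 2 * n + 1 ∣ K := hqM.trans hMK
  have hQ3 : (2 * n + 3) ^ 2 ≤ (2 * n + 3) ^ 3 := Nat.pow_le_pow_right (by omega) (by omega)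
  have hqQ : (2 * n + 1) ^ 2 ≤ (2 * n + 3) ^ 2 := Nat.pow_le_pow_left (by omega) 2
  obtain ⟨hPs, hPe⟩ := PK_spec n K hK8 hqK (by omega)
  have hPl := PK_large n K h17 hPs
  -- the place of the node
  obtain ⟨x0, hx0⟩ := ex_em A B (b V) hOut.1
  obtain ⟨t, htq⟩ : ∃ t : ℕ, (t : ℤ) = x0 % ((2 * n + 1 : ℕ) : ℤ) :=
    ⟨(x0 % ((2 * n + 1 : ℕ) : ℤ)).toNat, Int.toNat_of_nonneg (Int.emod_nonneg _ (by omega))⟩
  have htl : t ≤ 2 * n := by
    have := Int.emod_lt_of_pos x0 (show (0 : ℤ) < ((2 * n + 1 : ℕ) : ℤ) by omega)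
    omega
  obtain ⟨t', a, ht', ha1, ha2, ha3, ha4, ha5, ha6, ha7, ha8⟩ := ha n t hn htl
  -- the lags
  have hgs := gg_sum n t hn htl a ha1 ha2 ha4 ha5
  obtain ⟨p, p', hpp, hpsum⟩ := hu n (PK K n) (gg n t a) hPe hPl
    (by
      intro j hj
      have h1 := ha3 j hj
      have h2 := ha1 j (by omega)
      have h3 := rt_le (q := 2 * n + 1) (t := t) (s := j) (by omega) (by omega)
      unfold gg
      constructor
      · split_ifs <;> omega
      · split_ifs <;> omega)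
    (by
      rw [hgs]
      obtain ⟨k, hk⟩ := hQM.trans hMK
      have h1 : (4 : ℤ) * (-(2 * (n : ℤ) + 2) + (2 * n + 1) * (PK K n : ℤ)) =
          (2 * n + 3) * ((k : ℤ) - (2 * n + 3)) := by
        have h2 : (4 * (2 * n + 1) * PK K n + (2 * n + 1) ^ 2 : ℤ) = (2 * n + 3) * k := by
          have h3 := hPs.trans hk
          exact_mod_cast h3
        linear_combination h2
      have h2 : (2 * (n : ℤ) + 3) ∣ 4 * (-(2 * (n : ℤ) + 2) + (2 * n + 1) * (PK K n : ℤ)) :=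
        ⟨_, h1⟩
      have hcop : IsCoprime (2 * (n : ℤ) + 3) 4 := by
        have e2 : IsCoprime (2 * (n : ℤ) + 3) 2 := ⟨1, -(n + 1), by ring⟩
        have e4 : (4 : ℤ) = 2 * 2 := by norm_num
        rw [e4]
        exact e2.mul_right e2
      exact Int.emod_eq_zero_of_dvd (hcop.dvd_of_dvd_mul_left h2))
  obtain ⟨W1, hW1⟩ := hgo n (PK K n) p t hn (fun j hj => (hpp j hj).1) hpsum htl
  refine ⟨K + 4 * (W1 + x0.natAbs + 1), fun K' hK' hKM => ?_⟩
  -- the number of vertices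
  obtain ⟨m, hm⟩ : 8 * M ∣ K' - K := (Nat.modEq_iff_dvd' (by omega)).1 hKM.symm
  obtain ⟨M1, hM1⟩ := hqM
  obtain ⟨M2, hM2⟩ := hQM
  have hd4 : K' = K + 4 * (2 * M * m) := by
    have e : 8 * M * m = 4 * (2 * M * m) := by ring
    omega
  obtain ⟨d, hdd⟩ : ∃ d : ℕ, d = 2 * M * m := ⟨_, rfl⟩
  rw [← hdd] at hd4
  have hdq : (d : ℤ) = ((2 * n + 1 : ℕ) : ℤ) * (2 * M1 * m) := by
    rw [hdd, hM1]
    push_cast
    ring
  have hdQ : d = (2 * n + 3) * (2 * M2 * m) := by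
    rw [hdd, hM2]
    ring
  obtain ⟨W, hW⟩ : ∃ W : ℕ, (W : ℤ) = x0 + d := ⟨(x0 + d).toNat, Int.toNat_of_nonneg (by omega)⟩
  have hWt : W % (2 * n + 1) = t := by
    have h1 : ((W % (2 * n + 1) : ℕ) : ℤ) = t := by
      rw [htq, Int.natCast_emod, hW, hdq, Int.add_mul_emod_self_left]
    exact_mod_cast h1
  obtain ⟨C, hC, hSeg⟩ := hW1 W (by omega) hWt
  obtain ⟨A1, B1, hOut1, hem1⟩ := ho n A B _ _ c b C W (by exact_mod_cast hC.symm) hOut hSeg
  have hbV : b V = em A1 B1 (-(d : ℤ)) := by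
    rw [hem1, hx0]
    congr 1
    rw [hW]
    ring
  have hde : -(d : ℤ) % 2 = 0 := by
    have : (d : ℤ) = 2 * (M * m) := by
      rw [hdd]
      push_cast
      ring
    omega
  have hOut2 := hx n A1 B1 _ c b V (-(d : ℤ)) hOut1 hV hbV hde
  -- the crossing
  obtain ⟨pp, hppd⟩ : ∃ pp : ℕ → ℕ, pp = fun j =>
      if j = 2 * n + 2 then 0 else if j = 2 * n + 1 then 2 * M2 * m else p' j := ⟨_, rfl⟩
  have hpp0 : ∀ j ≤ 2 * n, pp j = p' j := by
    intro j hj
    rw [hppd]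
    simp only
    rw [if_neg (by omega), if_neg (by omega)]
  have hpp1 : pp (2 * n + 1) = 2 * M2 * m := by
    rw [hppd]
    simp only
    rw [if_neg (by omega), if_pos trivial]
  have hpp2 : pp (2 * n + 2) = 0 := by
    rw [hppd]
    simp only
    rw [if_pos trivial]
  obtain ⟨x, hxd⟩ : ∃ x : ℕ → ℤ, x = xW n (-(d : ℤ)) fun j =>
    hd (2 * n + 1) (rt (2 * n + 1) t j) (p j) := ⟨_, rfl⟩
  rw [← hxd] at hOut2
  obtain ⟨hc0, hc1, hc2⟩ := cross n t a p p' d ((2 * M2 * m : ℕ) : ℤ)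
    (by exact_mod_cast hdQ) ha4 ha5 (fun j hj => ⟨(hpp j hj).1, (hpp j hj).2.2⟩) pp hpp0
    (by rw [hpp1]) hpp2 x hxd
  have hppe : ∀ j ≤ 2 * n + 2, pp j % 2 = 0 := by
    intro j hj
    rcases Nat.lt_or_ge j (2 * n + 1) with h | h
    · rw [hpp0 j (by omega)]
      exact (hpp j (by omega)).2.1
    · rcases Nat.eq_or_lt_of_le h with h | h
      · rw [← h, hpp1, mul_assoc, Nat.mul_mod_right]
      · have : j = 2 * n + 2 := by omega
        rw [this, hpp2]
  obtain ⟨S, hS⟩ : ∃ S, S = ∑ j ∈ Finset.range (2 * n + 3), pp j := ⟨_, rfl⟩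
  have hpps : ∀ j ≤ 2 * n + 2, pp j ≤ S := by
    intro j hj
    rw [hS]
    exact Finset.single_le_sum (f := pp) (fun i _ => Nat.zero_le _)
      (Finset.mem_range.2 (by omega))
  have hseg2 : Seg (n + 1) x (fun j => cst (2 * S + 2) t' (a j))
      (fun j => hd (2 * (n + 1) + 1) (rt (2 * (n + 1) + 1) t' (a j)) (pp j)) := by
    have hcase : ∀ j ≤ 2 * (n + 1), ∃ k : ℤ,
        x j + (a j + pp j * (2 * ((n + 1 : ℕ) : ℤ) + 1)) = 2 * k - (2 * ((n + 1 : ℕ) : ℤ) + 1) := by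
      intro j hj
      rcases Nat.lt_or_ge j (2 * n + 1) with h | h
      · refine ⟨ii n (t % 2) j, ?_⟩
        have := hc0 j (by omega)
        push_cast
        linarith
      · rcases Nat.eq_or_lt_of_le h with h | h
        · refine ⟨(n : ℤ) + 2 + (t % 2 : ℕ), ?_⟩
          rw [← h]
          push_cast at hc1 ⊢
          linarith
        · refine ⟨(n : ℤ) + 1 + (t % 2 : ℕ), ?_⟩
          have : j = 2 * n + 2 := by omega
          rw [this]
          push_cast at hc2 ⊢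
          linarith
    refine hf (n + 1) x a pp (2 * S + 2) t' (by omega) (fun j hj => ha1 j (by omega))
      (fun s hs => ?_) (fun j hj => ?_) (fun k hk0 hk => ?_) (fun j hj => ?_) (fun j hj _ => ?_)
    · obtain ⟨j, hj, hjs⟩ := ha2 s (by omega)
      exact ⟨j, by omega, hjs⟩
    · obtain ⟨k, hk⟩ := hcase j hj
      unfold Od
      rw [hk]
      omega
    · obtain ⟨k', rfl⟩ := Int.eq_ofNat_of_zero_le hk0
      push_cast at hk
      rcases lt_trichotomy k' (n + 1 + t % 2) with h | h | h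
      · refine ⟨k', by omega, ?_⟩
        have h1 := hc0 k' (by omega)
        have h2 : ii n (t % 2) k' = k' := by
          unfold ii
          rw [if_pos h]
        rw [h2] at h1
        push_cast
        linarith
      · refine ⟨2 * n + 2, by omega, ?_⟩
        have h3 : (k' : ℤ) = n + 1 + (t % 2 : ℕ) := by exact_mod_cast h
        push_cast at hc2 h3 ⊢
        linarith
      · rcases Nat.eq_or_lt_of_le h with h' | h'
        · refine ⟨2 * n + 1, by omega, ?_⟩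
          have h3 : (k' : ℤ) = n + 2 + (t % 2 : ℕ) := by
            have : k' = n + 2 + t % 2 := by omega
            exact_mod_cast this
          push_cast at hc1 h3 ⊢
          linarith
        · obtain ⟨j, rfl⟩ : ∃ j, k' = j + 2 := ⟨k' - 2, by omega⟩
          refine ⟨j, by omega, ?_⟩
          have h1 := hc0 j (by omega)
          have h2 : ii n (t % 2) j = j + 2 := by
            unfold ii
            rw [if_neg (by omega)]
          rw [h2] at h1
          push_cast at h1 ⊢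
          linarith
    · have h1 := hpps j (by omega)
      unfold Pool.Agent.Y790.LG.cst
      split_ifs <;> omega
    · exact hppe j (by omega)
  obtain ⟨A2, B2, hOut3, -⟩ := ho (n + 1) A1 (B1 + 2) _ _ _ _ _
    (∑ j ∈ Finset.range (2 * (n + 1) + 1), (cst (2 * S + 2) t' (a j) : ℤ)) rfl hOut2 hseg2
  -- the sum of the lags
  have hK'8 : K' % 8 = 1 := by
    have : K' = K + 8 * (M * m) := by
      rw [hd4, hdd]
      ring
    omega
  have hQK' : 2 * (n + 1) + 1 ∣ K' := by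
    have e : 2 * (n + 1) + 1 = 2 * n + 3 := by ring
    rw [e, hd4, hdQ]
    refine Dvd.dvd.add ?_ ?_
    · exact (Dvd.intro _ hM2.symm).trans hMK
    · exact ⟨4 * (2 * M2 * m), by ring⟩
  have e23 : 2 * (n + 1) + 1 = 2 * n + 3 := by ring
  obtain ⟨hP's, -⟩ := PK_spec (n + 1) K' hK'8 hQK' (by rw [e23]; omega)
  rw [e23] at hP's
  have hSP : S = PK K' (n + 1) := by
    have hsum : (∑ j ∈ Finset.range (2 * n + 3), (pp j : ℤ)) =
        ∑ j ∈ Finset.range (2 * n + 1), (p' j : ℤ) + (2 * M2 * m : ℕ) := by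
      rw [Finset.sum_range_succ, Finset.sum_range_succ, hpp1, hpp2]
      rw [Finset.sum_congr rfl fun j hj => by
        rw [hpp0 j (by have := Finset.mem_range.1 hj; omega)]]
      push_cast
      ring
    have h1 : (2 * (n : ℤ) + 3) * ∑ j ∈ Finset.range (2 * n + 1), (p' j : ℤ) =
        -(2 * (n : ℤ) + 2) + (2 * n + 1) * (PK K n : ℤ) := by
      rw [Finset.mul_sum, Finset.sum_congr rfl fun j hj =>
        (hpp j (by have := Finset.mem_range.1 hj; omega)).2.2, Finset.sum_add_distrib, hgs,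
        ← Finset.mul_sum]
      congr 2
      exact_mod_cast hpsum
    have h2 : (S : ℤ) = ∑ j ∈ Finset.range (2 * n + 1), (p' j : ℤ) + (2 * M2 * m : ℕ) := by
      rw [← hsum, hS]
      push_cast
      rfl
    have h3 : (4 * (2 * (n : ℤ) + 3)) * (S : ℤ) = (4 * (2 * (n : ℤ) + 3)) * (PK K' (n + 1) : ℤ) := by
      have h4 : (4 * (2 * n + 1) * PK K n + (2 * n + 1) ^ 2 : ℤ) = K := by exact_mod_cast hPs
      have h5 : (4 * (2 * n + 3) * PK K' (n + 1) + (2 * n + 3) ^ 2 : ℤ) = K' := by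
        exact_mod_cast hP's
      have h6 : (K' : ℤ) = K + 4 * d := by exact_mod_cast hd4
      have h7 : (d : ℤ) = (2 * n + 3) * (2 * M2 * m : ℕ) := by exact_mod_cast hdQ
      rw [h2]
      linear_combination 4 * h1 + h4 - h5 - h6 - 4 * h7
    have h8 := mul_left_cancel₀ (by positivity) h3
    exact_mod_cast h8
  obtain ⟨A3, B3, c', hOut4, hPrs⟩ := hg n V (PK K' (n + 1)) A2 B2 c (bN n (B1 + 1) b)
    (fun j => rt (2 * n + 3) t' (a j)) pp
    (fun j hj => by
      have := rt_le (q := 2 * n + 3) (t := t') (s := a j) (by have := ha1 j hj; omega) ht'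
      show rt (2 * n + 3) t' (a j) ≤ 2 * n + 2
      omega)
    (fun i hi => by
      obtain ⟨s, hs, hsi⟩ := rt_surj (q := 2 * n + 3) ht' i (by omega)
      obtain ⟨j, hj, hjs⟩ := ha2 s (by omega)
      exact ⟨j, hj, by
        show rt (2 * n + 3) t' (a j) = i
        rw [hjs, hsi]⟩)
    ha6 ha7 ha8 hppe (by rw [← hS, hSP]) hOut3
  refine ⟨A3, B3, c', bN n (B1 + 1) b, hOut4, fun i hi => ?_, ?_, hPrs⟩
  · unfold bN
    rw [if_neg (by omega)]
  · have h1 : bN n (B1 + 1) b (n + 1) = B1 + 1 := by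
      unfold bN
      rw [if_pos rfl]
    have h2 : b V = -(d : ℤ) + A1 := by
      rw [hbV]
      unfold em
      rw [if_pos hde]
    rw [h1, h2]
    have h3 := hOut1.1
    omega

end Pool.Agent.Y790.TR
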