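import Pool.Agent.Y790.TR.Def
import Pool.Agent.Y790.LG.Core

/-!
# Trees with long threads: the outer part followed by a segment, new names
-/

set_option autoImplicit false

namespace Pool.Agent.Y790.TR

open Pool.Agent.Y790.LG (Od Sm rt cst hd Lg Kst prd Cls ClsStm Lags)

lemma em_add {A B a b : ℤ} (h : (A - B) % 2 = 0) (hab : Od a b) :
    em A B a + em A B b = a + b + (A + B) := by
  unfold Od at hab
  unfold em
  split_ifs <;> omega

lemma od_em {A B a b : ℤ} (h : (A - B) % 2 = 0) (hab : Od a b) : Od (em A B a) (em A B b) := by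
  have h1 := em_add h hab
  unfold Od at *
  rw [h1]
  omega

lemma od_sub2 {l : List ℤ} {a b : ℤ} (h : l.IsChain Od) (hab : [a, b] <:+: l) : Od a b := by
  obtain ⟨s, t, rfl⟩ := hab
  have := (List.isChain_append.1 (List.isChain_append.1 h).1).2.1
  simpa using this

lemma in_mono {A B A' B' W z : ℤ} (hAB : (A - B) % 2 = 0) (hW : 0 ≤ W)
    (h : (W % 2 = 0 ∧ A' = A + W ∧ B' = B + W) ∨ (W % 2 = 1 ∧ A' = B + W ∧ B' = A + W))
    (hz : In A B z) : In A' B' z := by
  obtain ⟨h1, h2, h3⟩ := hz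
  rcases h with ⟨hw, rfl, rfl⟩ | ⟨hw, rfl, rfl⟩
  · refine ⟨h1, fun h4 => ?_, fun h4 => ?_⟩
    · have := h2 (by omega)
      omega
    · have := h3 (by omega)
      omega
  · refine ⟨h1, fun h4 => ?_, fun h4 => ?_⟩
    · have := h3 (by omega)
      omega
    · have := h2 (by omega)
      omega

lemma in_em {A B A' B' W u : ℤ} (hAB : (A - B) % 2 = 0) (hA : 0 ≤ A) (hB : 0 ≤ B)
    (h : (W % 2 = 0 ∧ A' = A + W ∧ B' = B + W) ∨ (W % 2 = 1 ∧ A' = B + W ∧ B' = A + W))
    (hu : 0 ≤ u) (hu' : u < W) : In A' B' (em A B u) := by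
  unfold em
  rcases h with ⟨hw, rfl, rfl⟩ | ⟨hw, rfl, rfl⟩
  · split_ifs with h1
    · exact ⟨by omega, fun _ => by omega, fun _ => by omega⟩
    · exact ⟨by omega, fun _ => by omega, fun _ => by omega⟩
  · split_ifs with h1
    · exact ⟨by omega, fun _ => by omega, fun _ => by omega⟩
    · exact ⟨by omega, fun _ => by omega, fun _ => by omega⟩

lemma new_em {A B A' B' W z : ℤ} (hAB : (A - B) % 2 = 0)
    (h : (W % 2 = 0 ∧ A' = A + W ∧ B' = B + W) ∨ (W % 2 = 1 ∧ A' = B + W ∧ B' = A + W))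
    (hz : In A' B' z) (hn : ¬ In A B z) : ∃ u, 0 ≤ u ∧ u < W ∧ em A B u = z := by
  obtain ⟨h1, h2, h3⟩ := hz
  rcases Int.emod_two_eq_zero_or_one (z - A) with h4 | h4
  · have h5 : A ≤ z := by
      by_contra h5
      exact hn ⟨h1, fun _ => by omega, fun h6 => by omega⟩
    refine ⟨z - A, by omega, ?_, ?_⟩
    · rcases h with ⟨hw, rfl, rfl⟩ | ⟨hw, rfl, rfl⟩
      · have := h2 (by omega)
        omega
      · have := h3 (by omega)
        omega
    · unfold em
      rw [if_pos h4]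
      omega
  · have h5 : B ≤ z := by
      by_contra h5
      exact hn ⟨h1, fun h6 => by omega, fun _ => by omega⟩
    refine ⟨z - B, by omega, ?_, ?_⟩
    · rcases h with ⟨hw, rfl, rfl⟩ | ⟨hw, rfl, rfl⟩
      · have := h3 (by omega)
        omega
      · have := h2 (by omega)
        omega
    · unfold em
      rw [if_neg (by omega)]
      omega

theorem outSeg : OutSegStm := by
  intro n A B x y c b d W hW hO hS
  obtain ⟨hAB, hA, hB, L, hL, hcov, hbI, hLI, hc, hch, hlast, hs⟩ := hO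
  obtain ⟨M, W₀, hW₀, hMl, hMlast, hMb, hMch, hMcov, hMs⟩ := hS
  have hWW : W₀ = W := by rw [hW, hW₀]
  subst hWW
  have hW0 : 0 ≤ W₀ := by
    rw [hW₀]
    exact Finset.sum_nonneg fun j _ => by positivity
  obtain ⟨A', B', h⟩ : ∃ A' B' : ℤ, (W₀ % 2 = 0 ∧ A' = A + W₀ ∧ B' = B + W₀) ∨
      (W₀ % 2 = 1 ∧ A' = B + W₀ ∧ B' = A + W₀) := by
    rcases Int.emod_two_eq_zero_or_one W₀ with h | h
    · exact ⟨_, _, Or.inl ⟨h, rfl, rfl⟩⟩
    · exact ⟨_, _, Or.inr ⟨h, rfl, rfl⟩⟩
  have hem : ∀ u : ℤ, em A' B' u = em A B (u + W₀) := by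
    intro u
    unfold em
    rcases h with ⟨hw, rfl, rfl⟩ | ⟨hw, rfl, rfl⟩
    · split_ifs <;> omega
    · split_ifs <;> omega
  have hsum : A' + B' = A + B + 2 * W₀ := by
    rcases h with ⟨hw, rfl, rfl⟩ | ⟨hw, rfl, rfl⟩ <;> ring
  refine ⟨A', B', ⟨?_, ?_, ?_, fun j => L j ++ (M j).map (em A B), ?_, ?_, ?_, ?_, hc, ?_, ?_, ?_⟩,
    hem⟩
  · rcases h with ⟨hw, rfl, rfl⟩ | ⟨hw, rfl, rfl⟩ <;> omega
  · rcases h with ⟨hw, rfl, rfl⟩ | ⟨hw, rfl, rfl⟩ <;> omega
  · rcases h with ⟨hw, rfl, rfl⟩ | ⟨hw, rfl, rfl⟩ <;> omega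
  · have h1 : ∑ j ∈ Finset.range (2 * n + 1), (((L j ++ (M j).map (em A B)).length : ℕ) : ℤ) =
        ∑ j ∈ Finset.range (2 * n + 1), ((L j).length : ℤ) + W₀ := by
      rw [hW₀, ← Finset.sum_add_distrib]
      refine Finset.sum_congr rfl fun j hj => ?_
      have hj' := Finset.mem_range.1 hj
      rw [List.length_append, List.length_map, hMl j (by omega)]
      push_cast
      ring
    rw [h1, hsum, hL]
    ring
  · intro z hz
    by_cases hz' : In A B z
    · rcases hcov z hz' with h1 | ⟨j, hj, h1⟩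
      · exact Or.inl h1
      · exact Or.inr ⟨j, hj, List.mem_append_left _ h1⟩
    · obtain ⟨u, hu, hu', rfl⟩ := new_em hAB h hz hz'
      obtain ⟨j, hj, h1⟩ := hMcov u hu hu'
      exact Or.inr ⟨j, hj, List.mem_append_right _ (List.mem_map_of_mem h1)⟩
  · intro i hi
    exact in_mono hAB hW0 h (hbI i hi)
  · intro j hj z hz
    rcases List.mem_append.1 hz with h1 | h1
    · exact in_mono hAB hW0 h (hLI j hj z h1)
    · obtain ⟨u, hu, rfl⟩ := List.mem_map.1 h1
      obtain ⟨h2, h3⟩ := hMb j hj u hu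
      exact in_em hAB hA hB h h2 h3
  · intro j hj
    obtain ⟨l', hl'⟩ := Pool.Agent.Y790.LG.exists_last (hlast j hj)
    have c1 : (l' ++ [em A B (x j)]).IsChain Od := by
      rw [← hl']
      exact hch j hj
    have c2 : ([em A B (x j)] ++ (M j).map (em A B)).IsChain Od := by
      have h1 : ((x j :: M j).map (em A B)).IsChain Od := by
        rw [List.isChain_map]
        exact (hMch j hj).imp fun _ _ h => od_em hAB h
      simpa using h1
    have c3 := c1.append_overlap c2 (by simp)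
    rw [← hl'] at c3
    simpa using c3
  · intro j hj
    rw [hem, ← List.cons_append, List.getLast?_append, List.getLast?_map, hMlast j hj]
    rfl
  · intro v hv h1 h2
    by_cases h3 : v < A + B - (2 * n + 1)
    · obtain ⟨j, hj, h4⟩ := hs v hv h1 h3
      refine ⟨j, hj, h4.inFx ?_⟩
      rw [← List.cons_append]
      exact List.infix_append_left
    · obtain ⟨j, hj, a, a', h4, h5⟩ := hMs (v - (A + B)) (by omega) (by omega) (by omega)
      have h6 : Od a a' := od_sub2 (hMch j hj) h4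
      refine ⟨j, hj, em A B a, em A B a', ?_, by rw [em_add hAB h6]; omega⟩
      obtain ⟨l', hl'⟩ := Pool.Agent.Y790.LG.exists_last (hlast j hj)
      have h7 : (x j :: M j).map (em A B) <:+: (b (c j) :: (L j ++ (M j).map (em A B))) := by
        refine List.IsSuffix.isInfix ⟨l', ?_⟩
        rw [← List.cons_append, hl']
        simp
      refine List.IsInfix.trans ?_ h7
      have h8 := List.IsInfix.map (em A B) h4
      simpa using h8

lemma sum_rel (n : ℕ) (f : ℕ → ℤ) (π : ℕ → ℕ) (ha : ∀ j ≤ 2 * n, π j ≤ 2 * n)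
    (hs : ∀ s ≤ 2 * n, ∃ j ≤ 2 * n, π j = s) :
    ∑ j ∈ Finset.range (2 * n + 1), f (π j) = ∑ j ∈ Finset.range (2 * n + 1), f j := by
  have h1 : (Finset.range (2 * n + 1)).image π = Finset.range (2 * n + 1) := by
    ext s
    simp only [Finset.mem_image, Finset.mem_range]
    constructor
    · rintro ⟨j, hj, rfl⟩
      have := ha j (by omega)
      omega
    · intro hs1
      obtain ⟨j, hj, hj2⟩ := hs s (by omega)
      exact ⟨j, by omega, hj2⟩
  have h2 : Set.InjOn π (Finset.range (2 * n + 1) : Finset ℕ) := by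
    rw [← Finset.card_image_iff, h1]
  have h3 : ∑ s ∈ (Finset.range (2 * n + 1)).image π, f s =
      ∑ j ∈ Finset.range (2 * n + 1), f (π j) := Finset.sum_image h2
  rw [← h3, h1]

theorem rel : RelStm := by
  intro n A B x c b π hπ hs hO
  obtain ⟨hAB, hA, hB, L, hL, hcov, hbI, hLI, hc, hch, hlast, hsm⟩ := hO
  refine ⟨hAB, hA, hB, fun j => L (π j), ?_, ?_, hbI, ?_, ?_, ?_, ?_, ?_⟩
  · rw [sum_rel n (fun j => ((L j).length : ℤ)) π hπ hs]
    exact hL
  · intro z hz
    rcases hcov z hz with h1 | ⟨j, hj, h1⟩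
    · exact Or.inl h1
    · obtain ⟨i, hi, rfl⟩ := hs j hj
      exact Or.inr ⟨i, hi, h1⟩
  · exact fun j hj => hLI (π j) (hπ j hj)
  · exact fun j hj => hc (π j) (hπ j hj)
  · exact fun j hj => hch (π j) (hπ j hj)
  · exact fun j hj => hlast (π j) (hπ j hj)
  · intro v hv h1 h2
    obtain ⟨j, hj, h3⟩ := hsm v hv h1 h2
    obtain ⟨i, hi, rfl⟩ := hs j hj
    exact ⟨i, hi, h3⟩

theorem outCongr : OutCongrStm := by
  intro n A B x x' c c' b b' hx hcc hb hO
  obtain ⟨hAB, hA, hB, L, hL, hcov, hbI, hLI, hc, hch, hlast, hsm⟩ := hO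
  have hbc : ∀ j ≤ 2 * n, b' (c' j) = b (c j) := by
    intro j hj
    rw [← hcc j hj, hb _ (hc j hj)]
  refine ⟨hAB, hA, hB, L, hL, ?_, ?_, hLI, ?_, ?_, ?_, ?_⟩
  · intro z hz
    rcases hcov z hz with ⟨i, hi, h1⟩ | h1
    · exact Or.inl ⟨i, hi, by rw [← hb i hi]; exact h1⟩
    · exact Or.inr h1
  · intro i hi
    rw [← hb i hi]
    exact hbI i hi
  · intro j hj
    rw [← hcc j hj]
    exact hc j hj
  · intro j hj
    rw [hbc j hj]
    exact hch j hj
  · intro j hj
    rw [hbc j hj, ← hx j hj]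
    exact hlast j hj
  · intro v hv h1 h2
    obtain ⟨j, hj, h3⟩ := hsm v hv h1 h2
    exact ⟨j, hj, by rw [hbc j hj]; exact h3⟩

end Pool.Agent.Y790.TR
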