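import Pool.Agent.Y790.TR.Def

/-!
# Trees with long threads: choice of the lags

Contributed by helper447.
-/

set_option autoImplicit false
set_option linter.all false

namespace Pool.Agent.Y790.TR

theorem tune_one (n : ℕ) (g : ℤ) : ∃ x : ℕ, x < 2 * n + 3 ∧
    (2 * (n : ℤ) + 3) ∣ g + (2 * n + 1) * (2 * ((2 * n + 3) + x)) := by
  have hc : IsCoprime (4 : ℤ) (2 * n + 3) := by
    have h1 : IsCoprime (2 : ℤ) (2 * n + 3) := ⟨-(n + 1), 1, by ring⟩
    have h2 := h1.mul_left h1
    norm_num at h2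
    exact h2
  obtain ⟨a, b, hab⟩ := hc
  have hQ : (0 : ℤ) < 2 * n + 3 := by positivity
  have h1 := Int.emod_nonneg (a * g) hQ.ne'
  have h2 := Int.emod_lt_of_pos (a * g) hQ
  have h3 : ((a * g % (2 * n + 3)).toNat : ℤ) = a * g % (2 * n + 3) := Int.toNat_of_nonneg h1
  refine ⟨(a * g % (2 * n + 3)).toNat, by omega, ?_⟩
  rw [h3]
  have h4 := Int.emod_add_mul_ediv (a * g) (2 * n + 3)
  set x := a * g % (2 * n + 3) with hx
  set y := a * g / (2 * n + 3) with hy
  -- `g - 4 x` is divisible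
  refine ⟨b * g + 4 * y + 2 * (2 * n + 1) + 2 * x, ?_⟩
  linear_combination (-g) * hab + (-4) * h4

theorem tune : TuneStm := by
  intro n P g hP hPl hg hsum
  choose x hx1 hx2 using fun j => tune_one n (g j)
  set f : ℕ → ℕ := fun j => 2 * ((2 * n + 3) + x j) with hf
  set T : ℕ := ∑ i ∈ Finset.range (2 * n), f (i + 1) with hT
  have hTle : T ≤ 2 * n * (4 * (2 * n + 3)) := by
    rw [hT]
    refine (Finset.sum_le_card_nsmul _ _ (4 * (2 * n + 3)) fun i _ => ?_).trans (le_of_eq ?_)
    · have := hx1 (i + 1)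
      simp only [hf]
      omega
    · rw [Finset.card_range, smul_eq_mul]
  have hTev : T % 2 = 0 := by
    have : 2 ∣ T := Finset.dvd_sum fun i _ => ⟨_, rfl⟩
    omega
  have hP0 : T + 4 * (2 * n + 3) ≤ P := by nlinarith
  set p : ℕ → ℕ := fun j => if j = 0 then P - T else f j with hp
  have hps : ∑ j ∈ Finset.range (2 * n + 1), p j = P := by
    rw [Finset.sum_range_succ']
    have h1 : ∑ i ∈ Finset.range (2 * n), p (i + 1) = T := by
      rw [hT]
      refine Finset.sum_congr rfl fun i _ => ?_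
      simp only [hp]
      rw [if_neg (Nat.succ_ne_zero i)]
    have h2 : p 0 = P - T := if_pos rfl
    rw [h1, h2]
    omega
  have hpl : ∀ j, 2 * (2 * n + 3) ≤ p j := by
    intro j
    simp only [hp]
    split_ifs with hj
    · omega
    · simp only [hf]
      omega
  have hpe : ∀ j, p j % 2 = 0 := by
    intro j
    simp only [hp]
    split_ifs with hj
    · omega
    · simp only [hf]
      omega
  have hd : ∀ j ≤ 2 * n, (2 * (n : ℤ) + 3) ∣ g j + (2 * n + 1) * p j := by
    have h1 : ∀ j, j ≠ 0 → (2 * (n : ℤ) + 3) ∣ g j + (2 * n + 1) * p j := by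
      intro j hj
      have h2 := hx2 j
      have h3 : (p j : ℤ) = 2 * ((2 * n + 3) + x j) := by
        simp only [hp, if_neg hj, hf]
        push_cast
        ring
      rw [h3]
      exact h2
    intro j hj
    by_cases hj0 : j = 0
    · subst hj0
      have h2 : (2 * (n : ℤ) + 3) ∣ ∑ j ∈ Finset.range (2 * n + 1), (g j + (2 * n + 1) * p j) := by
        rw [Finset.sum_add_distrib, ← Finset.mul_sum]
        have h3 : (∑ j ∈ Finset.range (2 * n + 1), (p j : ℤ)) = P := by
          rw [← hps]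
          push_cast
          rfl
        rw [h3]
        exact Int.dvd_of_emod_eq_zero hsum
      rw [Finset.sum_range_succ'] at h2
      exact (dvd_add_right (Finset.dvd_sum fun i _ => h1 (i + 1) (Nat.succ_ne_zero i))).1 h2
    · exact h1 j hj0
  have hn0 : (0 : ℤ) ≤ n := Int.natCast_nonneg n
  have hpos : ∀ j ≤ 2 * n, 0 ≤ g j + (2 * n + 1) * p j := by
    intro j hj
    have h1 := (hg j hj).2
    have h2 : (2 * (2 * (n : ℤ) + 3)) ≤ p j := by exact_mod_cast hpl j
    have h3 : (2 * (2 * (n : ℤ) + 3)) * 1 ≤ (2 * n + 1) * p j := by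
      rw [mul_comm (2 * (n : ℤ) + 1)]
      exact mul_le_mul h2 (by linarith) (by norm_num) (by positivity)
    linarith
  refine ⟨p, fun j => ((g j + (2 * n + 1) * p j) / (2 * n + 3)).toNat, fun j hj => ?_, hps⟩
  have h1 : 0 ≤ (g j + (2 * n + 1) * p j) / (2 * n + 3) :=
    Int.ediv_nonneg (hpos j hj) (by linarith)
  have h2 := Int.toNat_of_nonneg h1
  have h3 := Int.mul_ediv_cancel' (hd j hj)
  have h4 : (2 * (n : ℤ) + 3) * (((g j + (2 * n + 1) * p j) / (2 * n + 3)).toNat : ℤ) =
      g j + (2 * n + 1) * p j := by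
    rw [h2]
    exact h3
  refine ⟨hpe j, ?_, h4⟩
  set y := ((g j + (2 * n + 1) * p j) / (2 * n + 3)).toNat with hy
  -- parity
  have h5 : Even ((2 * (n : ℤ) + 3) * (y : ℤ)) := by
    rw [h4]
    have e1 : Even (g j) := Int.even_iff.2 (hg j hj).1
    have e2 : Even (p j : ℤ) := by
      rw [Int.even_coe_nat]
      exact Nat.even_iff.2 (hpe j)
    exact e1.add (e2.mul_left _)
  rw [Int.even_mul] at h5
  rcases h5 with h6 | h6
  · exfalso
    rw [Int.even_iff] at h6
    omega
  · rw [Int.even_coe_nat] at h6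
    exact Nat.even_iff.1 h6

end Pool.Agent.Y790.TR
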