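import Pool.Agent.Y790.TR.Arr
import Pool.Agent.Y790.TR.Base
import Pool.Agent.Y790.TR.Conn
import Pool.Agent.Y790.TR.EvR
import Pool.Agent.Y790.TR.Ext
import Pool.Agent.Y790.TR.Gather
import Pool.Agent.Y790.TR.Go
import Pool.Agent.Y790.TR.Grow
import Pool.Agent.Y790.TR.Mov
import Pool.Agent.Y790.TR.OpenR
import Pool.Agent.Y790.TR.OpenW
import Pool.Agent.Y790.TR.OutS
import Pool.Agent.Y790.TR.Seg
import Pool.Agent.Y790.TR.Tune

/-!
# Trees with long threads: all outer parts can be grown
-/

set_option autoImplicit false

namespace Pool.Agent.Y790.TR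

theorem allGrow : GrowStm := by
  have hco := conn segCongr segTrans (wait fwd) (mov0 fwd segCongr segTrans)
  have hgo := go segCongr segTrans fwd hco
  have hga := gather outSeg outCongr rel hco
  exact grow (base evR hga) (openR hgo outSeg evR arrR tune hga)
    (openW hgo outSeg outCongr extW fwd arrW tune hga)

end Pool.Agent.Y790.TR
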