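import Pool.Agent.Y790.TR.Def2
import Pool.Agent.Y790.TR.OutS
import Pool.Agent.Y790.LG.Core

/-!
# Trees with long threads: the outer part and the completion give a labelled network
-/

set_option autoImplicit false

namespace Pool.Agent.Y790.TR

open Pool.Agent.Y790.LG (Od Sm rt cst hd Lg Kst prd Cls ClsStm Lags)

namespace Cl

lemma chain_par : ∀ (l : List ℤ) (a z : ℤ), (a :: l).IsChain Od → (a :: l).getLast? = some z →
    (a + l.length + z) % 2 = 0 := by
  intro l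
  induction l with
  | nil =>
    intro a z _ h
    have h1 : a = z := by simpa using h
    subst h1
    simp only [List.length_nil, Nat.cast_zero]
    omega
  | cons b l ih =>
    intro a z h1 h2
    rw [List.isChain_cons_cons] at h1
    rw [List.getLast?_cons_cons] at h2
    have h3 := ih b z h1.2 h2
    have h4 := h1.1
    unfold Od at h4
    rw [List.length_cons]
    push_cast
    omega

lemma kst_par {n P : ℕ} (hP : P % 2 = 0) (j : ℕ) : (Kst n P 0 j + j) % 2 = 1 := by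
  obtain ⟨q, rfl⟩ : ∃ q, P = 2 * q := ⟨P / 2, by omega⟩
  unfold Kst Lg hd
  dsimp only
  split_ifs with h
  · have : (((j : ℕ) : ℤ) - ((2 * n + 1 : ℕ) : ℤ) - ((2 * q : ℕ) : ℤ) * ((2 * n + 1 : ℕ) : ℤ) + j) =
        2 * (j - n - 1 - q * (2 * n + 1)) + 1 := by
      push_cast
      ring
    rw [this]
    omega
  · have : (((j : ℕ) : ℤ) - ((2 * n + 1 : ℕ) : ℤ) - ((0 : ℕ) : ℤ) * ((2 * n + 1 : ℕ) : ℤ) + j) =
        2 * (j - n - 1) + 1 := by
      push_cast
      ring
    rw [this]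
    omega

lemma em_par {A B : ℤ} (hAB : (A - B) % 2 = 0) (y : ℤ) : (em A B y - y - A) % 2 = 0 := by
  unfold em
  split_ifs <;> omega

lemma Sm_em {A B v : ℤ} {l : List ℤ} (hAB : (A - B) % 2 = 0) (hl : l.IsChain Od)
    (h : Sm l (v - (A + B))) : Sm (l.map (em A B)) v := by
  obtain ⟨a, b, h1, h2⟩ := h
  have h3 : Od a b := od_sub2 hl h1
  refine ⟨em A B a, em A B b, ?_, by rw [em_add hAB h3]; omega⟩
  have := List.IsInfix.map (em A B) h1
  simpa using this

lemma chain_em {A B : ℤ} {l : List ℤ} (hAB : (A - B) % 2 = 0) (hl : l.IsChain Od) :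
    (l.map (em A B)).IsChain Od := by
  rw [List.isChain_map]
  exact hl.imp fun _ _ h => od_em hAB h

/-- the inner vertices of a thread -/
def Zt (A B : ℤ) (L₁ Q L₂ : List ℤ) : List ℤ := L₁ ++ Q.map (em A B) ++ L₂.reverse

lemma Zt_length (A B : ℤ) (L₁ Q L₂ : List ℤ) :
    (Zt A B L₁ Q L₂).length = Q.length + L₁.length + L₂.length := by
  unfold Zt
  simp
  omega

lemma mem_Zt {A B : ℤ} {L₁ Q L₂ : List ℤ} {z : ℤ} :
    z ∈ Zt A B L₁ Q L₂ ↔ z ∈ L₁ ∨ (∃ u ∈ Q, em A B u = z) ∨ z ∈ L₂ := by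
  unfold Zt
  rw [List.mem_append, List.mem_append, List.mem_reverse, List.mem_map, or_assoc]

lemma Zt_eq {A B x y : ℤ} {L₁ Q L₂ : List ℤ} : x :: (Zt A B L₁ Q L₂ ++ [y]) =
    (x :: L₁) ++ Q.map (em A B) ++ (y :: L₂).reverse := by
  unfold Zt
  simp

lemma tp_chain {A B x y a b : ℤ} {L₁ Q L₂ : List ℤ} (hAB : (A - B) % 2 = 0)
    (hA : (x :: L₁).getLast? = some (em A B a)) (hB : (y :: L₂).getLast? = some (em A B b))
    (h1 : (x :: L₁).IsChain Od) (h2 : (y :: L₂).IsChain Od)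
    (h3 : (a :: (Q ++ [b])).IsChain Od) : (x :: (Zt A B L₁ Q L₂ ++ [y])).IsChain Od := by
  rw [Zt_eq]
  obtain ⟨l₁, hl₁⟩ := Pool.Agent.Y790.LG.exists_last hA
  obtain ⟨l₂, hl₂⟩ := Pool.Agent.Y790.LG.exists_last hB
  rw [hl₁] at h1 ⊢
  rw [hl₂] at h2 ⊢
  have c2 : ([em A B a] ++ (Q.map (em A B) ++ [em A B b])).IsChain Od := by
    have := chain_em hAB h3
    simpa using this
  have c3 : ([em A B b] ++ l₂.reverse).IsChain Od := by
    have := Pool.Agent.Y790.LG.chain_reverse h2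
    simpa using this
  have d1 := h1.append_overlap c2 (by simp)
  have d1' : ((l₁ ++ [em A B a] ++ Q.map (em A B)) ++ [em A B b]).IsChain Od := by
    simpa using d1
  have d2 := d1'.append_overlap c3 (by simp)
  simpa using d2

lemma tp_left {A B x y : ℤ} {L₁ Q L₂ : List ℤ} :
    (x :: L₁) <:+: (x :: (Zt A B L₁ Q L₂ ++ [y])) := by
  rw [Zt_eq, List.append_assoc]
  exact List.infix_append_left

lemma tp_right {A B x y : ℤ} {L₁ Q L₂ : List ℤ} :
    (y :: L₂).reverse <:+: (x :: (Zt A B L₁ Q L₂ ++ [y])) := by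
  rw [Zt_eq]
  exact List.infix_append_right

lemma tp_mid {A B x y a b : ℤ} {L₁ Q L₂ : List ℤ}
    (hA : (x :: L₁).getLast? = some (em A B a)) (hB : (y :: L₂).getLast? = some (em A B b)) :
    (a :: (Q ++ [b])).map (em A B) <:+: (x :: (Zt A B L₁ Q L₂ ++ [y])) := by
  rw [Zt_eq]
  obtain ⟨l₁, hl₁⟩ := Pool.Agent.Y790.LG.exists_last hA
  obtain ⟨l₂, hl₂⟩ := Pool.Agent.Y790.LG.exists_last hB
  rw [hl₁, hl₂]
  refine ⟨l₁, l₂.reverse, ?_⟩
  simp

end Cl

open Cl in
theorem close : CloseStm := by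
  intro e n P A B c b up sd C₀ hP hO hsd hc0 hPr hup hSt
  obtain ⟨hAB, hA, hB, L, hL, hcov, hbI, hLI, hc, hch, hlast, hs⟩ := hO
  obtain ⟨S, hS⟩ : ∃ S : ℕ, S = ∑ j ∈ Finset.range (2 * n + 1), (L j).length := ⟨_, rfl⟩
  have hSj : ∀ j ≤ 2 * n, (L j).length ≤ S := by
    intro j hj
    rw [hS]
    exact Finset.single_le_sum (f := fun j => (L j).length) (fun _ _ => Nat.zero_le _)
      (Finset.mem_range.2 (by omega))
  have hex : ∀ i, ∃ m, 1 ≤ i → i ≤ n → m < n ∧ ((c (2 * m) = i ∧ c (2 * m + 1) = up i) ∨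
      (c (2 * m) = up i ∧ c (2 * m + 1) = i)) := by
    intro i
    by_cases h : 1 ≤ i ∧ i ≤ n
    · obtain ⟨m, hm, h1⟩ := hPr i h.1 h.2
      exact ⟨m, fun _ _ => ⟨hm, h1⟩⟩
    · exact ⟨0, fun h1 h2 => absurd ⟨h1, h2⟩ h⟩
  choose μ hμ using hex
  obtain ⟨I, hI⟩ : ∃ I : ℕ → ℕ, ∀ m, I m = max (c (2 * m)) (c (2 * m + 1)) := ⟨_, fun _ => rfl⟩
  have hIμ : ∀ i, 1 ≤ i → i ≤ n → I (μ i) = i := by
    intro i h1 h2
    have h3 := hup i h1 h2
    rw [hI]
    rcases (hμ i h1 h2).2 with ⟨h4, h5⟩ | ⟨h4, h5⟩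
    · rw [h4, h5]
      omega
    · rw [h4, h5]
      omega
  have hinj : Set.InjOn μ (Finset.Icc 1 n : Finset ℕ) := by
    intro i hi j hj hij
    have hi' := Finset.mem_Icc.1 (Finset.mem_coe.1 hi)
    have hj' := Finset.mem_Icc.1 (Finset.mem_coe.1 hj)
    rw [← hIμ i hi'.1 hi'.2, ← hIμ j hj'.1 hj'.2, hij]
  have himg : (Finset.Icc 1 n).image μ = Finset.range n := by
    refine Finset.eq_of_subset_of_card_le ?_ ?_
    · intro m hm
      obtain ⟨i, hi, rfl⟩ := Finset.mem_image.1 hm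
      have hi' := Finset.mem_Icc.1 hi
      exact Finset.mem_range.2 (hμ i hi'.1 hi'.2).1
    · rw [Finset.card_image_of_injOn hinj]
      simp
  have hmI : ∀ m < n, 1 ≤ I m ∧ I m ≤ n ∧ μ (I m) = m := by
    intro m hm
    have h1 : m ∈ (Finset.Icc 1 n).image μ := by
      rw [himg]
      exact Finset.mem_range.2 hm
    obtain ⟨i, hi, rfl⟩ := Finset.mem_image.1 h1
    have hi' := Finset.mem_Icc.1 hi
    rw [hIμ i hi'.1 hi'.2]
    exact ⟨hi'.1, hi'.2, rfl⟩
  have hreidx : ∀ f : ℕ → ℤ, ∑ m ∈ Finset.range n, f (I m) = ∑ i ∈ Finset.Icc 1 n, f i := by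
    intro f
    rw [← himg, Finset.sum_image hinj]
    refine Finset.sum_congr rfl fun i hi => ?_
    have hi' := Finset.mem_Icc.1 hi
    rw [hIμ i hi'.1 hi'.2]
  have hcc : ∀ m < n, (c (2 * m) = I m ∧ c (2 * m + 1) = up (I m)) ∨
      (c (2 * m) = up (I m) ∧ c (2 * m + 1) = I m) := by
    intro m hm
    obtain ⟨h1, h2, h3⟩ := hmI m hm
    have h4 := (hμ (I m) h1 h2).2
    rwa [h3] at h4
  refine ⟨C₀ + 2 * S + 2, ?_⟩
  intro len g hpar hC hCg hg
  obtain ⟨ℓ, hℓdef⟩ : ∃ ℓ : ℕ → ℕ, ∀ m, ℓ m =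
    len (I m) - 1 - (L (2 * m)).length - (L (2 * m + 1)).length := ⟨_, fun _ => rfl⟩
  have hℓ : ∀ m < n, ℓ m + 1 + (L (2 * m)).length + (L (2 * m + 1)).length = len (I m) := by
    intro m hm
    have h1 := hmI m hm
    have h2 := hC (I m) h1.1 h1.2.1
    have h3 := hSj (2 * m) (by omega)
    have h4 := hSj (2 * m + 1) (by omega)
    rw [hℓdef]
    omega
  obtain ⟨g', hg'⟩ : ∃ g' : ℕ, g' + (L (2 * n)).length = g := by
    have := hSj (2 * n) le_rfl
    exact ⟨g - (L (2 * n)).length, by omega⟩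
  have hev : ∀ m < n, ℓ m % 2 = 0 := by
    intro m hm
    obtain ⟨h1, h2, h3⟩ := hmI m hm
    have h4 := chain_par _ _ _ (hch (2 * m) (by omega)) (hlast (2 * m) (by omega))
    have h5 := chain_par _ _ _ (hch (2 * m + 1) (by omega)) (hlast (2 * m + 1) (by omega))
    have h6 := em_par hAB (Kst n P 0 (2 * m))
    have h7 := em_par hAB (Kst n P 0 (2 * m + 1))
    have h8 := kst_par (n := n) hP (2 * m)
    have h9 := kst_par (n := n) hP (2 * m + 1)
    have h10 := hpar (I m) h1 h2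
    have h11 := hℓ m hm
    have h12 := hsd (I m) h2
    have h13 := hsd (up (I m)) (by have := hup (I m) h1 h2; omega)
    push_cast at h8 h9
    rcases hcc m hm with ⟨h14, h15⟩ | ⟨h14, h15⟩
    · rw [h14] at h4
      rw [h15] at h5
      omega
    · rw [h14] at h4
      rw [h15] at h5
      omega
  have hSt' := hSt ℓ g' hev
    (fun m hm => by
      have h1 := hmI m hm
      have h2 := hC (I m) h1.1 h1.2.1
      have h3 := hSj (2 * m) (by omega)
      have h4 := hSj (2 * m + 1) (by omega)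
      have h5 := hℓ m hm
      omega)
    (fun m hm => by
      have h1 := hmI m hm
      have h2 := hCg (I m) h1.1 h1.2.1
      have h3 := hSj (2 * n) (by omega)
      have h5 := hℓ m hm
      omega)
    (by
      have h3 := hSj (2 * n) (by omega)
      omega)
  obtain ⟨W, Q, G', hW, hQ, hG', hcv, hGb, hQb, hss, hGc, hQc, hGl⟩ := hSt'
  have hGl' : (Kst n P 0 (2 * n) :: G').getLast? = some (W - 1 - e) := hGl
  have hW0 : 0 ≤ W := by
    rw [hW]
    have : (0 : ℤ) ≤ ∑ m ∈ Finset.range n, (ℓ m : ℤ) := Finset.sum_nonneg fun j _ => by positivity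
    omega
  obtain ⟨A', B', h⟩ : ∃ A' B' : ℤ, (W % 2 = 0 ∧ A' = A + W ∧ B' = B + W) ∨
      (W % 2 = 1 ∧ A' = B + W ∧ B' = A + W) := by
    rcases Int.emod_two_eq_zero_or_one W with h | h
    · exact ⟨_, _, Or.inl ⟨h, rfl, rfl⟩⟩
    · exact ⟨_, _, Or.inr ⟨h, rfl, rfl⟩⟩
  have hem : ∀ u : ℤ, em A' B' u = em A B (u + W) := by
    intro u
    unfold em
    rcases h with ⟨hw, rfl, rfl⟩ | ⟨hw, rfl, rfl⟩
    · split_ifs <;> omega
    · split_ifs <;> omega
  have hsum : A' + B' = A + B + 2 * W := by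
    rcases h with ⟨hw, rfl, rfl⟩ | ⟨hw, rfl, rfl⟩ <;> ring
  obtain ⟨Z, hZ⟩ : ∃ Z : ℕ → List ℤ, ∀ m, Z m = Zt A B (L (2 * m)) (Q m) (L (2 * m + 1)) :=
    ⟨_, fun _ => rfl⟩
  obtain ⟨D, hD⟩ : ∃ D : ℕ → List ℤ, ∀ m, D m =
    b (c (2 * m)) :: (Z m ++ [b (c (2 * m + 1))]) := ⟨_, fun _ => rfl⟩
  obtain ⟨T, hT⟩ : ∃ T : ℕ → List ℤ, ∀ i, T i =
    if c (2 * μ i) = i then Z (μ i) else (Z (μ i)).reverse := ⟨_, fun _ => rfl⟩
  have hTD : ∀ i, 1 ≤ i → i ≤ n → (b i :: (T i ++ [b (up i)])) = D (μ i) ∨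
      (b i :: (T i ++ [b (up i)])) = (D (μ i)).reverse := by
    intro i h1 h2
    rw [hT, hD]
    rcases (hμ i h1 h2).2 with ⟨h3, h4⟩ | ⟨h3, h4⟩
    · left
      rw [if_pos h3, h3, h4]
    · right
      have := hup i h1 h2
      rw [if_neg (by omega), h3, h4]
      simp
  have hTm : ∀ i z, z ∈ T i ↔ z ∈ Z (μ i) := by
    intro i z
    rw [hT]
    split_ifs
    · rfl
    · exact List.mem_reverse
  have hTl : ∀ i, (T i).length = (Z (μ i)).length := by
    intro i
    rw [hT]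
    split_ifs
    · rfl
    · exact List.length_reverse
  have hZT : ∀ m < n, ∀ z ∈ Z m, ∃ i, 1 ≤ i ∧ i ≤ n ∧ z ∈ T i := by
    intro m hm z hz
    obtain ⟨h1, h2, h3⟩ := hmI m hm
    refine ⟨I m, h1, h2, (hTm _ _).2 ?_⟩
    rwa [h3]
  have hDch : ∀ m < n, (D m).IsChain Od := by
    intro m hm
    rw [hD, hZ]
    exact tp_chain hAB (hlast (2 * m) (by omega)) (hlast (2 * m + 1) (by omega))
      (hch (2 * m) (by omega)) (hch (2 * m + 1) (by omega)) (hQc m hm)
  have hDS : ∀ m < n, ∀ v, Sm (D m) v →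
      ∃ i, 1 ≤ i ∧ i ≤ n ∧ Sm (b i :: (T i ++ [b (up i)])) v := by
    intro m hm v hv
    obtain ⟨h1, h2, h3⟩ := hmI m hm
    refine ⟨I m, h1, h2, ?_⟩
    have h4 := hTD (I m) h1 h2
    rw [h3] at h4
    rcases h4 with h4 | h4
    · rw [h4]
      exact hv
    · rw [h4]
      exact hv.reverse
  obtain ⟨l', hl'⟩ := Pool.Agent.Y790.LG.exists_last (hlast (2 * n) le_rfl)
  rw [hc0] at hl'
  have hGeq : b 0 :: (L (2 * n) ++ G'.map (em A B)) =
      l' ++ (Kst n P 0 (2 * n) :: G').map (em A B) := by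
    rw [← List.cons_append, hl']
    simp
  refine ⟨A', B', b, T, L (2 * n) ++ G'.map (em A B), ?_, ?_, ?_, ?_, ?_, ?_, ?_, ?_, ?_, ?_, ?_,
    ?_, ?_, ?_⟩
  · rcases h with ⟨hw, rfl, rfl⟩ | ⟨hw, rfl, rfl⟩ <;> omega
  · rcases h with ⟨hw, rfl, rfl⟩ | ⟨hw, rfl, rfl⟩ <;> omega
  · rcases h with ⟨hw, rfl, rfl⟩ | ⟨hw, rfl, rfl⟩ <;> omega
  · have h1 := hreidx (fun i => (len i : ℤ))
    have h2 : ∑ m ∈ Finset.range n, ((len (I m) : ℕ) : ℤ) =
        ∑ m ∈ Finset.range n, (ℓ m : ℤ) + n +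
          ∑ m ∈ Finset.range n, (((L (2 * m)).length : ℤ) + ((L (2 * m + 1)).length : ℤ)) := by
      have h3 : (n : ℤ) = ∑ m ∈ Finset.range n, (1 : ℤ) := by simp
      rw [h3, ← Finset.sum_add_distrib, ← Finset.sum_add_distrib]
      refine Finset.sum_congr rfl fun m hm => ?_
      rw [← hℓ m (Finset.mem_range.1 hm)]
      push_cast
      ring
    have h4 := Pool.Agent.Y790.LG.sum_pairs (fun j => ((L j).length : ℤ)) n
    have h5 : (g : ℤ) = g' + (L (2 * n)).length := by rw [← hg']; push_cast; ring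
    rw [hsum, hL, h4, hW, ← h1, h2, h5]
    ring
  · intro i h1 h2
    have h3 := (hμ i h1 h2).1
    rw [hTl, hZ, Zt_length, hQ _ h3]
    have h4 := hℓ _ h3
    rw [hIμ i h1 h2] at h4
    omega
  · rw [List.length_append, List.length_map, hG']
    omega
  · intro z hz
    by_cases hz' : In A B z
    · rcases hcov z hz' with h1 | ⟨j, hj, h1⟩
      · exact Or.inl h1
      · right
        by_cases hj2 : j = 2 * n
        · right
          subst hj2
          exact List.mem_append_left _ h1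
        · left
          refine hZT (j / 2) (by omega) z ?_
          rw [hZ, mem_Zt]
          rcases Nat.mod_two_eq_zero_or_one j with h2 | h2
          · left
            rwa [show 2 * (j / 2) = j by omega]
          · right; right
            rwa [show 2 * (j / 2) + 1 = j by omega]
    · obtain ⟨u, hu, hu', rfl⟩ := new_em hAB h hz hz'
      right
      rcases hcv u hu hu' with h1 | ⟨m, hm, h1⟩
      · exact Or.inr (List.mem_append_right _ (List.mem_map_of_mem h1))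
      · left
        refine hZT m hm _ ?_
        rw [hZ, mem_Zt]
        exact Or.inr (Or.inl ⟨u, h1, rfl⟩)
  · intro i hi
    exact in_mono hAB hW0 h (hbI i hi)
  · intro i h1 h2 z hz
    have h3 := (hμ i h1 h2).1
    rw [hTm, hZ, mem_Zt] at hz
    rcases hz with h4 | ⟨u, h4, rfl⟩ | h4
    · exact in_mono hAB hW0 h (hLI _ (by omega) z h4)
    · obtain ⟨h5, h6⟩ := hQb _ h3 u h4
      exact in_em hAB hA hB h h5 h6
    · exact in_mono hAB hW0 h (hLI _ (by omega) z h4)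
  · intro z hz
    rcases List.mem_append.1 hz with h1 | h1
    · exact in_mono hAB hW0 h (hLI _ le_rfl z h1)
    · obtain ⟨u, hu, rfl⟩ := List.mem_map.1 h1
      obtain ⟨h2, h3⟩ := hGb u hu
      exact in_em hAB hA hB h h2 h3
  · intro i h1 h2
    have h3 := hDch _ (hμ i h1 h2).1
    rcases hTD i h1 h2 with h4 | h4
    · rw [h4]
      exact h3
    · rw [h4]
      exact Pool.Agent.Y790.LG.chain_reverse h3
  · have c1 : (l' ++ [em A B (Kst n P 0 (2 * n))]).IsChain Od := by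
      rw [← hl', ← hc0]
      exact hch (2 * n) le_rfl
    have c2 : ([em A B (Kst n P 0 (2 * n))] ++ G'.map (em A B)).IsChain Od := by
      have := chain_em hAB hGc
      simpa using this
    have c3 := c1.append_overlap c2 (by simp)
    rw [← hl'] at c3
    simpa using c3
  · intro v hv h1 h2
    by_cases h3 : v < A + B - (2 * n + 1)
    · obtain ⟨j, hj, h4⟩ := hs v hv h1 h3
      by_cases hj2 : j = 2 * n
      · right
        subst hj2
        rw [hc0] at h4
        refine h4.inFx ?_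
        rw [← List.cons_append]
        exact List.infix_append_left
      · left
        rcases Nat.mod_two_eq_zero_or_one j with h5 | h5
        · obtain ⟨m, rfl⟩ : ∃ m, j = 2 * m := ⟨j / 2, by omega⟩
          refine hDS m (by omega) v ?_
          rw [hD, hZ]
          exact h4.inFx tp_left
        · obtain ⟨m, rfl⟩ : ∃ m, j = 2 * m + 1 := ⟨j / 2, by omega⟩
          refine hDS m (by omega) v ?_
          rw [hD, hZ]
          exact h4.reverse.inFx tp_right
    · rcases hss (v - (A + B)) (by omega) (by omega) (by omega) with h4 | ⟨m, hm, h4⟩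
      · right
        rw [hGeq]
        exact (Sm_em hAB hGc h4).inFx List.infix_append_right
      · left
        refine hDS m hm v ?_
        rw [hD, hZ]
        exact (Sm_em hAB (hQc m hm) h4).inFx
          (tp_mid (hlast (2 * m) (by omega)) (hlast (2 * m + 1) (by omega)))
  · rw [hGeq, hem, List.getLast?_append, List.getLast?_map, hGl']
    have : W - 1 - e = -1 - e + W := by ring
    rw [this]
    rfl

end Pool.Agent.Y790.TR
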