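import Pool.Agent.Y790.TR.Def2
import Pool.Agent.H115R2.Base

/-!
# Trees with long threads: a labelled network gives a graceful labelling
-/

set_option autoImplicit false

namespace Pool.Agent.Y790.TR

open Pool.Agent.Y790.LG (Od Sm)
open Pool.Agent.TH56.GT (Graceful)

namespace DecG

/-- the label of a position -/
def lab (N : ℕ) (z : ℤ) : ℕ := if z % 2 = 0 then N - (z / 2).toNat else (z / 2).toNat

theorem lab_le {N : ℕ} {A B z : ℤ} (h0 : (A - B) % 2 = 0) (hA : 0 ≤ A) (hB : 0 ≤ B)
    (hAB : A + B = 2 * (1 + N)) (hz : In A B z) : lab N z ≤ N := by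
  unfold lab
  obtain ⟨h1, h2, h3⟩ := hz
  split_ifs with h <;> omega

theorem lab_surj {N : ℕ} {A B : ℤ} (h0 : (A - B) % 2 = 0) (hA : 0 ≤ A) (hB : 0 ≤ B)
    (hAB : A + B = 2 * (1 + N)) (m : ℕ) (hm : m ≤ N) : ∃ z, In A B z ∧ lab N z = m := by
  by_cases h : In A B (2 * ((N : ℤ) - m))
  · refine ⟨_, h, ?_⟩
    unfold lab
    rw [if_pos (by omega)]
    omega
  · refine ⟨2 * (m : ℤ) + 1, ?_, ?_⟩
    · unfold In at h ⊢
      refine ⟨by omega, fun h4 => ?_, fun h4 => ?_⟩
      · by_contra h5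
        exact h ⟨by omega, fun h6 => by omega, fun h6 => by omega⟩
      · by_contra h5
        exact h ⟨by omega, fun h6 => by omega, fun h6 => by omega⟩
    · unfold lab
      rw [if_neg (by omega)]
      omega

theorem lab_diff {N : ℕ} {A B z z' : ℤ} {d : ℕ} (h0 : (A - B) % 2 = 0) (hA : 0 ≤ A) (hB : 0 ≤ B)
    (hAB : A + B = 2 * (1 + N)) (hz : In A B z) (hz' : In A B z') (hd : 1 ≤ d) (hd' : d ≤ N)
    (hs : z + z' = 2 * ((N : ℤ) - d) + 1) :
    Int.natAbs ((lab N z : ℤ) - (lab N z' : ℤ)) = d := by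
  have e1 := lab_le h0 hA hB hAB hz
  have e2 := lab_le h0 hA hB hAB hz'
  unfold lab at *
  obtain ⟨h1, h2, h3⟩ := hz
  obtain ⟨g1, g2, g3⟩ := hz'
  split_ifs at * <;> omega

/-- two consecutive entries -/
theorem infix_get {l : List ℤ} {a b : ℤ} (h : [a, b] <:+: l) : ∃ k, k + 1 < l.length ∧
    l.getD k 0 = a ∧ l.getD (k + 1) 0 = b := by
  obtain ⟨s, t, rfl⟩ := h
  refine ⟨s.length, by simp, ?_, ?_⟩
  · simp [List.getD_eq_getElem?_getD]
  · simp [List.getD_eq_getElem?_getD]

theorem dec : DecStm := by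
  classical
  intro V _ T n up len v hT hDec hNet
  obtain ⟨d1, d2, d3⟩ := hDec
  obtain ⟨A, B, b, L, h0, hA, hB, hAB, hlen, hsur, hb, hL, _, hsum⟩ := hNet
  set N : ℕ := ∑ i ∈ Finset.Icc 1 n, len i with hN
  have hAB' : A + B = 2 * (1 + (N : ℤ)) := by rw [hAB, hN]; push_cast; ring
  -- names
  let X : Type := Option (Σ i : Fin n, Fin (len (i + 1)))
  let g : X → V := fun x => match x with
    | none => v 0 0
    | some ⟨i, k⟩ => v (i + 1) k
  let q : X → ℤ := fun x => match x with
    | none => b 0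
    | some ⟨i, k⟩ => (b (i + 1) :: L (i + 1)).getD k 0
  have hcardX : Fintype.card X = N + 1 := by
    simp only [X, Fintype.card_option, Fintype.card_sigma, Fintype.card_fin]
    congr 1
    rw [hN, Finset.sum_fin_eq_sum_range]
    rw [Finset.range_eq_Ico, Finset.sum_Ico_eq_sum_range]
    rw [show Finset.Icc 1 n = Finset.Ico 1 (n + 1) by rfl, Finset.sum_Ico_eq_sum_range]
    simp only [Nat.sub_zero, Nat.add_sub_cancel, zero_add]
    refine Finset.sum_congr rfl fun i hi => ?_
    rw [dif_pos (Finset.mem_range.1 hi), add_comm]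
  have hcardV : Fintype.card V = N + 1 := by rw [d3]; ring
  have gsurj : Function.Surjective g := by
    intro x
    rcases d2 x with rfl | ⟨i, h1, h2, k, hk, rfl⟩
    · exact ⟨none, rfl⟩
    · obtain ⟨j, rfl⟩ : ∃ j, i = j + 1 := ⟨i - 1, by omega⟩
      exact ⟨some ⟨⟨j, by omega⟩, ⟨k, hk⟩⟩, rfl⟩
  have gbij : Function.Bijective g :=
    (Fintype.bijective_iff_surjective_and_card g).2 ⟨gsurj, by rw [hcardX, hcardV]⟩
  let e : X ≃ V := Equiv.ofBijective g gbij
  let p : V → ℤ := fun x => q (e.symm x)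
  have pg : ∀ x, p (g x) = q x := by
    intro x
    show q (e.symm (e x)) = q x
    rw [e.symm_apply_apply]
  have p0 : p (v 0 0) = b 0 := pg none
  have pv : ∀ i, 1 ≤ i → i ≤ n → ∀ k < len i, p (v i k) = (b i :: L i).getD k 0 := by
    intro i h1 h2 k hk
    obtain ⟨j, rfl⟩ : ∃ j, i = j + 1 := ⟨i - 1, by omega⟩
    exact pg (some ⟨⟨j, by omega⟩, ⟨k, hk⟩⟩)
  have pb : ∀ i ≤ n, p (v i 0) = b i := by
    intro i hi
    rcases Nat.eq_zero_or_pos i with rfl | h1
    · exact p0
    · rw [pv i h1 hi 0 (d1 i h1 hi).2.1]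
      rfl
  have pfull : ∀ i, 1 ≤ i → i ≤ n → ∀ k ≤ len i,
      p (v i k) = (b i :: (L i ++ [b (up i)])).getD k 0 := by
    intro i h1 h2 k hk
    have hl := hlen i h1 h2
    rcases Nat.lt_or_ge k (len i) with hk' | hk'
    · rw [pv i h1 h2 k hk']
      rw [← List.cons_append, List.getD_append]
      simp only [List.length_cons]; omega
    · obtain ⟨u1, u2, u3, _⟩ := d1 i h1 h2
      have hke : k = len i := le_antisymm hk hk'
      rw [hke, u3, pb (up i) (by omega), ← List.cons_append, List.getD_append_right]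
      · simp only [List.length_cons]
        rw [show len i - ((L i).length + 1) = 0 by omega]
        rfl
      · simp only [List.length_cons]; omega
  have pIn : ∀ x, In A B (p x) := by
    intro x
    rcases d2 x with rfl | ⟨i, h1, h2, k, hk, rfl⟩
    · rw [p0]; exact hb 0 (Nat.zero_le _)
    · rw [pv i h1 h2 k hk]
      have hl := hlen i h1 h2
      rcases Nat.eq_zero_or_pos k with rfl | h3
      · exact hb i h2
      · obtain ⟨m, rfl⟩ : ∃ m, k = m + 1 := ⟨k - 1, by omega⟩
        have hm : m < (L i).length := by omega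
        have : (b i :: L i).getD (m + 1) 0 = (L i)[m] := by
          simp [List.getD_eq_getElem?_getD, hm]
        rw [this]
        exact hL i h1 h2 _ (List.getElem_mem hm)
  -- every position is attained
  have psurj : ∀ z, In A B z → ∃ x, p x = z := by
    intro z hz
    rcases hsur z hz with ⟨i, hi, rfl⟩ | ⟨i, h1, h2, h3⟩
    · exact ⟨v i 0, pb i hi⟩
    · obtain ⟨m, hm, rfl⟩ := List.getElem_of_mem h3
      have hl := hlen i h1 h2
      refine ⟨v i (m + 1), ?_⟩
      rw [pv i h1 h2 (m + 1) (by omega)]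
      simp [List.getD_eq_getElem?_getD, hm]
  -- the labelling
  let f : V → Fin (N + 1) := fun x => ⟨lab N (p x), by
    have := lab_le h0 hA hB hAB' (pIn x); omega⟩
  have fsurj : Function.Surjective f := by
    intro m
    obtain ⟨z, hz, hzm⟩ := lab_surj h0 hA hB hAB' m.1 (by have := m.2; omega)
    obtain ⟨x, hx⟩ := psurj z hz
    refine ⟨x, Fin.ext ?_⟩
    show lab N (p x) = m.1
    rw [hx, hzm]
  have fbij : Function.Bijective f :=
    (Fintype.bijective_iff_surjective_and_card f).2 ⟨fsurj, by rw [hcardV, Fintype.card_fin]⟩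
  have hE : T.edgeSet.ncard = N := by
    have := Pool.Agent.H115R2.ncard_edge T hT
    rw [hcardV] at this
    omega
  refine ⟨fun x => (f x).1, fun x y hxy => fbij.1 (Fin.ext hxy), fun x => ?_, ?_⟩
  · rw [hE]
    exact Nat.lt_succ_iff.1 (f x).2
  rw [hE]
  symm
  refine Set.eq_of_subset_of_ncard_le ?_ ?_ ?_
  · rintro d ⟨hd1, hd2⟩
    obtain ⟨i, h1, h2, a, c, hac, hacs⟩ := hsum (2 * ((N : ℤ) - d) + 1) (by omega) (by omega)
      (by omega)
    obtain ⟨k, hk, e1, e2⟩ := infix_get hac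
    have hl := hlen i h1 h2
    simp only [List.length_cons, List.length_append, List.length_nil] at hk
    have hk' : k < len i := by omega
    have f1 := pfull i h1 h2 k hk'.le
    have f2 := pfull i h1 h2 (k + 1) hk'
    rw [e1] at f1
    rw [e2] at f2
    refine ⟨v i k, v i (k + 1), (d1 i h1 h2).2.2.2 k hk', ?_⟩
    have := lab_diff (N := N) (d := d) h0 hA hB hAB' (pIn (v i k)) (pIn (v i (k + 1))) hd1 hd2
      (by rw [f1, f2, hacs])
    exact this.symm
  · have hset : {d : ℕ | ∃ u w : V, T.Adj u w ∧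
        d = Int.natAbs (((f u).1 : ℤ) - ((f w).1 : ℤ))} =
        (Sym2.lift ⟨fun u w : V => Int.natAbs (((f u).1 : ℤ) - ((f w).1 : ℤ)), fun u w => by
          beta_reduce
          rw [← Int.natAbs_neg, neg_sub]⟩) '' T.edgeSet := by
      ext d
      constructor
      · rintro ⟨u, w, huw, rfl⟩
        exact ⟨s(u, w), huw, rfl⟩
      · rintro ⟨z, hz, rfl⟩
        induction z using Sym2.ind with
        | _ u w => exact ⟨u, w, hz, rfl⟩
    rw [hset]
    refine le_trans (Set.ncard_image_le (Set.toFinite _)) ?_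
    rw [hE]
    rw [← Finset.coe_Icc, Set.ncard_coe_finset, Nat.card_Icc]
    omega
  · refine Set.Finite.subset (Set.finite_Icc 0 N) ?_
    rintro d ⟨u, w, _, rfl⟩
    have := (f u).2
    have := (f w).2
    simp only [Set.mem_Icc]
    omega

end DecG

theorem dec : DecStm := DecG.dec

end Pool.Agent.Y790.TR
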