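import Pool.Agent.Y790.TR.Def2

/-! Decomposition of a rooted tree into threads. -/

set_option autoImplicit false

namespace Pool.Agent.Y790.TR

/-- enumeration of a set with nondecreasing keys -/
theorem exists_enum_key {V : Type} [Fintype V] (S : Set V) (κ : V → ℕ) (hS : S.Nonempty) :
    ∃ (n : ℕ) (nd : ℕ → V), n + 1 = S.ncard ∧ (∀ i ≤ n, nd i ∈ S) ∧
      (∀ i ≤ n, ∀ j ≤ n, nd i = nd j → i = j) ∧ (∀ x ∈ S, ∃ i ≤ n, nd i = x) ∧
      (∀ i j, i ≤ j → j ≤ n → κ (nd i) ≤ κ (nd j)) := by
  classical
  obtain ⟨x₀, hx₀⟩ := hS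
  set s : Finset V := S.toFinset with hs
  have hN : S.ncard = s.card := Set.ncard_eq_toFinset_card' S
  have hpos : 0 < s.card := Finset.card_pos.2 ⟨x₀, by simpa [hs] using hx₀⟩
  let e : Fin s.card ≃ s := s.equivFin.symm
  let f : Fin s.card → ℕ := fun i => κ (e i)
  let σ := Tuple.sort f
  have hmono : Monotone (f ∘ σ) := Tuple.monotone_sort f
  let nd : ℕ → V := fun i => if h : i < s.card then (e (σ ⟨i, h⟩) : V) else x₀
  have hnd : ∀ i (h : i < s.card), nd i = (e (σ ⟨i, h⟩) : V) := fun i h => by
    simp only [nd, h, dif_pos]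
  refine ⟨s.card - 1, nd, by omega, ?_, ?_, ?_, ?_⟩
  · intro i hi
    rw [hnd i (by omega)]
    exact Set.mem_toFinset.1 (e (σ ⟨i, by omega⟩)).2
  · intro i hi j hj h
    rw [hnd i (by omega), hnd j (by omega)] at h
    have := σ.injective (e.injective (Subtype.ext h))
    simpa using this
  · intro x hx
    have hx' : x ∈ s := by simpa [hs] using hx
    refine ⟨(σ.symm (e.symm ⟨x, hx'⟩)).1, by have := (σ.symm (e.symm ⟨x, hx'⟩)).2; omega, ?_⟩
    rw [hnd _ (σ.symm (e.symm ⟨x, hx'⟩)).2]
    simp
  · intro i j hij hj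
    rw [hnd i (by omega), hnd j (by omega)]
    exact hmono (a := ⟨i, by omega⟩) (b := ⟨j, by omega⟩) (by simpa using hij)

theorem vd : VDStm := by
  classical
  intro V _ T r par S D hT hR hrS hDr hDpar huniq
  obtain ⟨hpr, hpar, hadj⟩ := hR
  -- the key
  set M : ℕ := ∑ x, T.dist r x with hM
  have hdM : ∀ x, T.dist r x ≤ M := fun x =>
    Finset.single_le_sum (f := fun x => T.dist r x) (fun _ _ => Nat.zero_le _) (Finset.mem_univ x)
  let κ : V → ℕ := fun x => T.dist r x + if D x then M + 1 else 0
  obtain ⟨n, nd, hn, hndS, hinj, hsurj, hmono⟩ := exists_enum_key S κ ⟨r, hrS⟩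
  have hκD : ∀ x, D x → κ x = T.dist r x + (M + 1) := fun x hx => by simp only [κ, hx, if_true]
  have hκN : ∀ x, ¬ D x → κ x = T.dist r x := fun x hx => by simp only [κ, hx, if_false, add_zero]
  have hκge : ∀ x, T.dist r x ≤ κ x := fun x => by simp only [κ]; omega
  have hnd0 : nd 0 = r := by
    obtain ⟨i, hi, hir⟩ := hsurj r hrS
    have h1 := hmono 0 i (Nat.zero_le _) hi
    rw [hir, hκN r hDr, SimpleGraph.dist_self] at h1
    have h2 := hκge (nd 0)
    have h3 : T.dist r (nd 0) = 0 := by omega
    exact ((hT.connected.dist_eq_zero_iff).1 h3).symm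
  have hDmono : ∀ i j, i ≤ j → j ≤ n → D (nd i) → D (nd j) := by
    intro i j hij hj hD
    by_contra hc
    have h1 := hmono i j hij hj
    rw [hκD _ hD, hκN _ hc] at h1
    have := hdM (nd j)
    omega
  -- the first element of `S` above a vertex
  have hex : ∀ d x, T.dist r x = d → ∃ k, 1 ≤ k ∧ par^[k] x ∈ S := by
    intro d
    induction d using Nat.strong_induction_on with
    | _ d ih =>
      intro x hx
      by_cases hxr : x = r
      · exact ⟨1, le_rfl, by rw [hxr, Function.iterate_one, hpr]; exact hrS⟩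
      · obtain ⟨k, hk, hkS⟩ := ih (T.dist r (par x)) (by have := (hpar x hxr).2; omega) (par x) rfl
        exact ⟨k + 1, by omega, by rw [Function.iterate_succ_apply]; exact hkS⟩
  have hex' : ∀ x, ∃ k, 1 ≤ k ∧ par^[k] x ∈ S := fun x => hex _ x rfl
  let L : V → ℕ := fun x => Nat.find (hex' x)
  have hL1 : ∀ x, 1 ≤ L x := fun x => (Nat.find_spec (hex' x)).1
  have hLS : ∀ x, par^[L x] x ∈ S := fun x => (Nat.find_spec (hex' x)).2
  have hLm : ∀ x k, 1 ≤ k → k < L x → par^[k] x ∉ S := fun x k h1 h2 h3 =>
    Nat.find_min (hex' x) h2 ⟨h1, h3⟩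
  have hne : ∀ x k, x ≠ r → k < L x → par^[k] x ≠ r := by
    intro x k hx hk h
    rcases Nat.eq_zero_or_pos k with h0 | h0
    · subst h0; exact hx h
    · exact hLm x k h0 hk (h ▸ hrS)
  have hdist : ∀ x k, x ≠ r → k ≤ L x → T.dist r (par^[k] x) + k = T.dist r x := by
    intro x k hx
    induction k with
    | zero => intro _; simp
    | succ k ih =>
      intro hk
      have h1 := ih (by omega)
      have h2 := (hpar _ (hne x k hx (by omega))).2
      rw [Function.iterate_succ_apply']
      omega
  have hDk : ∀ x k, x ≠ r → k ≤ L x → D (par^[k] x) → D x := by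
    intro x k hx
    induction k with
    | zero => intro _ h; exact h
    | succ k ih =>
      intro hk h
      rw [Function.iterate_succ_apply'] at h
      exact ih (by omega) (hDpar _ (hne x k hx (by omega)) h)
  -- indices
  have hidx : ∀ x, ∃ i, x ∈ S → i ≤ n ∧ nd i = x := by
    intro x
    by_cases hx : x ∈ S
    · obtain ⟨i, h1, h2⟩ := hsurj x hx
      exact ⟨i, fun _ => ⟨h1, h2⟩⟩
    · exact ⟨0, fun h => absurd h hx⟩
  choose idx hidx using hidx
  have hndr : ∀ i, 1 ≤ i → i ≤ n → nd i ≠ r := by
    intro i h1 h2 h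
    have := hinj i h2 0 (Nat.zero_le _) (h.trans hnd0.symm)
    omega
  let v : ℕ → ℕ → V := fun i k => par^[k] (nd i)
  let len : ℕ → ℕ := fun i => L (nd i)
  let up : ℕ → ℕ := fun i => idx (par^[L (nd i)] (nd i))
  have hup : ∀ i, up i ≤ n ∧ nd (up i) = par^[L (nd i)] (nd i) := fun i => hidx _ (hLS _)
  have hinj2 : ∀ k i j l, 1 ≤ i → i ≤ n → 1 ≤ j → j ≤ n → k < len i → l < len j → v i k = v j l →
      i = j ∧ k = l := by
    intro k
    induction k with
    | zero =>
      intro i j l hi1 hi hj1 hj hk hl h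
      rcases Nat.eq_zero_or_pos l with h0 | h0
      · subst h0
        exact ⟨hinj i hi j hj h, rfl⟩
      · exfalso
        have h1 := hLm (nd j) l h0 hl
        have h2 : v i 0 = par^[l] (nd j) := h
        rw [← h2] at h1
        exact h1 (hndS i hi)
    | succ k ih =>
      intro i j l hi1 hi hj1 hj hk hl h
      have h1 : v i (k + 1) ∉ S := hLm (nd i) (k + 1) (by omega) hk
      rcases l with _ | l
      · exfalso
        rw [h] at h1
        exact h1 (hndS j hj)
      · obtain ⟨y, hy, hyx, hyu⟩ := huniq _ h1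
        have e1 : v i k = y := hyu _ (hne (nd i) k (hndr i hi1 hi) (by simp only [len] at hk; omega))
          (Function.iterate_succ_apply' par k (nd i)).symm
        have e2 : v j l = y := hyu _ (hne (nd j) l (hndr j hj1 hj) (by simp only [len] at hl; omega))
          (by rw [h]; exact (Function.iterate_succ_apply' par l (nd j)).symm)
        have := ih i j l hi1 hi hj1 hj (by omega) (by omega) (e1.trans e2.symm)
        exact ⟨this.1, by rw [this.2]⟩
  have hcov : ∀ d x, T.dist r x + d = M + 1 →
      x = r ∨ ∃ i, 1 ≤ i ∧ i ≤ n ∧ ∃ k < len i, x = v i k := by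
    intro d
    induction d with
    | zero => intro x hx; have := hdM x; omega
    | succ d ih =>
      intro x hx
      by_cases hxS : x ∈ S
      · obtain ⟨i, hi, hix⟩ := hsurj x hxS
        rcases Nat.eq_zero_or_pos i with h0 | h0
        · left; rw [← hix, h0, hnd0]
        · exact Or.inr ⟨i, h0, hi, 0, hL1 _, hix.symm⟩
      · obtain ⟨y, hy, hyx, -⟩ := huniq x hxS
        have h1 := (hpar y hy).2
        rw [hyx] at h1
        rcases ih y (by omega) with h2 | ⟨i, hi1, hi, k, hk, hyv⟩
        · exact absurd h2 hy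
        · refine Or.inr ⟨i, hi1, hi, k + 1, ?_, ?_⟩
          · by_contra hc
            have hk' : k < L (nd i) := hk
            have hc' : ¬ (k + 1 < L (nd i)) := hc
            have e : k + 1 = L (nd i) := by omega
            have : x = par^[L (nd i)] (nd i) := by
              rw [← e, Function.iterate_succ_apply', ← hyx, hyv]
            exact hxS (this ▸ hLS _)
          · rw [← hyx, hyv]
            exact (Function.iterate_succ_apply' par k (nd i)).symm
  have hcov' : ∀ x, x = r ∨ ∃ i, 1 ≤ i ∧ i ≤ n ∧ ∃ k < len i, x = v i k := fun x =>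
    hcov (M + 1 - T.dist r x) x (by have := hdM x; omega)
  refine ⟨n, Nat.findGreatest (fun i => ¬ D (nd i)) n, up, len, v, ⟨?_, ?_, ?_⟩, hn,
    Nat.findGreatest_le n, hnd0, hndS, hinj, hsurj, ?_, ?_, ?_⟩
  · intro i hi1 hi
    refine ⟨?_, hL1 _, (hup i).2.symm, ?_⟩
    · by_contra hc
      push Not at hc
      have h1 := hmono i (up i) hc (hup i).1
      have h2 := hdist (nd i) (L (nd i)) (hndr i hi1 hi) le_rfl
      have h3 := hDk (nd i) (L (nd i)) (hndr i hi1 hi) le_rfl
      have h4 := hL1 (nd i)
      rw [← (hup i).2] at h2 h3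
      by_cases hD : D (nd (up i))
      · rw [hκD _ hD, hκD _ (h3 hD)] at h1
        omega
      · rw [hκN _ hD] at h1
        have := hκge (nd i)
        omega
    · intro k hk
      have h1 : v i (k + 1) = par (v i k) := Function.iterate_succ_apply' par k (nd i)
      rw [h1]
      exact ((hpar _ (hne (nd i) k (hndr i hi1 hi) hk)).1).symm
  · intro x
    rcases hcov' x with h | h
    · left; rw [h]; exact hnd0.symm
    · exact Or.inr h
  · have hc : ((Finset.Icc 1 n).sigma fun i => Finset.range (len i)).card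
        = (Finset.univ.erase r : Finset V).card := by
      apply Finset.card_bij (fun p _ => v p.1 p.2)
      · rintro ⟨i, k⟩ hp
        rw [Finset.mem_sigma, Finset.mem_Icc, Finset.mem_range] at hp
        exact Finset.mem_erase.2 ⟨hne (nd i) k (hndr i hp.1.1 hp.1.2) hp.2, Finset.mem_univ _⟩
      · rintro ⟨i, k⟩ hp ⟨j, l⟩ hq h
        rw [Finset.mem_sigma, Finset.mem_Icc, Finset.mem_range] at hp hq
        obtain ⟨h1, h2⟩ := hinj2 k i j l hp.1.1 hp.1.2 hq.1.1 hq.1.2 hp.2 hq.2 h
        subst h1; subst h2; rfl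
      · intro x hx
        rcases hcov' x with h | ⟨i, hi1, hi, k, hk, h⟩
        · exact absurd h (Finset.mem_erase.1 hx).1
        · exact ⟨⟨i, k⟩, Finset.mem_sigma.2 ⟨Finset.mem_Icc.2 ⟨hi1, hi⟩, Finset.mem_range.2 hk⟩,
            h.symm⟩
    rw [Finset.card_sigma] at hc
    simp only [Finset.card_range] at hc
    rw [hc, Finset.card_erase_of_mem (Finset.mem_univ r), Finset.card_univ]
    have : 0 < Fintype.card V := Fintype.card_pos_iff.2 ⟨r⟩
    omega
  · intro i hi1 hi k hk
    exact ⟨Function.iterate_succ_apply' par k (nd i), fun h1 => hLm (nd i) k h1 hk⟩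
  · intro i hi
    constructor
    · intro hD
      by_contra hc
      push Not at hc
      have h1 : ¬ D (nd (Nat.findGreatest (fun i => ¬ D (nd i)) n)) :=
        Nat.findGreatest_spec (P := fun i => ¬ D (nd i)) (Nat.zero_le n) (by rw [hnd0]; exact hDr)
      exact h1 (hDmono _ _ hc (Nat.findGreatest_le n) hD)
    · intro h
      by_contra hD
      have := Nat.le_findGreatest (P := fun i => ¬ D (nd i)) hi hD
      omega
  · have hDi : ∀ i, i ≤ n → (D (nd i) ↔ Nat.findGreatest (fun i => ¬ D (nd i)) n < i) := by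
      intro i hi
      constructor
      · intro hD
        by_contra hc
        push Not at hc
        have h1 : ¬ D (nd (Nat.findGreatest (fun i => ¬ D (nd i)) n)) :=
          Nat.findGreatest_spec (P := fun i => ¬ D (nd i)) (Nat.zero_le n) (by rw [hnd0]; exact hDr)
        exact h1 (hDmono _ _ hc (Nat.findGreatest_le n) hD)
      · intro h
        by_contra hD
        have := Nat.le_findGreatest (P := fun i => ¬ D (nd i)) hi hD
        omega
    intro i j hij hj h
    have h1 := hmono i j hij.le hj
    show T.dist r (nd i) ≤ T.dist r (nd j)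
    rcases h with h | h
    · have a1 : ¬ D (nd i) := fun hD => by have := (hDi i (by omega)).1 hD; omega
      have a2 : ¬ D (nd j) := fun hD => by have := (hDi j hj).1 hD; omega
      rw [hκN _ a1, hκN _ a2] at h1
      exact h1
    · have a1 : D (nd i) := (hDi i (by omega)).2 h
      have a2 : D (nd j) := (hDi j hj).2 (by omega)
      rw [hκD _ a1, hκD _ a2] at h1
      omega

end Pool.Agent.Y790.TR
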