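import Pool.Agent.Y790.TR.Def2
import Pool.Agent.Y790.LE.All

/-!
# All networks with at most `N` long threads, uniform constants (job TR2-MAIN)
-/

set_option autoImplicit false

namespace Pool.Agent.Y790.TR

open Pool.Agent.Y790.LG (Od Sm rt cst hd Lg Kst prd Cls ClsStm Lags)

namespace MainNet

theorem netL_congr {e : ℤ} {n : ℕ} {up up' len : ℕ → ℕ} {g : ℕ}
    (h : ∀ i, 1 ≤ i → i ≤ n → up i = up' i) (hN : NetL e n up len g) : NetL e n up' len g := by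
  obtain ⟨A, B, b, T, G, h1, h2, h3, h4, h5, h6, h7, h8, h9, h10, h11, h12, h13, h14⟩ := hN
  refine ⟨A, B, b, T, G, h1, h2, h3, h4, h5, h6, h7, h8, h9, h10, ?_, h12, ?_, h14⟩
  · intro i hi1 hi
    rw [← h i hi1 hi]
    exact h11 i hi1 hi
  · intro v hv1 hv2 hv3
    rcases h13 v hv1 hv2 hv3 with ⟨i, hi1, hi, hs⟩ | hs
    · refine Or.inl ⟨i, hi1, hi, ?_⟩
      rw [← h i hi1 hi]
      exact hs
    · exact Or.inr hs

/-- the sides of the nodes are determined by the lengths of the threads -/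
theorem exists_sides (n : ℕ) (up len : ℕ → ℕ) (hup : ∀ i, 1 ≤ i → i ≤ n → up i < i) :
    ∃ sd : ℕ → ℤ, sd 0 = 1 ∧ (∀ i, sd i = 0 ∨ sd i = 1) ∧
      ∀ i, 1 ≤ i → i ≤ n → ((len i : ℤ) + sd i + sd (up i)) % 2 = 0 := by
  have key : ∀ m, m ≤ n → ∃ sd : ℕ → ℤ, sd 0 = 1 ∧ (∀ i, sd i = 0 ∨ sd i = 1) ∧
      ∀ i, 1 ≤ i → i ≤ m → ((len i : ℤ) + sd i + sd (up i)) % 2 = 0 := by
    intro m
    induction m with
    | zero => exact fun _ => ⟨fun _ => 1, rfl, fun _ => Or.inr rfl, fun i h1 h2 => by omega⟩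
    | succ m ih =>
      intro hm
      obtain ⟨sd, s0, s1, s2⟩ := ih (by omega)
      refine ⟨Function.update sd (m + 1) (((len (m + 1) : ℤ) + sd (up (m + 1))) % 2), ?_, ?_, ?_⟩
      · rw [Function.update_of_ne (by omega)]
        exact s0
      · intro i
        by_cases hi : i = m + 1
        · subst hi
          rw [Function.update_self]
          omega
        · rw [Function.update_of_ne hi]
          exact s1 i
      · intro i hi1 hi
        have hui := hup i hi1 (by omega)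
        rcases Nat.lt_or_ge i (m + 1) with h | h
        · rw [Function.update_of_ne (by omega), Function.update_of_ne (by omega)]
          exact s2 i hi1 (by omega)
        · obtain rfl : i = m + 1 := by omega
          rw [Function.update_self, Function.update_of_ne (by omega)]
          omega
  exact key n le_rfl

/-- finitely many data -/
abbrev Dt (N : ℕ) : Type := Fin (N + 1) × (Fin (N + 1) → Fin (N + 1)) × (Fin (N + 1) → Bool)

def dup {N : ℕ} (d : Dt N) (i : ℕ) : ℕ := if h : i < N + 1 then (d.2.1 ⟨i, h⟩ : ℕ) else 0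

def dsd {N : ℕ} (d : Dt N) (i : ℕ) : ℤ :=
  if h : i < N + 1 then (if d.2.2 ⟨i, h⟩ then 1 else 0) else 0

theorem dsd_or {N : ℕ} (d : Dt N) (i : ℕ) : dsd d i = 0 ∨ dsd d i = 1 := by
  unfold dsd
  split_ifs <;> simp

/-- admissible data -/
def Adm {N : ℕ} (d : Dt N) : Prop :=
  1 ≤ (d.1 : ℕ) ∧ (∀ i, 1 ≤ i → i ≤ (d.1 : ℕ) → dup d i < i) ∧ dsd d 0 = 1

theorem exists_data {N n : ℕ} (hn1 : 1 ≤ n) (hn : n ≤ N) (up : ℕ → ℕ) (sd : ℕ → ℤ)
    (hup : ∀ i, 1 ≤ i → i ≤ n → up i < i) (s0 : sd 0 = 1) (s1 : ∀ i, sd i = 0 ∨ sd i = 1) :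
    ∃ d : Dt N, Adm d ∧ (d.1 : ℕ) = n ∧ (∀ i, 1 ≤ i → i ≤ n → dup d i = up i) ∧
      ∀ i ≤ n, dsd d i = sd i := by
  classical
  obtain ⟨u, hu⟩ : ∃ u : Fin (N + 1) → Fin (N + 1), ∀ i : Fin (N + 1), 1 ≤ (i : ℕ) →
      (i : ℕ) ≤ n → (u i : ℕ) = up i := by
    refine ⟨fun i => if h : 1 ≤ (i : ℕ) ∧ (i : ℕ) ≤ n then ⟨up i, by
      have := hup i h.1 h.2
      omega⟩ else 0, fun i h1 h2 => ?_⟩
    simp only [h1, h2, and_self, dif_pos]
  refine ⟨(⟨n, by omega⟩, u, fun i => decide (sd i = 1)), ?_, rfl, ?_, ?_⟩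
  · refine ⟨hn1, ?_, ?_⟩
    · intro i hi1 hi
      simp only at hi
      unfold dup
      rw [dif_pos (by omega)]
      simp only
      rw [hu ⟨i, by omega⟩ hi1 hi]
      exact hup i hi1 hi
    · unfold dsd
      rw [dif_pos (by omega)]
      simp [s0]
  · intro i hi1 hi
    unfold dup
    rw [dif_pos (by omega)]
    simp only
    rw [hu ⟨i, by omega⟩ hi1 hi]
  · intro i hi
    unfold dsd
    rw [dif_pos (by omega)]
    simp only
    rcases s1 i with h | h <;> simp [h]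

theorem odd_prod (N : ℕ) : (∏ i ∈ Finset.range (N + 1), (2 * i + 1)) % 2 = 1 := by
  induction N with
  | zero => simp
  | succ N ih =>
    rw [Finset.prod_range_succ, Nat.mul_mod, ih]
    omega

end MainNet

open MainNet

theorem mainNet (hg : GrowStm) (hc : CloseStm)
    (hp : ∀ (K n : ℕ), K % 8 = 1 → (∀ i ≤ n, 2 * i + 1 ∣ K) → (2 * n + 1) ^ 2 + 8 * (2 * n + 1) ≤ K →
      Lags n (PK K) ∧ 1 ≤ PK K n ∧ ∀ i ≤ n, PK K i % 2 = 0) : MainNetStm := by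
  intro N
  classical
  obtain ⟨Q, hQ⟩ : ∃ Q, Q = ∏ i ∈ Finset.range (N + 1), (2 * i + 1) := ⟨_, rfl⟩
  have hQ1 : Q % 2 = 1 := by rw [hQ]; exact odd_prod N
  have hQd : ∀ i ≤ N, 2 * i + 1 ∣ Q := fun i hi => by
    rw [hQ]
    exact Finset.dvd_prod_of_mem (fun i => 2 * i + 1) (Finset.mem_range.2 (by omega))
  obtain ⟨M, hM⟩ : ∃ M, M = 17 * (2 * N + 1) ^ 3 * Q := ⟨_, rfl⟩
  have hM1 : M % 2 = 1 := by
    have h1 : Odd M := by
      rw [hM]
      refine (Odd.mul (by decide) (Odd.pow ⟨N, rfl⟩)).mul (Nat.odd_iff.2 hQ1)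
    exact Nat.odd_iff.1 h1
  have hMd : ∀ i ≤ N, 2 * i + 1 ∣ M := fun i hi => by
    rw [hM]
    exact (hQd i hi).mul_left _
  have hMge : 17 * (2 * N + 1) ^ 3 ≤ M := by
    rw [hM]
    exact Nat.le_mul_of_pos_right _ (by omega)
  -- the uniform invariant
  have hK1 : ∀ d : Dt N, ∃ K₁ : ℕ, Adm d → ∀ K ≥ K₁, K % (8 * M) = M * M % (8 * M) →
      ∃ (A B : ℤ) (c : ℕ → ℕ) (b : ℕ → ℤ),
        Out (d.1 : ℕ) A B (Kst (d.1 : ℕ) (PK K (d.1 : ℕ)) 0) c b ∧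
        (∀ i ≤ (d.1 : ℕ), b i % 2 = dsd d i) ∧ c (2 * (d.1 : ℕ)) = 0 ∧ Pr (d.1 : ℕ) (dup d) c := by
    intro d
    by_cases hd : Adm d
    · obtain ⟨K₁, h1⟩ := hg N M hM1 hMd hMge (d.1 : ℕ) hd.1 (by have := d.1.2; omega) (dup d)
        (dsd d) hd.2.1 (fun i _ => dsd_or d i) hd.2.2
      exact ⟨K₁, fun _ => h1⟩
    · exact ⟨0, fun h => absurd h hd⟩
  choose K₁ hK₁ using hK1
  obtain ⟨K, hK⟩ : ∃ K, K = M * M + 8 * M * Finset.univ.sup K₁ := ⟨_, rfl⟩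
  have hMpos : 1 ≤ M := by omega
  have hKge : ∀ d : Dt N, K₁ d ≤ K := by
    intro d
    have h1 : K₁ d ≤ Finset.univ.sup K₁ := Finset.le_sup (Finset.mem_univ d)
    have h2 : Finset.univ.sup K₁ ≤ 8 * M * Finset.univ.sup K₁ :=
      Nat.le_mul_of_pos_left _ (by omega)
    rw [hK]
    omega
  have hKmod : K % (8 * M) = M * M % (8 * M) := by
    rw [hK, Nat.add_mul_mod_self_left]
  have hK8 : K % 8 = 1 := by
    have h1 : K % 8 = M * M % 8 := by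
      rw [hK, mul_assoc 8, Nat.add_mul_mod_self_left]
    rw [h1, Nat.mul_mod]
    have h2 : M % 8 = 1 ∨ M % 8 = 3 ∨ M % 8 = 5 ∨ M % 8 = 7 := by omega
    rcases h2 with h | h | h | h <;> rw [h]
  have hKd : ∀ i ≤ N, 2 * i + 1 ∣ K := by
    intro i hi
    have h1 : M ∣ K := by
      rw [hK]
      exact (Dvd.intro _ rfl).add ((Dvd.intro_left 8 rfl).mul_right _)
    exact (hMd i hi).trans h1
  have hKbig : ∀ n ≤ N, (2 * n + 1) ^ 2 + 8 * (2 * n + 1) ≤ K := by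
    intro n hn
    have h1 : (2 * n + 1) ^ 3 ≤ (2 * N + 1) ^ 3 := Nat.pow_le_pow_left (by omega) 3
    have h2 : M ≤ K := by
      have : M ≤ M * M := Nat.le_mul_of_pos_left _ hMpos
      rw [hK]
      omega
    have h3 : (2 * n + 1) ^ 2 ≤ (2 * n + 1) ^ 3 := Nat.pow_le_pow_right (by omega) (by omega)
    have h4 : 2 * n + 1 ≤ (2 * n + 1) ^ 3 := Nat.le_self_pow (by omega) _
    omega
  have hpN := hp K N hK8 hKd (hKbig N le_rfl)
  -- the constants for the data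
  have hC1 : ∀ d : Dt N, ∃ C : ℕ, Adm d → ∀ (len : ℕ → ℕ) (g : ℕ),
      (∀ i, 1 ≤ i → i ≤ (d.1 : ℕ) → ((len i : ℤ) + dsd d i + dsd d (dup d i)) % 2 = 0) →
      (∀ i, 1 ≤ i → i ≤ (d.1 : ℕ) → C ≤ len i) →
      (∀ i, 1 ≤ i → i ≤ (d.1 : ℕ) → len i + C ≤ 2 * g) → C ≤ g →
      NetL (PK K 0 : ℤ) (d.1 : ℕ) (dup d) len g := by
    intro d
    by_cases hd : Adm d
    · have hdN : (d.1 : ℕ) ≤ N := by have := d.1.2; omega
      obtain ⟨A, B, c, b, o1, o2, o3, o4⟩ := hK₁ d hd K (hKge d) hKmod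
      obtain ⟨l1, l2, l3⟩ := hp K (d.1 : ℕ) hK8 (fun i hi => hKd i (hi.trans hdN))
        (hKbig _ hdN)
      obtain ⟨C₀, hC₀⟩ := @Pool.Agent.Y790.LE.allTop ⟨(PK K 0 : ℤ)⟩ (d.1 : ℕ) (PK K) l1 rfl l2
      obtain ⟨C, hC⟩ := hc (PK K 0 : ℤ) (d.1 : ℕ) (PK K (d.1 : ℕ)) A B c b (dup d) (dsd d) C₀
        (l3 _ le_rfl) o1 o2 o3 o4 hd.2.1 (fun ℓ g => hC₀ 0 (Nat.zero_le _) ℓ g)
      exact ⟨C, fun _ => hC⟩
    · exact ⟨0, fun h => absurd h hd⟩
  choose C hC using hC1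
  refine ⟨(PK K 0 : ℤ), Finset.univ.sup C, ?_, ?_, ?_⟩
  · have := hpN.2.2 0 (Nat.zero_le _)
    omega
  · positivity
  · intro n hn1 hn up len g hup hlen hlg hCg
    obtain ⟨sd, s0, s1, s2⟩ := exists_sides n up len hup
    obtain ⟨d, ha, hdn, hdu, hds⟩ := exists_data hn1 hn up sd hup s0 s1
    have hCd : C d ≤ Finset.univ.sup C := Finset.le_sup (Finset.mem_univ d)
    have h1 := hC d ha len g
    rw [hdn] at h1
    refine netL_congr hdu (h1 ?_ ?_ ?_ (by omega))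
    · intro i hi1 hi
      have h2 := hup i hi1 hi
      rw [hdu i hi1 hi, hds i hi, hds (up i) (by omega)]
      exact s2 i hi1 hi
    · intro i hi1 hi
      have := hlen i hi1 hi
      omega
    · intro i hi1 hi
      have := hlg i hi1 hi
      omega

end Pool.Agent.Y790.TR
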