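import Pool.Agent.Y790.TR.OpenR

/-!
# Trees with long threads: the lags from one invariant (helper261)
-/

set_option autoImplicit false

namespace Pool.Agent.Y790.TR

open Pool.Agent.Y790.LG (Od Sm rt cst hd Lg Kst prd Cls ClsStm Lags)

theorem pkLags : ∀ (K n : ℕ), K % 8 = 1 → (∀ i ≤ n, 2 * i + 1 ∣ K) →
    (2 * n + 1) ^ 2 + 8 * (2 * n + 1) ≤ K →
    Lags n (PK K) ∧ 1 ≤ PK K n ∧ ∀ i ≤ n, PK K i % 2 = 0 := by
  intro K n h8 hd hK
  have hsq : ∀ i ≤ n, (2 * i + 1) ^ 2 ≤ K := by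
    intro i hi
    have h1 : (2 * i + 1) ^ 2 ≤ (2 * n + 1) ^ 2 := Nat.pow_le_pow_left (by omega) 2
    omega
  have hf : ∀ i ≤ n, 4 * (2 * i + 1) * PK K i + (2 * i + 1) ^ 2 = K ∧ PK K i % 2 = 0 :=
    fun i hi => PK_fact i K (hd i hi) h8 (hsq i hi)
  refine ⟨⟨fun m hm => (hf m hm).2, fun m hm => ?_⟩, ?_, fun i hi => (hf i hi).2⟩
  · have h1 := (hf m hm.le).1
    have h2 := (hf (m + 1) hm).1
    have h3 : 4 * (PK K m * (2 * m + 1)) =
        4 * (PK K (m + 1) * (2 * m + 3) + (2 * m + 2)) := by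
      have e1 : 4 * (2 * m + 1) * PK K m = 4 * (PK K m * (2 * m + 1)) := by ring
      have e2 : 4 * (2 * (m + 1) + 1) * PK K (m + 1) = 4 * (PK K (m + 1) * (2 * m + 3)) := by
        ring
      have e3 : (2 * (m + 1) + 1) ^ 2 = (2 * m + 1) ^ 2 + 4 * (2 * m + 2) := by ring
      rw [e1] at h1
      rw [e2, e3] at h2
      omega
    omega
  · by_contra h
    have h0 : PK K n = 0 := by omega
    have h1 := (hf n le_rfl).1
    rw [h0, mul_zero, zero_add] at h1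
    omega

end Pool.Agent.Y790.TR
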