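import Pool.Agent.Y790.TR.Def2

/-!
# The network theorem
-/

set_option autoImplicit false

namespace Pool.Agent.Y790.TR

open Pool.Agent.Y790.LG (Od Sm rt cst hd Lg Kst prd Cls ClsStm Lags)

/-- only the values at the indices `1, …, n` matter -/
theorem net_NetF_congr {n : ℕ} {up len up' len' : ℕ → ℕ} (hu : ∀ i, 1 ≤ i → i ≤ n → up i = up' i)
    (hl : ∀ i, 1 ≤ i → i ≤ n → len i = len' i) (h : NetF n up len) : NetF n up' len' := by
  obtain ⟨A, B, b, T, h1, h2, h3, h4, h5, h6, h7, h8, h9, h10⟩ := h
  refine ⟨A, B, b, T, h1, h2, h3, ?_, ?_, h6, h7, h8, ?_, ?_⟩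
  · rw [h4]
    have : ∑ i ∈ Finset.Icc 1 n, (len i : ℤ) = ∑ i ∈ Finset.Icc 1 n, (len' i : ℤ) := by
      refine Finset.sum_congr rfl ?_
      intro i hi
      have hi' := Finset.mem_Icc.mp hi
      rw [hl i hi'.1 hi'.2]
    rw [this]
  · intro i hi hin
    rw [← hl i hi hin]
    exact h5 i hi hin
  · intro i hi hin
    rw [← hu i hi hin]
    exact h9 i hi hin
  · intro v hv1 hv2 hv3
    obtain ⟨i, hi, hin, hs⟩ := h10 v hv1 hv2 hv3
    refine ⟨i, hi, hin, ?_⟩
    rw [← hu i hi hin]
    exact hs

theorem netThm (hm : MainNetStm) (hh : HalveStm) (he : EndStm) (hj : JoinStm) : NetThmStm := by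
  intro N
  obtain ⟨e, C', he2, he0, hM⟩ := hm (2 * N)
  refine ⟨4 * C' + 20, ?_⟩
  intro n n₁ up len hnN hn1 hn1n hup hup0 hC hmax hside
  have hL := hC (n₁ + 1) (by omega) (by omega)
  by_cases hcase : n = n₁ + 1
  · subst hcase
    have h1 : NetL e n₁ up len (len (n₁ + 1)) := by
      refine hM n₁ hn1 (by omega) up len (len (n₁ + 1)) (fun i h1 h2 => hup i h1 (by omega)) ?_ ?_
        (by omega)
      · intro i h1 h2
        have := hC i h1 (by omega)
        omega
      · intro i h1 h2
        have := hC i h1 (by omega)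
        have := hmax i h1 (by omega)
        omega
    have h2 := he e n₁ up len (len (n₁ + 1)) (by omega) (fun i h1 h2 => hup i h1 (by omega)) h1
    refine net_NetF_congr ?_ ?_ h2
    · intro i h1 h2
      by_cases h : i = n₁ + 1
      · rw [if_pos h, h, hup0]
      · rw [if_neg h]
    · intro i h1 h2
      by_cases h : i = n₁ + 1
      · rw [if_pos h, h]
      · rw [if_neg h]
  · have key : ∀ (m : ℕ) (u l : ℕ → ℕ) (g : ℕ), 1 ≤ m → m ≤ N → (∀ i, 1 ≤ i → i ≤ m → u i < i) →
        (∀ i, 1 ≤ i → i ≤ m → 4 * C' + 20 ≤ l i) → (∀ i, 1 ≤ i → i ≤ m → l i ≤ len (n₁ + 1)) →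
        len (n₁ + 1) ≤ 2 * g + 2 → NetL e m u l g := by
      intro m u l g hm1 hmN hu hl hlL hg
      refine hh e m u l (fun j => if j % 2 = 0 then j - 1 else 2 * u ((j + 1) / 2))
        (fun j => if j % 2 = 0 then l (j / 2) / 2 else l ((j + 1) / 2) - l ((j + 1) / 2) / 2) g hu ?_ ?_
      · intro i h1 h2
        have e1 : (2 * i) % 2 = 0 := by omega
        have e2 : ¬ (2 * i - 1) % 2 = 0 := by omega
        have e3 : (2 * i - 1 + 1) / 2 = i := by omega
        have e4 : 2 * i / 2 = i := by omega
        have := hl i h1 h2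
        beta_reduce
        rw [if_pos e1, if_neg e2, if_pos e1, if_neg e2, e3, e4]
        refine ⟨rfl, rfl, ?_, ?_, ?_⟩ <;> omega
      · refine hM (2 * m) (by omega) (by omega) _ _ g ?_ ?_ ?_ ?_
        · intro j h1 h2
          beta_reduce
          split_ifs with h
          · omega
          · have := hu ((j + 1) / 2) (by omega) (by omega)
            omega
        · intro j h1 h2
          beta_reduce
          split_ifs with h
          · have := hl (j / 2) (by omega) (by omega)
            omega
          · have := hl ((j + 1) / 2) (by omega) (by omega)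
            omega
        · intro j h1 h2
          beta_reduce
          split_ifs with h
          · have := hlL (j / 2) (by omega) (by omega)
            omega
          · have := hlL ((j + 1) / 2) (by omega) (by omega)
            omega
        · omega
    obtain ⟨n₂, rfl⟩ : ∃ n₂, n = n₁ + 1 + n₂ := ⟨n - (n₁ + 1), by omega⟩
    have k1 : NetL e n₁ up len ((len (n₁ + 1) - 1) / 2) := by
      refine key n₁ up len _ hn1 (by omega) (fun i h1 h2 => hup i h1 (by omega))
        (fun i h1 h2 => hC i h1 (by omega)) (fun i h1 h2 => hmax i h1 (by omega)) (by omega)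
    have k2 : NetL e n₂ (fun i => up (i + (n₁ + 1)) - (n₁ + 1)) (fun i => len (i + (n₁ + 1)))
        (len (n₁ + 1) - 1 - (len (n₁ + 1) - 1) / 2) := by
      refine key n₂ _ _ _ (by omega) (by omega) ?_ ?_ ?_ (by omega)
      · intro i h1 h2
        have a1 := hup (i + (n₁ + 1)) (by omega) (by omega)
        beta_reduce
        omega
      · intro i h1 h2
        exact hC (i + (n₁ + 1)) (by omega) (by omega)
      · intro i h1 h2
        exact hmax (i + (n₁ + 1)) (by omega) (by omega)
    have h3 := hj e n₁ n₂ up len _ _ _ _ he2 (fun i h1 h2 => hup i h1 (by omega)) (by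
      intro i h1 h2
      have a1 := hup (i + (n₁ + 1)) (by omega) (by omega)
      beta_reduce
      omega) k1 k2
    refine net_NetF_congr ?_ ?_ h3
    · intro i h1 h2
      beta_reduce
      by_cases h : i ≤ n₁
      · rw [if_pos h]
      · rw [if_neg h]
        by_cases h' : i = n₁ + 1
        · rw [if_pos h', h', hup0]
        · rw [if_neg h']
          have a1 := hside i (by omega) h2
          have a2 : i - (n₁ + 1) + (n₁ + 1) = i := by omega
          rw [a2]
          omega
    · intro i h1 h2
      beta_reduce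
      by_cases h : i ≤ n₁
      · rw [if_pos h]
      · rw [if_neg h]
        by_cases h' : i = n₁ + 1
        · rw [if_pos h', h']
          omega
        · rw [if_neg h']
          have a2 : i - (n₁ + 1) + (n₁ + 1) = i := by omega
          rw [a2]

end Pool.Agent.Y790.TR
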