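import Pool.Agent.Y790.TR.Def2
import Pool.Agent.Y790.LG.Core

/-!
# Two networks are joined by an edge between the last vertices of the free paths
-/

set_option autoImplicit false

namespace Pool.Agent.Y790.TR

open Pool.Agent.Y790.LG (Od Sm Sm.inFx Sm.reverse chain_reverse)

/-- the positions before the even bases `E` (even positions) and `O` (odd positions) -/
def NN (E O z : ℤ) : Prop := 0 ≤ z ∧ (z % 2 = 0 → z < E) ∧ (z % 2 = 1 → z < O)

lemma in_iff_NN {E O z : ℤ} (hE : E % 2 = 0) : In E O z ↔ NN E O z := by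
  unfold In NN
  constructor
  · rintro ⟨h1, h2, h3⟩
    refine ⟨h1, fun h => h2 (by omega), fun h => h3 (by omega)⟩
  · rintro ⟨h1, h2, h3⟩
    refine ⟨h1, fun h => h2 (by omega), fun h => h3 (by omega)⟩

/-- a network with a free path in normal form -/
def NetN (e : ℤ) (n : ℕ) (up len : ℕ → ℕ) (g : ℕ) (E O u : ℤ) (b : ℕ → ℤ) (T : ℕ → List ℤ)
    (G : List ℤ) : Prop :=
  E % 2 = 0 ∧ O % 2 = 0 ∧ 0 ≤ E ∧ 0 ≤ O ∧
    E + O = 2 * (1 + ∑ i ∈ Finset.Icc 1 n, (len i : ℤ) + g) ∧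
    (∀ i, 1 ≤ i → i ≤ n → (T i).length + 1 = len i) ∧ G.length = g ∧
    (∀ z : ℤ, NN E O z → (∃ i ≤ n, b i = z) ∨ (∃ i, 1 ≤ i ∧ i ≤ n ∧ z ∈ T i) ∨ z ∈ G) ∧
    (∀ i ≤ n, NN E O (b i)) ∧ (∀ i, 1 ≤ i → i ≤ n → ∀ z ∈ T i, NN E O z) ∧ (∀ z ∈ G, NN E O z) ∧
    (∀ i, 1 ≤ i → i ≤ n → (b i :: (T i ++ [b (up i)])).IsChain Od) ∧ (b 0 :: G).IsChain Od ∧
    (∀ v : ℤ, v % 2 = 1 → 1 ≤ v → v < E + O - 1 →
      (∃ i, 1 ≤ i ∧ i ≤ n ∧ Sm (b i :: (T i ++ [b (up i)])) v) ∨ Sm (b 0 :: G) v) ∧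
    (b 0 :: G).getLast? = some u ∧ (u = O - 1 - e ∨ u = E - 2 - e)

lemma netN_of_netL {e : ℤ} {n : ℕ} {up len : ℕ → ℕ} {g : ℕ} (he : e % 2 = 0)
    (h : NetL e n up len g) : ∃ E O u b T G, NetN e n up len g E O u b T G := by
  obtain ⟨A, B, b, T, G, hAB, hA, hB, hs, hT, hG, hc, hb, hTi, hGi, hch, hch0, hv, hl⟩ := h
  by_cases hA2 : A % 2 = 0
  · have hi : ∀ z, In A B z ↔ NN A B z := fun z => in_iff_NN hA2
    simp only [hi] at hc hb hTi hGi
    refine ⟨A, B, _, b, T, G, hA2, by omega, hA, hB, hs, hT, hG, hc, hb, hTi, hGi, hch, hch0, hv, hl,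
      Or.inl ?_⟩
    unfold em
    rw [if_neg (by omega)]
    ring
  · have hi : ∀ z, In A B z ↔ NN (B + 1) (A - 1) z := by
      intro z
      unfold In NN
      constructor
      · rintro ⟨h1, h2, h3⟩
        refine ⟨h1, fun h => ?_, fun h => ?_⟩
        · have := h3 (by omega)
          omega
        · have := h2 (by omega)
          omega
      · rintro ⟨h1, h2, h3⟩
        refine ⟨h1, fun h => ?_, fun h => ?_⟩
        · have := h3 (by omega)
          omega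
        · have := h2 (by omega)
          omega
    simp only [hi] at hc hb hTi hGi
    refine ⟨B + 1, A - 1, _, b, T, G, by omega, by omega, by omega, by omega, by linarith, hT, hG, hc,
      hb, hTi, hGi, hch, hch0, fun v h1 h2 h3 => hv v h1 h2 (by linarith), hl, Or.inr ?_⟩
    unfold em
    rw [if_neg (by omega)]
    ring

/-- reflection with different centres for the even and the odd positions -/
def ph (X Y z : ℤ) : ℤ := if z % 2 = 0 then X - z else Y - z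

lemma ph_sum {X Y a b : ℤ} (h : Od a b) : ph X Y a + ph X Y b = X + Y - (a + b) := by
  unfold Od at h
  unfold ph
  split_ifs
  · omega
  · ring
  · ring
  · omega

lemma ph_od {X Y a b : ℤ} (hXY : (X + Y) % 2 = 0) (h : Od a b) : Od (ph X Y a) (ph X Y b) := by
  have h1 := ph_sum (X := X) (Y := Y) h
  unfold Od at *
  omega

lemma chain_ph {X Y : ℤ} (hXY : (X + Y) % 2 = 0) {l : List ℤ} (h : l.IsChain Od) :
    (l.map (ph X Y)).IsChain Od := by
  rw [List.isChain_map]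
  exact h.imp fun _ _ h => ph_od hXY h

lemma sm_ph {X Y : ℤ} {l : List ℤ} {v : ℤ} (hc : l.IsChain Od) (h : Sm l v) :
    Sm (l.map (ph X Y)) (X + Y - v) := by
  obtain ⟨a, b, ⟨s, t, h1⟩, h2⟩ := h
  have hab : Od a b := by
    rw [← h1] at hc
    have h3 : ([a, b] : List ℤ).IsChain Od := hc.left_of_append.right_of_append
    simpa using h3
  refine ⟨ph X Y a, ph X Y b, ⟨s.map (ph X Y), t.map (ph X Y), ?_⟩, ?_⟩
  · rw [← h1]
    simp
  · rw [ph_sum hab, h2]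

/-- a list with two ends in the middle -/
lemma sm_mid {l₁ l₂ : List ℤ} {x y : ℤ} (h1 : l₁.getLast? = some x) (h2 : l₂.head? = some y) :
    Sm (l₁ ++ l₂) (x + y) := by
  rw [List.getLast?_eq_some_iff] at h1
  obtain ⟨l, rfl⟩ := h1
  rw [List.head?_eq_some_iff] at h2
  obtain ⟨l', rfl⟩ := h2
  exact ⟨x, y, ⟨l, l', by simp⟩, rfl⟩

lemma sum_join (n₁ n₂ : ℕ) (f : ℕ → ℤ) : ∑ i ∈ Finset.Icc 1 (n₁ + 1 + n₂), f i =
    ∑ i ∈ Finset.Icc 1 n₁, f i + f (n₁ + 1) + ∑ i ∈ Finset.Icc 1 n₂, f (i + (n₁ + 1)) := by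
  induction n₂ with
  | zero =>
    rw [Nat.add_zero, Finset.sum_Icc_succ_top (by omega)]
    simp
  | succ k ih =>
    rw [← Nat.add_assoc, Finset.sum_Icc_succ_top (by omega), ih, Finset.sum_Icc_succ_top (by omega),
      show n₁ + 1 + k + 1 = k + 1 + (n₁ + 1) by ring]
    ring

theorem join_core {e : ℤ} {n₁ n₂ : ℕ} {up₁ len₁ up₂ len₂ : ℕ → ℕ} {g₁ g₂ : ℕ}
    (hup₁ : ∀ i, 1 ≤ i → i ≤ n₁ → up₁ i < i) (hup₂ : ∀ i, 1 ≤ i → i ≤ n₂ → up₂ i < i)
    {E₁ O₁ u₁ : ℤ} {b₁ : ℕ → ℤ} {T₁ : ℕ → List ℤ} {G₁ : List ℤ}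
    (h₁ : NetN e n₁ up₁ len₁ g₁ E₁ O₁ u₁ b₁ T₁ G₁)
    {E₂ O₂ u₂ : ℤ} {b₂ : ℕ → ℤ} {T₂ : ℕ → List ℤ} {G₂ : List ℤ}
    (h₂ : NetN e n₂ up₂ len₂ g₂ E₂ O₂ u₂ b₂ T₂ G₂) (E O X Y : ℤ) (hE : E % 2 = 0) (hO : O % 2 = 0)
    (hE1 : E₁ ≤ E) (hO1 : O₁ ≤ O) (hEO : E + O = E₁ + O₁ + (E₂ + O₂)) (hXY : X + Y = E + O - 2)
    (hin : ∀ z, NN E₂ O₂ z → NN E O (ph X Y z))
    (hcov : ∀ z, NN E O z → NN E₁ O₁ z ∨ ∃ z', NN E₂ O₂ z' ∧ ph X Y z' = z)
    (hu : ph X Y u₂ + u₁ = E₁ + O₁ - 1) :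
    NetF (n₁ + 1 + n₂)
      (fun i => if i ≤ n₁ then up₁ i else if i = n₁ + 1 then 0 else up₂ (i - (n₁ + 1)) + (n₁ + 1))
      (fun i => if i ≤ n₁ then len₁ i else if i = n₁ + 1 then g₁ + g₂ + 1
        else len₂ (i - (n₁ + 1))) := by
  obtain ⟨hE12, hO12, hE10, hO10, hs1, hT1, hG1, hc1, hb1, hTi1, hGi1, hch1, hch01, hv1, hl1, -⟩ := h₁
  obtain ⟨hE22, hO22, hE20, hO20, hs2, hT2, hG2, hc2, hb2, hTi2, hGi2, hch2, hch02, hv2, hl2, -⟩ := h₂
  have hXY2 : (X + Y) % 2 = 0 := by omega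
  have hodu : Od (ph X Y u₂) u₁ := by
    unfold Od
    omega
  have hmono : ∀ z, NN E₁ O₁ z → NN E O z := by
    rintro z ⟨a, b, c⟩
    exact ⟨a, fun h => lt_of_lt_of_le (b h) hE1, fun h => lt_of_lt_of_le (c h) hO1⟩
  set b : ℕ → ℤ := fun i => if i ≤ n₁ then b₁ i else ph X Y (b₂ (i - (n₁ + 1))) with hbdef
  set T : ℕ → List ℤ := fun i => if i ≤ n₁ then T₁ i else if i = n₁ + 1 then
    G₂.map (ph X Y) ++ G₁.reverse else (T₂ (i - (n₁ + 1))).map (ph X Y) with hTdef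
  have bL : ∀ i ≤ n₁, b i = b₁ i := fun i hi => by simp only [hbdef, if_pos hi]
  have bR : ∀ i, b (i + (n₁ + 1)) = ph X Y (b₂ i) := fun i => by
    simp only [hbdef, if_neg (show ¬ i + (n₁ + 1) ≤ n₁ by omega), Nat.add_sub_cancel]
  have bM : b (n₁ + 1) = ph X Y (b₂ 0) := by
    have := bR 0
    rwa [Nat.zero_add] at this
  have TL : ∀ i ≤ n₁, T i = T₁ i := fun i hi => by simp only [hTdef, if_pos hi]
  have TM : T (n₁ + 1) = G₂.map (ph X Y) ++ G₁.reverse := by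
    simp only [hTdef, if_neg (show ¬ n₁ + 1 ≤ n₁ by omega), if_true]
  have TR : ∀ i, 1 ≤ i → T (i + (n₁ + 1)) = (T₂ i).map (ph X Y) := fun i hi => by
    simp only [hTdef, if_neg (show ¬ i + (n₁ + 1) ≤ n₁ by omega),
      if_neg (show ¬ i + (n₁ + 1) = n₁ + 1 by omega), Nat.add_sub_cancel]
  -- the three kinds of indices
  have cases3 : ∀ i, 1 ≤ i → i ≤ n₁ + 1 + n₂ → i ≤ n₁ ∨ i = n₁ + 1 ∨
      ∃ j, 1 ≤ j ∧ j ≤ n₂ ∧ i = j + (n₁ + 1) := by
    intro i h1 h2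
    rcases lt_trichotomy i (n₁ + 1) with h | h | h
    · exact Or.inl (by omega)
    · exact Or.inr (Or.inl h)
    · exact Or.inr (Or.inr ⟨i - (n₁ + 1), by omega, by omega, by omega⟩)
  -- the joined thread
  have hthr : b (n₁ + 1) :: (T (n₁ + 1) ++ [b 0]) =
      (b₂ 0 :: G₂).map (ph X Y) ++ (b₁ 0 :: G₁).reverse := by
    rw [bM, TM, bL 0 (Nat.zero_le _)]
    simp
  have hlast : ((b₂ 0 :: G₂).map (ph X Y)).getLast? = some (ph X Y u₂) := by
    rw [List.getLast?_map, hl2]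
    rfl
  have hhead : ((b₁ 0 :: G₁).reverse).head? = some u₁ := by
    rw [List.head?_reverse, hl1]
  refine ⟨E, O, b, T, by omega, by omega, by omega, ?_, ?_, ?_, ?_, ?_, ?_, ?_⟩
  · rw [sum_join]
    have e1 : ∑ i ∈ Finset.Icc 1 n₁, (((if i ≤ n₁ then len₁ i else if i = n₁ + 1 then g₁ + g₂ + 1
        else len₂ (i - (n₁ + 1)) : ℕ)) : ℤ) = ∑ i ∈ Finset.Icc 1 n₁, (len₁ i : ℤ) := by
      refine Finset.sum_congr rfl fun i hi => ?_
      rw [Finset.mem_Icc] at hi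
      rw [if_pos hi.2]
    have e2 : ∑ i ∈ Finset.Icc 1 n₂, (((if i + (n₁ + 1) ≤ n₁ then len₁ (i + (n₁ + 1)) else
        if i + (n₁ + 1) = n₁ + 1 then g₁ + g₂ + 1
        else len₂ (i + (n₁ + 1) - (n₁ + 1)) : ℕ)) : ℤ) = ∑ i ∈ Finset.Icc 1 n₂, (len₂ i : ℤ) := by
      refine Finset.sum_congr rfl fun i hi => ?_
      rw [Finset.mem_Icc] at hi
      rw [if_neg (by omega), if_neg (by omega), Nat.add_sub_cancel]
    rw [e1, e2]
    simp only [if_neg (show ¬ n₁ + 1 ≤ n₁ by omega), if_true]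
    push_cast
    linarith
  · intro i h1 h2
    rcases cases3 i h1 h2 with h | rfl | ⟨j, h3, h4, rfl⟩
    · rw [TL i h, hT1 i h1 h]
      simp only [if_pos h]
    · rw [TM]
      simp only [List.length_append, List.length_map, List.length_reverse, hG1, hG2,
        if_neg (show ¬ n₁ + 1 ≤ n₁ by omega), if_true]
      omega
    · rw [TR j h3, List.length_map, hT2 j h3 h4]
      simp only [if_neg (show ¬ j + (n₁ + 1) ≤ n₁ by omega),
        if_neg (show ¬ j + (n₁ + 1) = n₁ + 1 by omega), Nat.add_sub_cancel]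
  · intro z hz
    rw [in_iff_NN hE] at hz
    rcases hcov z hz with h | ⟨z', hz', rfl⟩
    · rcases hc1 z h with ⟨i, hi, rfl⟩ | ⟨i, hi1, hi2, hi3⟩ | h
      · exact Or.inl ⟨i, by omega, bL i hi⟩
      · exact Or.inr ⟨i, hi1, by omega, by rw [TL i hi2]; exact hi3⟩
      · refine Or.inr ⟨n₁ + 1, by omega, by omega, ?_⟩
        rw [TM]
        simp [h]
    · rcases hc2 z' hz' with ⟨i, hi, rfl⟩ | ⟨i, hi1, hi2, hi3⟩ | h
      · exact Or.inl ⟨i + (n₁ + 1), by omega, bR i⟩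
      · refine Or.inr ⟨i + (n₁ + 1), by omega, by omega, ?_⟩
        rw [TR i hi1]
        exact List.mem_map_of_mem hi3
      · refine Or.inr ⟨n₁ + 1, by omega, by omega, ?_⟩
        rw [TM]
        exact List.mem_append_left _ (List.mem_map_of_mem h)
  · intro i hi
    rw [in_iff_NN hE]
    by_cases h : i ≤ n₁
    · rw [bL i h]
      exact hmono _ (hb1 i h)
    · obtain ⟨j, rfl⟩ : ∃ j, i = j + (n₁ + 1) := ⟨i - (n₁ + 1), by omega⟩
      rw [bR]
      exact hin _ (hb2 j (by omega))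
  · intro i h1 h2 z hz
    rw [in_iff_NN hE]
    rcases cases3 i h1 h2 with h | rfl | ⟨j, h3, h4, rfl⟩
    · rw [TL i h] at hz
      exact hmono _ (hTi1 i h1 h z hz)
    · rw [TM, List.mem_append, List.mem_map, List.mem_reverse] at hz
      rcases hz with ⟨a, ha, rfl⟩ | hz
      · exact hin _ (hGi2 a ha)
      · exact hmono _ (hGi1 z hz)
    · rw [TR j h3, List.mem_map] at hz
      obtain ⟨a, ha, rfl⟩ := hz
      exact hin _ (hTi2 j h3 h4 a ha)
  · intro i h1 h2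
    rcases cases3 i h1 h2 with h | rfl | ⟨j, h3, h4, rfl⟩
    · have h5 := hup₁ i h1 h
      simp only [if_pos h]
      rw [TL i h, bL i h, bL (up₁ i) (by omega)]
      exact hch1 i h1 h
    · simp only [if_neg (show ¬ n₁ + 1 ≤ n₁ by omega), if_true]
      rw [hthr, List.isChain_append]
      refine ⟨chain_ph hXY2 hch02, chain_reverse hch01, ?_⟩
      intro x hx y hy
      rw [hlast] at hx
      rw [hhead] at hy
      simp only [Option.mem_some_iff] at hx hy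
      rw [← hx, ← hy]
      exact hodu
    · simp only [if_neg (show ¬ j + (n₁ + 1) ≤ n₁ by omega),
        if_neg (show ¬ j + (n₁ + 1) = n₁ + 1 by omega), Nat.add_sub_cancel]
      rw [TR j h3, bR, bR]
      have := chain_ph hXY2 (hch2 j h3 h4)
      simpa using this
  · intro v hv2' hv1' hv3
    rcases lt_trichotomy v (E₁ + O₁ - 1) with h | h | h
    · rcases hv1 v hv2' hv1' h with ⟨i, hi1, hi2, hi3⟩ | h
      · refine ⟨i, hi1, by omega, ?_⟩
        have h5 := hup₁ i hi1 hi2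
        simp only [if_pos hi2]
        rw [TL i hi2, bL i hi2, bL (up₁ i) (by omega)]
        exact hi3
      · refine ⟨n₁ + 1, by omega, by omega, ?_⟩
        simp only [if_neg (show ¬ n₁ + 1 ≤ n₁ by omega), if_true]
        rw [hthr]
        exact h.reverse.inFx (List.suffix_append _ _).isInfix
    · refine ⟨n₁ + 1, by omega, by omega, ?_⟩
      simp only [if_neg (show ¬ n₁ + 1 ≤ n₁ by omega), if_true]
      rw [hthr, h, ← hu]
      exact sm_mid hlast hhead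
    · have hw : v = X + Y - (X + Y - v) := by ring
      rcases hv2 (X + Y - v) (by omega) (by omega) (by omega) with ⟨i, hi1, hi2, hi3⟩ | h'
      · refine ⟨i + (n₁ + 1), by omega, by omega, ?_⟩
        simp only [if_neg (show ¬ i + (n₁ + 1) ≤ n₁ by omega),
          if_neg (show ¬ i + (n₁ + 1) = n₁ + 1 by omega), Nat.add_sub_cancel]
        rw [TR i hi1, bR, bR, hw]
        have := sm_ph (X := X) (Y := Y) (hch2 i hi1 hi2) hi3
        simpa using this
      · refine ⟨n₁ + 1, by omega, by omega, ?_⟩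
        simp only [if_neg (show ¬ n₁ + 1 ≤ n₁ by omega), if_true]
        rw [hthr, hw]
        exact (sm_ph (X := X) (Y := Y) hch02 h').inFx ⟨[], _, rfl⟩

theorem join : JoinStm := by
  intro e n₁ n₂ up₁ len₁ up₂ len₂ g₁ g₂ he hup₁ hup₂ h₁ h₂
  obtain ⟨E₁, O₁, u₁, b₁, T₁, G₁, h₁⟩ := netN_of_netL he h₁
  obtain ⟨E₂, O₂, u₂, b₂, T₂, G₂, h₂⟩ := netN_of_netL he h₂
  have h₁' := h₁
  have h₂' := h₂
  obtain ⟨hE12, hO12, hE10, hO10, -, -, -, -, -, -, -, -, -, -, -, hu1⟩ := h₁'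
  obtain ⟨hE22, hO22, hE20, hO20, -, -, -, -, -, -, -, -, -, -, -, hu2⟩ := h₂'
  have hA : (∀ z, NN E₂ O₂ z → NN (E₁ + E₂) (O₁ + O₂) (ph (E₁ + E₂ - 2) (O₁ + O₂) z)) ∧
      (∀ z, NN (E₁ + E₂) (O₁ + O₂) z → NN E₁ O₁ z ∨
        ∃ z', NN E₂ O₂ z' ∧ ph (E₁ + E₂ - 2) (O₁ + O₂) z' = z) := by
    constructor
    · rintro z ⟨h1, h2, h3⟩
      unfold NN ph
      split_ifs with h
      · have := h2 h
        refine ⟨by omega, fun _ => by omega, fun _ => by omega⟩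
      · have := h3 (by omega)
        refine ⟨by omega, fun _ => by omega, fun _ => by omega⟩
    · rintro z ⟨h1, h2, h3⟩
      by_cases h : z % 2 = 0
      · have h4 := h2 h
        by_cases h5 : z < E₁
        · exact Or.inl ⟨h1, fun _ => h5, fun _ => by omega⟩
        · refine Or.inr ⟨E₁ + E₂ - 2 - z, ⟨by omega, fun _ => by omega, fun _ => by omega⟩, ?_⟩
          unfold ph
          rw [if_pos (by omega)]
          ring
      · have h4 := h3 (by omega)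
        by_cases h5 : z < O₁
        · exact Or.inl ⟨h1, fun _ => by omega, fun _ => by omega⟩
        · refine Or.inr ⟨O₁ + O₂ - z, ⟨by omega, fun _ => by omega, fun _ => by omega⟩, ?_⟩
          unfold ph
          rw [if_neg (by omega)]
          ring
  have hB : (∀ z, NN E₂ O₂ z → NN (E₁ + O₂) (O₁ + E₂) (ph (O₁ + E₂ - 1) (E₁ + O₂ - 1) z)) ∧
      (∀ z, NN (E₁ + O₂) (O₁ + E₂) z → NN E₁ O₁ z ∨
        ∃ z', NN E₂ O₂ z' ∧ ph (O₁ + E₂ - 1) (E₁ + O₂ - 1) z' = z) := by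
    constructor
    · rintro z ⟨h1, h2, h3⟩
      unfold NN ph
      split_ifs with h
      · have := h2 h
        refine ⟨by omega, fun _ => by omega, fun _ => by omega⟩
      · have := h3 (by omega)
        refine ⟨by omega, fun _ => by omega, fun _ => by omega⟩
    · rintro z ⟨h1, h2, h3⟩
      by_cases h : z % 2 = 0
      · have h4 := h2 h
        by_cases h5 : z < E₁
        · exact Or.inl ⟨h1, fun _ => h5, fun _ => by omega⟩
        · refine Or.inr ⟨E₁ + O₂ - 1 - z, ⟨by omega, fun _ => by omega, fun _ => by omega⟩, ?_⟩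
          unfold ph
          rw [if_neg (by omega)]
          ring
      · have h4 := h3 (by omega)
        by_cases h5 : z < O₁
        · exact Or.inl ⟨h1, fun _ => by omega, fun _ => by omega⟩
        · refine Or.inr ⟨O₁ + E₂ - 1 - z, ⟨by omega, fun _ => by omega, fun _ => by omega⟩, ?_⟩
          unfold ph
          rw [if_pos (by omega)]
          ring
  rcases hu1 with hu1 | hu1 <;> rcases hu2 with hu2 | hu2
  · -- both odd
    refine join_core hup₁ hup₂ h₁ h₂ (E₁ + O₂) (O₁ + E₂) (O₁ + E₂ - 1) (E₁ + O₂ - 1) (by omega)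
      (by omega) (by omega) (by omega) (by ring) (by ring) hB.1 hB.2 ?_
    rw [hu1, hu2]
    unfold ph
    rw [if_neg (by omega)]
    ring
  · refine join_core hup₁ hup₂ h₁ h₂ (E₁ + E₂) (O₁ + O₂) (E₁ + E₂ - 2) (O₁ + O₂) (by omega)
      (by omega) (by omega) (by omega) (by ring) (by ring) hA.1 hA.2 ?_
    rw [hu1, hu2]
    unfold ph
    rw [if_pos (by omega)]
    ring
  · refine join_core hup₁ hup₂ h₁ h₂ (E₁ + E₂) (O₁ + O₂) (E₁ + E₂ - 2) (O₁ + O₂) (by omega)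
      (by omega) (by omega) (by omega) (by ring) (by ring) hA.1 hA.2 ?_
    rw [hu1, hu2]
    unfold ph
    rw [if_neg (by omega)]
    ring
  · refine join_core hup₁ hup₂ h₁ h₂ (E₁ + O₂) (O₁ + E₂) (O₁ + E₂ - 1) (E₁ + O₂ - 1) (by omega)
      (by omega) (by omega) (by omega) (by ring) (by ring) hB.1 hB.2 ?_
    rw [hu1, hu2]
    unfold ph
    rw [if_pos (by omega)]
    ring

end Pool.Agent.Y790.TR
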