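import Pool.Agent.Y790.TR.Def

/-!
# Trees with long threads: two arrangements of the strands

Contributed by helper447.
-/

set_option autoImplicit false
set_option linter.all false

namespace Pool.Agent.Y790.TR

open Pool.Agent.Y790.LG (rt)

theorem rt_lt {q t s : ℕ} (h : s < t) : rt q t s = s + q - t := if_pos h

theorem rt_ge {q t s : ℕ} (h : t ≤ s) : rt q t s = s - t := if_neg (by omega)

theorem arrR_even (n t : ℕ) (hn : 1 ≤ n) (ht : t ≤ 2 * n) (h0 : t % 2 = 0) (a : ℕ → ℕ)
    (b1 : a (2 * n) = 0) (b2 : a (2 * n + 1) = 1) (b3 : a (2 * n + 2) = 2)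
    (b4 : ∀ j < t, a j = j + 3) (b5 : ∀ j, t ≤ j → j < 2 * n → j % 2 = 0 → a j = j + 4)
    (b6 : ∀ j, t ≤ j → j < 2 * n → j % 2 = 1 → a j = j + 2) :
    (∀ j ≤ 2 * n + 2, a j ≤ 2 * n + 2) ∧ (∀ s ≤ 2 * n + 2, ∃ j ≤ 2 * n + 2, a j = s) ∧
    (∀ j ≤ 2 * n, a j % 2 = rt (2 * n + 1) t j % 2) ∧
    rt (2 * n + 3) 1 (a (2 * n)) = 2 * n + 2 ∧
    (∀ m < n, rt (2 * n + 3) 1 (a (2 * m)) / 2 = rt (2 * n + 3) 1 (a (2 * m + 1)) / 2) ∧
    rt (2 * n + 3) 1 (a (2 * n + 1)) / 2 = rt (2 * n + 3) 1 (a (2 * n + 2)) / 2 := by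
  refine ⟨?_, ?_, ?_, ?_, ?_, ?_⟩
  · intro j hj
    by_cases c1 : j = 2 * n
    · rw [c1, b1]
      omega
    by_cases c2 : j = 2 * n + 1
    · rw [c2, b2]
      omega
    by_cases c3 : j = 2 * n + 2
    · rw [c3, b3]
      omega
    by_cases c4 : j < t
    · rw [b4 j c4]
      omega
    rcases Nat.mod_two_eq_zero_or_one j with c5 | c5
    · rw [b5 j (by omega) (by omega) c5]
      omega
    · rw [b6 j (by omega) (by omega) c5]
      omega
  · intro s hs
    by_cases s0 : s = 0
    · exact ⟨2 * n, by omega, by rw [b1, s0]⟩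
    by_cases s1 : s = 1
    · exact ⟨2 * n + 1, by omega, by rw [b2, s1]⟩
    by_cases s2 : s = 2
    · exact ⟨2 * n + 2, by omega, by rw [b3, s2]⟩
    by_cases s3 : s < t + 3
    · exact ⟨s - 3, by omega, by rw [b4 _ (by omega)]; omega⟩
    rcases Nat.mod_two_eq_zero_or_one s with c5 | c5
    · exact ⟨s - 4, by omega, by rw [b5 _ (by omega) (by omega) (by omega)]; omega⟩
    · exact ⟨s - 2, by omega, by rw [b6 _ (by omega) (by omega) (by omega)]; omega⟩
  · intro j hj
    by_cases c4 : j < t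
    · rw [b4 j c4, rt_lt c4]
      omega
    rw [rt_ge (by omega)]
    by_cases c1 : j = 2 * n
    · rw [c1, b1]
      omega
    rcases Nat.mod_two_eq_zero_or_one j with c5 | c5
    · rw [b5 j (by omega) (by omega) c5]
      omega
    · rw [b6 j (by omega) (by omega) c5]
      omega
  · rw [b1, rt_lt (by omega)]
    omega
  · intro m hm
    by_cases c4 : 2 * m < t
    · rw [b4 _ c4, b4 _ (by omega), rt_ge (by omega), rt_ge (by omega)]
      omega
    · rw [b5 _ (by omega) (by omega) (by omega), b6 _ (by omega) (by omega) (by omega),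
        rt_ge (by omega), rt_ge (by omega)]
      omega
  · rw [b2, b3, rt_ge (by omega), rt_ge (by omega)]

theorem odd_aux (n t : ℕ) (hn : 1 ≤ n) (ht : t ≤ 2 * n) (h1 : t % 2 = 1) (a : ℕ → ℕ) (v w : ℕ)
    (hvw : (v = 3 ∧ w = 1) ∨ (v = 1 ∧ w = 3))
    (b1 : a (2 * n) = v) (b2 : a (2 * n + 1) = w) (b3 : a (2 * n + 2) = 2)
    (b0 : a t = 0) (b0' : a (t - 1) = 2 * n + 2)
    (b4 : ∀ j, j + 1 < t → a j = j + 4) (b5 : ∀ j, t < j → j < 2 * n → j % 2 = 0 → a j = j + 3)
    (b6 : ∀ j, t < j → j < 2 * n → j % 2 = 1 → a j = j + 1) :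
    (∀ j ≤ 2 * n + 2, a j ≤ 2 * n + 2) ∧ (∀ s ≤ 2 * n + 2, ∃ j ≤ 2 * n + 2, a j = s) ∧
    (∀ j ≤ 2 * n, a j % 2 = rt (2 * n + 1) t j % 2) := by
  refine ⟨?_, ?_, ?_⟩
  · intro j hj
    by_cases c1 : j = 2 * n
    · rw [c1, b1]
      omega
    by_cases c2 : j = 2 * n + 1
    · rw [c2, b2]
      omega
    by_cases c3 : j = 2 * n + 2
    · rw [c3, b3]
      omega
    by_cases c6 : j = t
    · rw [c6, b0]
      omega
    by_cases c7 : j + 1 = t
    · rw [show j = t - 1 by omega, b0']
    by_cases c4 : j < t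
    · rw [b4 j (by omega)]
      omega
    rcases Nat.mod_two_eq_zero_or_one j with c5 | c5
    · rw [b5 j (by omega) (by omega) c5]
      omega
    · rw [b6 j (by omega) (by omega) c5]
      omega
  · intro s hs
    by_cases s0 : s = 0
    · exact ⟨t, by omega, by rw [b0, s0]⟩
    by_cases s1 : s = v
    · exact ⟨2 * n, by omega, by rw [b1, s1]⟩
    by_cases s2 : s = w
    · exact ⟨2 * n + 1, by omega, by rw [b2, s2]⟩
    by_cases s3 : s = 2
    · exact ⟨2 * n + 2, by omega, by rw [b3, s3]⟩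
    by_cases s4 : s = 2 * n + 2
    · exact ⟨t - 1, by omega, by rw [b0', s4]⟩
    by_cases s5 : s < t + 3
    · exact ⟨s - 4, by omega, by rw [b4 _ (by omega)]; omega⟩
    rcases Nat.mod_two_eq_zero_or_one s with c5 | c5
    · exact ⟨s - 1, by omega, by rw [b6 _ (by omega) (by omega) (by omega)]; omega⟩
    · exact ⟨s - 3, by omega, by rw [b5 _ (by omega) (by omega) (by omega)]; omega⟩
  · intro j hj
    by_cases c6 : j = t
    · rw [c6, b0, rt_ge le_rfl]
      omega
    by_cases c7 : j + 1 = t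
    · rw [show j = t - 1 by omega, b0', rt_lt (by omega)]
      omega
    by_cases c4 : j < t
    · rw [b4 j (by omega), rt_lt c4]
      omega
    rw [rt_ge (by omega)]
    by_cases c1 : j = 2 * n
    · rw [c1, b1]
      omega
    rcases Nat.mod_two_eq_zero_or_one j with c5 | c5
    · rw [b5 j (by omega) (by omega) c5]
      omega
    · rw [b6 j (by omega) (by omega) c5]
      omega

theorem arrR : ArrRStm := by
  intro n t hn ht
  rcases Nat.mod_two_eq_zero_or_one t with h0 | h1
  · set a : ℕ → ℕ := fun j => if j = 2 * n then 0 else if j = 2 * n + 1 then 1 else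
      if j = 2 * n + 2 then 2 else if j < t then j + 3 else if j % 2 = 0 then j + 4 else j + 2
      with ha
    have b1 : a (2 * n) = 0 := by simp only [ha]; split_ifs <;> omega
    have b2 : a (2 * n + 1) = 1 := by simp only [ha]; split_ifs <;> omega
    have b3 : a (2 * n + 2) = 2 := by simp only [ha]; split_ifs <;> omega
    have b4 : ∀ j < t, a j = j + 3 := by intro j hj; simp only [ha]; split_ifs <;> omega
    have b5 : ∀ j, t ≤ j → j < 2 * n → j % 2 = 0 → a j = j + 4 := by
      intro j h2 h3 h4; simp only [ha]; split_ifs <;> omega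
    have b6 : ∀ j, t ≤ j → j < 2 * n → j % 2 = 1 → a j = j + 2 := by
      intro j h2 h3 h4; simp only [ha]; split_ifs <;> omega
    obtain ⟨g1, g2, g3, g4, g5, g6⟩ := arrR_even n t hn ht h0 a b1 b2 b3 b4 b5 b6
    exact ⟨1, a, by omega, g1, g2, g3, b2, b3, g4, g5, g6⟩
  · set a : ℕ → ℕ := fun j => if j = 2 * n then 3 else if j = 2 * n + 1 then 1 else
      if j = 2 * n + 2 then 2 else if j = t then 0 else if j + 1 = t then 2 * n + 2 else
      if j < t then j + 4 else if j % 2 = 0 then j + 3 else j + 1 with ha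
    have b1 : a (2 * n) = 3 := by simp only [ha]; split_ifs <;> omega
    have b2 : a (2 * n + 1) = 1 := by simp only [ha]; split_ifs <;> omega
    have b3 : a (2 * n + 2) = 2 := by simp only [ha]; split_ifs <;> omega
    have b0 : a t = 0 := by simp only [ha]; split_ifs <;> omega
    have b0' : a (t - 1) = 2 * n + 2 := by simp only [ha]; split_ifs <;> omega
    have b4 : ∀ j, j + 1 < t → a j = j + 4 := by intro j hj; simp only [ha]; split_ifs <;> omega
    have b5 : ∀ j, t < j → j < 2 * n → j % 2 = 0 → a j = j + 3 := by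
      intro j h2 h3 h4; simp only [ha]; split_ifs <;> omega
    have b6 : ∀ j, t < j → j < 2 * n → j % 2 = 1 → a j = j + 1 := by
      intro j h2 h3 h4; simp only [ha]; split_ifs <;> omega
    obtain ⟨g1, g2, g3⟩ := odd_aux n t hn ht h1 a 3 1 (Or.inl ⟨rfl, rfl⟩) b1 b2 b3 b0 b0' b4 b5 b6
    refine ⟨4, a, by omega, g1, g2, g3, b2, b3, ?_, ?_, ?_⟩
    · rw [b1, rt_lt (by omega)]
      omega
    · intro m hm
      by_cases c1 : 2 * m + 1 < t
      · rw [b4 _ (by omega), b4 _ (by omega), rt_ge (by omega), rt_ge (by omega)]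
        omega
      by_cases c2 : 2 * m + 1 = t
      · rw [c2, b0, show 2 * m = t - 1 by omega, b0', rt_ge (by omega), rt_lt (by omega)]
        omega
      · rw [b5 _ (by omega) (by omega) (by omega), b6 _ (by omega) (by omega) (by omega),
          rt_ge (by omega), rt_ge (by omega)]
        omega
    · rw [b2, b3, rt_lt (by omega), rt_lt (by omega)]
      omega

theorem arrW_even (n t : ℕ) (hn : 1 ≤ n) (ht : t ≤ 2 * n) (h0 : t % 2 = 0) (a : ℕ → ℕ)
    (b1 : a (2 * n) = 2 * n + 2) (b2 : a (2 * n + 1) = 1) (b3 : a (2 * n + 2) = 0)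
    (b4 : ∀ j < t, j % 2 = 0 → a j = j + 3) (b5 : ∀ j < t, j % 2 = 1 → a j = j + 1)
    (b6 : ∀ j, t ≤ j → j < 2 * n → a j = j + 2) :
    (∀ j ≤ 2 * n + 2, a j ≤ 2 * n + 2) ∧ (∀ s ≤ 2 * n + 2, ∃ j ≤ 2 * n + 2, a j = s) ∧
    (∀ j ≤ 2 * n, a j % 2 = rt (2 * n + 1) t j % 2) ∧
    rt (2 * n + 3) 0 (a (2 * n)) = 2 * n + 2 ∧
    (∀ m < n, rt (2 * n + 3) 0 (a (2 * m)) / 2 = rt (2 * n + 3) 0 (a (2 * m + 1)) / 2) ∧
    rt (2 * n + 3) 0 (a (2 * n + 1)) / 2 = rt (2 * n + 3) 0 (a (2 * n + 2)) / 2 := by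
  refine ⟨?_, ?_, ?_, ?_, ?_, ?_⟩
  · intro j hj
    by_cases c1 : j = 2 * n
    · rw [c1, b1]
    by_cases c2 : j = 2 * n + 1
    · rw [c2, b2]
      omega
    by_cases c3 : j = 2 * n + 2
    · rw [c3, b3]
      omega
    by_cases c4 : j < t
    · rcases Nat.mod_two_eq_zero_or_one j with c5 | c5
      · rw [b4 j c4 c5]
        omega
      · rw [b5 j c4 c5]
        omega
    rw [b6 j (by omega) (by omega)]
    omega
  · intro s hs
    by_cases s0 : s = 0
    · exact ⟨2 * n + 2, by omega, by rw [b3, s0]⟩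
    by_cases s1 : s = 1
    · exact ⟨2 * n + 1, by omega, by rw [b2, s1]⟩
    by_cases s2 : s = 2 * n + 2
    · exact ⟨2 * n, by omega, by rw [b1, s2]⟩
    by_cases s3 : s < t + 2
    · rcases Nat.mod_two_eq_zero_or_one s with c5 | c5
      · exact ⟨s - 1, by omega, by rw [b5 _ (by omega) (by omega)]; omega⟩
      · exact ⟨s - 3, by omega, by rw [b4 _ (by omega) (by omega)]; omega⟩
    exact ⟨s - 2, by omega, by rw [b6 _ (by omega) (by omega)]; omega⟩
  · intro j hj
    by_cases c4 : j < t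
    · rcases Nat.mod_two_eq_zero_or_one j with c5 | c5
      · rw [b4 j c4 c5, rt_lt c4]
        omega
      · rw [b5 j c4 c5, rt_lt c4]
        omega
    rw [rt_ge (by omega)]
    by_cases c1 : j = 2 * n
    · rw [c1, b1]
      omega
    rw [b6 j (by omega) (by omega)]
    omega
  · rw [b1, rt_ge (by omega)]
    omega
  · intro m hm
    by_cases c4 : 2 * m < t
    · rw [b4 _ c4 (by omega), b5 _ (by omega) (by omega), rt_ge (by omega), rt_ge (by omega)]
      omega
    · rw [b6 _ (by omega) (by omega), b6 _ (by omega) (by omega),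
        rt_ge (by omega), rt_ge (by omega)]
      omega
  · rw [b2, b3, rt_ge (by omega), rt_ge (by omega)]

theorem arrW : ArrWStm := by
  intro n t hn ht
  rcases Nat.mod_two_eq_zero_or_one t with h0 | h1
  · set a : ℕ → ℕ := fun j => if j = 2 * n then 2 * n + 2 else if j = 2 * n + 1 then 1 else
      if j = 2 * n + 2 then 0 else if t ≤ j then j + 2 else if j % 2 = 0 then j + 3 else j + 1
      with ha
    have b1 : a (2 * n) = 2 * n + 2 := by simp only [ha]; split_ifs <;> omega
    have b2 : a (2 * n + 1) = 1 := by simp only [ha]; split_ifs <;> omega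
    have b3 : a (2 * n + 2) = 0 := by simp only [ha]; split_ifs <;> omega
    have b4 : ∀ j < t, j % 2 = 0 → a j = j + 3 := by
      intro j h2 h3; simp only [ha]; split_ifs <;> omega
    have b5 : ∀ j < t, j % 2 = 1 → a j = j + 1 := by
      intro j h2 h3; simp only [ha]; split_ifs <;> omega
    have b6 : ∀ j, t ≤ j → j < 2 * n → a j = j + 2 := by
      intro j h2 h3; simp only [ha]; split_ifs <;> omega
    obtain ⟨g1, g2, g3, g4, g5, g6⟩ := arrW_even n t hn ht h0 a b1 b2 b3 b4 b5 b6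
    exact ⟨0, a, by omega, g1, g2, g3, by rw [b2, h0], by rw [b3, h0], g4, g5, g6⟩
  · set a : ℕ → ℕ := fun j => if j = 2 * n then 1 else if j = 2 * n + 1 then 3 else
      if j = 2 * n + 2 then 2 else if j = t then 0 else if j + 1 = t then 2 * n + 2 else
      if j < t then j + 4 else if j % 2 = 0 then j + 3 else j + 1 with ha
    have b1 : a (2 * n) = 1 := by simp only [ha]; split_ifs <;> omega
    have b2 : a (2 * n + 1) = 3 := by simp only [ha]; split_ifs <;> omega
    have b3 : a (2 * n + 2) = 2 := by simp only [ha]; split_ifs <;> omega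
    have b0 : a t = 0 := by simp only [ha]; split_ifs <;> omega
    have b0' : a (t - 1) = 2 * n + 2 := by simp only [ha]; split_ifs <;> omega
    have b4 : ∀ j, j + 1 < t → a j = j + 4 := by intro j hj; simp only [ha]; split_ifs <;> omega
    have b5 : ∀ j, t < j → j < 2 * n → j % 2 = 0 → a j = j + 3 := by
      intro j h2 h3 h4; simp only [ha]; split_ifs <;> omega
    have b6 : ∀ j, t < j → j < 2 * n → j % 2 = 1 → a j = j + 1 := by
      intro j h2 h3 h4; simp only [ha]; split_ifs <;> omega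
    obtain ⟨g1, g2, g3⟩ := odd_aux n t hn ht h1 a 1 3 (Or.inr ⟨rfl, rfl⟩) b1 b2 b3 b0 b0' b4 b5 b6
    refine ⟨2, a, by omega, g1, g2, g3, by rw [b2, h1], by rw [b3, h1], ?_, ?_, ?_⟩
    · rw [b1, rt_lt (by omega)]
      omega
    · intro m hm
      by_cases c1 : 2 * m + 1 < t
      · rw [b4 _ (by omega), b4 _ (by omega), rt_ge (by omega), rt_ge (by omega)]
        omega
      by_cases c2 : 2 * m + 1 = t
      · rw [c2, b0, show 2 * m = t - 1 by omega, b0', rt_ge (by omega), rt_lt (by omega)]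
        omega
      · rw [b5 _ (by omega) (by omega) (by omega), b6 _ (by omega) (by omega) (by omega),
          rt_ge (by omega), rt_ge (by omega)]
        omega
    · rw [b2, b3, rt_ge (by omega), rt_ge (by omega)]

end Pool.Agent.Y790.TR
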