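import Pool.Agent.Y790.LG.Def

/-!
# Trees with long threads: definitions and statements of the first part

A tree is built from a root (node `0`) by adding nodes `1, 2, …`, each one joined to an older node by a path
(a thread) which is under construction; the root has in addition one long free thread. The state of the
construction with `n` unfinished threads is given by the absolute positions `b i` of the nodes `i ≤ n`
(nonnegative integers), by the starting nodes `c j` of the `2 n + 1` strands (the strands `2 m` and `2 m + 1`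
have to be joined in the end, the strand `2 n` is free) and by the positions `x j` of the heads of the strands
relative to the base `(A, B)`: the even relative position `y` is the absolute position `y + A` and the odd
relative position `y` is the absolute position `y + B`, where `A` and `B` have the same parity.
-/

set_option autoImplicit false

namespace Pool.Agent.Y790.TR

open Pool.Agent.Y790.LG (Od Sm rt cst hd Lg Kst prd Cls ClsStm Lags)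

/-- the absolute position of the position `y` relative to the base `(A, B)` -/
def em (A B y : ℤ) : ℤ := if y % 2 = 0 then y + A else y + B

/-- the absolute positions used before the base `(A, B)` -/
def In (A B z : ℤ) : Prop := 0 ≤ z ∧ ((z - A) % 2 = 0 → z < A) ∧ ((z - A) % 2 = 1 → z < B)

/-- the outer part of the labelling: `n + 1` nodes with the positions `b i`, strands `j ≤ 2 n` which start at
the nodes `c j` and have the vertices `L j` (without the node) and the heads `x j` (relative to the base) -/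
def Out (n : ℕ) (A B : ℤ) (x : ℕ → ℤ) (c : ℕ → ℕ) (b : ℕ → ℤ) : Prop :=
  (A - B) % 2 = 0 ∧ 0 ≤ A ∧ 0 ≤ B ∧ ∃ L : ℕ → List ℤ,
    A + B = 2 * ((n : ℤ) + 1) + 2 * ∑ j ∈ Finset.range (2 * n + 1), ((L j).length : ℤ) ∧
    (∀ z : ℤ, In A B z → (∃ i ≤ n, b i = z) ∨ ∃ j ≤ 2 * n, z ∈ L j) ∧
    (∀ i ≤ n, In A B (b i)) ∧ (∀ j ≤ 2 * n, ∀ z ∈ L j, In A B z) ∧
    (∀ j ≤ 2 * n, c j ≤ n) ∧
    (∀ j ≤ 2 * n, (b (c j) :: L j).IsChain Od) ∧
    (∀ j ≤ 2 * n, (b (c j) :: L j).getLast? = some (em A B (x j))) ∧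
    (∀ v : ℤ, v % 2 = 1 → 1 ≤ v → v < A + B - (2 * n + 1) →
      ∃ j ≤ 2 * n, Sm (b (c j) :: L j) v)

/-- the strands are continued from the heads `x j` (relative to the old base) to the heads `y j` (relative to
the new base), the strand `j` gets `c j` new vertices; the new vertices fill `W₀` consecutive positions -/
def Seg (n : ℕ) (x : ℕ → ℤ) (c : ℕ → ℕ) (y : ℕ → ℤ) : Prop :=
  ∃ (L : ℕ → List ℤ) (W₀ : ℤ), W₀ = ∑ j ∈ Finset.range (2 * n + 1), (c j : ℤ) ∧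
    (∀ j ≤ 2 * n, (L j).length = c j) ∧
    (∀ j ≤ 2 * n, (L j).getLast? = some (y j + W₀)) ∧
    (∀ j ≤ 2 * n, ∀ u ∈ L j, 0 ≤ u ∧ u < W₀) ∧
    (∀ j ≤ 2 * n, (x j :: L j).IsChain Od) ∧
    (∀ u : ℤ, 0 ≤ u → u < W₀ → ∃ j ≤ 2 * n, u ∈ L j) ∧
    (∀ v : ℤ, v % 2 = 1 → -(2 * (n : ℤ) + 1) ≤ v → v < 2 * W₀ - (2 * n + 1) →
      ∃ j ≤ 2 * n, Sm (x j :: L j) v)

/-! ### the formal rules -/

/-- only the values at the indices `≤ 2 n` matter -/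
def SegCongrStm : Prop := ∀ (n : ℕ) (x x' y y' : ℕ → ℤ) (c c' : ℕ → ℕ), (∀ i ≤ 2 * n, x i = x' i) →
  (∀ i ≤ 2 * n, c i = c' i) → (∀ i ≤ 2 * n, y i = y' i) → Seg n x c y → Seg n x' c' y'

def SegTransStm : Prop := ∀ (n : ℕ) (x y z : ℕ → ℤ) (c d : ℕ → ℕ), Seg n x c y → Seg n y d z →
  Seg n x (fun i => c i + d i) z

/-- the outer part followed by a segment; `W` is the number of new vertices -/
def OutSegStm : Prop := ∀ (n : ℕ) (A B : ℤ) (x y : ℕ → ℤ) (c : ℕ → ℕ) (b : ℕ → ℤ) (d : ℕ → ℕ) (W : ℤ),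
  W = ∑ j ∈ Finset.range (2 * n + 1), (d j : ℤ) → Out n A B x c b → Seg n x d y →
  ∃ A' B' : ℤ, Out n A' B' y c b ∧ ∀ u : ℤ, em A' B' u = em A B (u + W)

/-- new names of the strands -/
def RelStm : Prop := ∀ (n : ℕ) (A B : ℤ) (x : ℕ → ℤ) (c : ℕ → ℕ) (b : ℕ → ℤ) (π : ℕ → ℕ),
  (∀ j ≤ 2 * n, π j ≤ 2 * n) → (∀ s ≤ 2 * n, ∃ j ≤ 2 * n, π j = s) → Out n A B x c b →
  Out n A B (fun j => x (π j)) (fun j => c (π j)) b

/-- only the values at the indices `≤ 2 n` and `≤ n` matter -/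
def OutCongrStm : Prop := ∀ (n : ℕ) (A B : ℤ) (x x' : ℕ → ℤ) (c c' : ℕ → ℕ) (b b' : ℕ → ℤ),
  (∀ j ≤ 2 * n, x j = x' j) → (∀ j ≤ 2 * n, c j = c' j) → (∀ i ≤ n, b i = b' i) → Out n A B x c b →
  Out n A B x' c' b'

/-- starting nodes with the two new strands `2 n + 1` (from the node `V`) and `2 n + 2` (from the node
`n + 1`) -/
def cN (n V : ℕ) (c : ℕ → ℕ) : ℕ → ℕ := fun j =>
  if j = 2 * n + 2 then n + 1 else if j = 2 * n + 1 then V else c j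

/-- positions of the nodes with the new node `n + 1` -/
def bN (n : ℕ) (z : ℤ) (b : ℕ → ℤ) : ℕ → ℤ := fun i => if i = n + 1 then z else b i

/-- heads after the new node was put at the absolute position `B + 1` and the base was changed to
`(A, B + 2)` -/
def xW (n : ℕ) (xV : ℤ) (x : ℕ → ℤ) : ℕ → ℤ := fun j =>
  if j = 2 * n + 2 then -1 else if j = 2 * n + 1 then xV else if x j % 2 = 0 then x j else x j - 2

/-- a new node on the side different from the side of `V` -/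
def ExtWStm : Prop := ∀ (n : ℕ) (A B : ℤ) (x : ℕ → ℤ) (c : ℕ → ℕ) (b : ℕ → ℤ) (V : ℕ) (xV : ℤ),
  Out n A B x c b → V ≤ n → b V = em A B xV → xV % 2 = 0 →
  Out (n + 1) A (B + 2) (xW n xV x) (cN n V c) (bN n (B + 1) b)

/-- elementary step: after the crossing the strand `j` is in the class `a j` and has the lag `p j`, then
`(2 n + 1) w + t` positions are filled -/
def FwdStm : Prop := ∀ (n : ℕ) (x : ℕ → ℤ) (a p : ℕ → ℕ) (w t : ℕ), t ≤ 2 * n + 1 →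
  (∀ j ≤ 2 * n, a j ≤ 2 * n) → (∀ s ≤ 2 * n, ∃ j ≤ 2 * n, a j = s) →
  (∀ j ≤ 2 * n, Od (x j) (a j + p j * (2 * n + 1))) →
  (∀ k : ℤ, 0 ≤ k → k ≤ 2 * n →
    ∃ j ≤ 2 * n, x j + (a j + p j * (2 * n + 1)) = 2 * k - (2 * n + 1)) →
  (∀ j ≤ 2 * n, 2 * p j + 2 ≤ cst w t (a j)) →
  (∀ j ≤ 2 * n, cst w t (a j) % 2 = 1 → p j % 2 = 0) →
  Seg n x (fun j => cst w t (a j)) (fun j => hd (2 * n + 1) (rt (2 * n + 1) t (a j)) (p j))

/-- the event with a free class: the strands `j ≤ 2 n` and the new strand `2 n + 1`, which starts at the node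
`V`, cross to the classes `a j` with the lags `p j`; the new node is the first vertex (number `p (2 n + 2)`) of
the free class `a (2 n + 2)`, then `(2 n + 3) w + t` positions are filled altogether -/
def EvRStm : Prop := ∀ (n : ℕ) (A B : ℤ) (x : ℕ → ℤ) (c : ℕ → ℕ) (b : ℕ → ℤ) (V : ℕ) (xV : ℤ)
  (a p : ℕ → ℕ) (w t : ℕ), Out n A B x c b → V ≤ n → b V = em A B xV → t ≤ 2 * n + 3 →
  (∀ j ≤ 2 * n + 2, a j ≤ 2 * n + 2) → (∀ s ≤ 2 * n + 2, ∃ j ≤ 2 * n + 2, a j = s) →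
  (∀ j ≤ 2 * n, Od (x j) (a j + p j * (2 * n + 3))) →
  Od xV (a (2 * n + 1) + p (2 * n + 1) * (2 * n + 3)) →
  (∀ k : ℤ, 0 ≤ k → k ≤ 2 * n + 1 →
    (∃ j ≤ 2 * n, x j + (a j + p j * (2 * n + 3)) = 2 * k - (2 * n + 1)) ∨
      xV + (a (2 * n + 1) + p (2 * n + 1) * (2 * n + 3)) = 2 * k - (2 * n + 1)) →
  (∀ j ≤ 2 * n + 2, 2 * p j + 2 ≤ cst w t (a j)) →
  (∀ j ≤ 2 * n + 2, cst w t (a j) % 2 = 1 → p j % 2 = 0) →
  ∃ A' B' : ℤ, Out (n + 1) A' B'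
    (fun j => hd (2 * n + 3) (rt (2 * n + 3) t (a j)) (p j)) (cN n V c)
    (bN n (em A B (a (2 * n + 2) + p (2 * n + 2) * (2 * n + 3))) b)

/-! ### moving the lags -/

/-- waiting -/
def WaitStm : Prop := ∀ (n : ℕ) (p : ℕ → ℕ) (w : ℕ), (∀ j ≤ 2 * n, 2 * p j + 2 ≤ w) →
  (∀ j ≤ 2 * n, p j % 2 = 0) → Seg n (Lg n p) (fun _ => w) (Lg n p)

/-- two units of lag are moved to the predecessor -/
def Mov0Stm : Prop := ∀ (n : ℕ) (p : ℕ → ℕ) (κ B : ℕ), 1 ≤ n → κ ≤ 2 * n → 2 ≤ p κ →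
  (∀ j ≤ 2 * n, p j % 2 = 0) → (∀ j ≤ 2 * n, p j + 2 ≤ B) →
  Seg n (Lg n p) (fun _ => 6 * B + 7)
    (Lg n (fun i => if i = κ then p i - 2 else if i = prd n κ then p i + 2 else p i))

/-- any two even lag vectors with the same sum are connected -/
def ConnStm : Prop := ∀ (n : ℕ) (p p' : ℕ → ℕ), 1 ≤ n → (∀ j ≤ 2 * n, p j % 2 = 0) →
  (∀ j ≤ 2 * n, p' j % 2 = 0) →
  ∑ j ∈ Finset.range (2 * n + 1), p j = ∑ j ∈ Finset.range (2 * n + 1), p' j →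
  ∃ N : ℕ, Seg n (Lg n p) (fun _ => N) (Lg n p')

/-- from the canonical state to the rotated state with arbitrary even lags with a given number of vertices -/
def GoStm : Prop := ∀ (n P : ℕ) (p : ℕ → ℕ) (r : ℕ), 1 ≤ n → (∀ j ≤ 2 * n, p j % 2 = 0) →
  ∑ j ∈ Finset.range (2 * n + 1), p j = P → r ≤ 2 * n →
  ∃ W₁ : ℕ, ∀ W ≥ W₁, W % (2 * n + 1) = r → ∃ C : ℕ → ℕ, ∑ j ∈ Finset.range (2 * n + 1), C j = W ∧
    Seg n (Kst n P 0) C (fun j => hd (2 * n + 1) (rt (2 * n + 1) r j) (p j))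

/-! ### arithmetic -/

/-- the lag of the canonical state with the invariant `K` -/
def PK (K n : ℕ) : ℕ := (K - (2 * n + 1) ^ 2) / (4 * (2 * n + 1))

def TuneStm : Prop := ∀ (n P : ℕ) (g : ℕ → ℤ), P % 2 = 0 → 4 * (2 * n + 3) * (2 * n + 1) ≤ P →
  (∀ j ≤ 2 * n, g j % 2 = 0 ∧ -(4 * (n : ℤ) + 6) ≤ g j) →
  (∑ j ∈ Finset.range (2 * n + 1), g j + (2 * n + 1) * P) % (2 * n + 3) = 0 →
  ∃ p p' : ℕ → ℕ, (∀ j ≤ 2 * n, p j % 2 = 0 ∧ p' j % 2 = 0 ∧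
    (2 * (n : ℤ) + 3) * p' j = g j + (2 * n + 1) * p j) ∧ ∑ j ∈ Finset.range (2 * n + 1), p j = P

/-- arrangement of the strands for a new node on the same side: the strand `j ≤ 2 n` is in the slot
`rt (2 n + 1) t j`, it goes to the class `a j`; the new strands `2 n + 1` and `2 n + 2` go to the classes
`1` and `2`; after the rotation by `t'` the free strand is in the last slot, the strands of a pair are in
slots of the form `2 m` and `2 m + 1` -/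
def ArrRStm : Prop := ∀ n t : ℕ, 1 ≤ n → t ≤ 2 * n → ∃ (t' : ℕ) (a : ℕ → ℕ), t' ≤ 2 * n + 3 ∧
  (∀ j ≤ 2 * n + 2, a j ≤ 2 * n + 2) ∧ (∀ s ≤ 2 * n + 2, ∃ j ≤ 2 * n + 2, a j = s) ∧
  (∀ j ≤ 2 * n, a j % 2 = rt (2 * n + 1) t j % 2) ∧ a (2 * n + 1) = 1 ∧ a (2 * n + 2) = 2 ∧
  rt (2 * n + 3) t' (a (2 * n)) = 2 * n + 2 ∧
  (∀ m < n, rt (2 * n + 3) t' (a (2 * m)) / 2 = rt (2 * n + 3) t' (a (2 * m + 1)) / 2) ∧
  rt (2 * n + 3) t' (a (2 * n + 1)) / 2 = rt (2 * n + 3) t' (a (2 * n + 2)) / 2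

/-- arrangement of the strands for a new node on the other side: the new strands `2 n + 1` and `2 n + 2` go to
the classes `2 e + 1` and `2 e`, where `e = t % 2` -/
def ArrWStm : Prop := ∀ n t : ℕ, 1 ≤ n → t ≤ 2 * n → ∃ (t' : ℕ) (a : ℕ → ℕ), t' ≤ 2 * n + 3 ∧
  (∀ j ≤ 2 * n + 2, a j ≤ 2 * n + 2) ∧ (∀ s ≤ 2 * n + 2, ∃ j ≤ 2 * n + 2, a j = s) ∧
  (∀ j ≤ 2 * n, a j % 2 = rt (2 * n + 1) t j % 2) ∧ a (2 * n + 1) = 2 * (t % 2) + 1 ∧
  a (2 * n + 2) = 2 * (t % 2) ∧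
  rt (2 * n + 3) t' (a (2 * n)) = 2 * n + 2 ∧
  (∀ m < n, rt (2 * n + 3) t' (a (2 * m)) / 2 = rt (2 * n + 3) t' (a (2 * m + 1)) / 2) ∧
  rt (2 * n + 3) t' (a (2 * n + 1)) / 2 = rt (2 * n + 3) t' (a (2 * n + 2)) / 2

/-! ### the events -/

/-- the pairs of the new state are the pairs of the old one and the pair `V`, `n + 1` -/
def Prs (n V : ℕ) (c c' : ℕ → ℕ) : Prop := c' (2 * n + 2) = c (2 * n) ∧
  (∀ m < n, ∃ m' ≤ n, (c' (2 * m') = c (2 * m) ∧ c' (2 * m' + 1) = c (2 * m + 1)) ∨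
    (c' (2 * m') = c (2 * m + 1) ∧ c' (2 * m' + 1) = c (2 * m))) ∧
  ∃ m' ≤ n, (c' (2 * m') = V ∧ c' (2 * m' + 1) = n + 1) ∨ (c' (2 * m') = n + 1 ∧ c' (2 * m' + 1) = V)

/-- from a state with arbitrary slots to the canonical state: `s j` is the slot of the strand `j` -/
def GatherStm : Prop := ∀ (n V P : ℕ) (A B : ℤ) (c : ℕ → ℕ) (b : ℕ → ℤ) (s p : ℕ → ℕ),
  (∀ j ≤ 2 * n + 2, s j ≤ 2 * n + 2) → (∀ i ≤ 2 * n + 2, ∃ j ≤ 2 * n + 2, s j = i) →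
  s (2 * n) = 2 * n + 2 → (∀ m < n, s (2 * m) / 2 = s (2 * m + 1) / 2) →
  s (2 * n + 1) / 2 = s (2 * n + 2) / 2 → (∀ j ≤ 2 * n + 2, p j % 2 = 0) →
  ∑ j ∈ Finset.range (2 * n + 3), p j = P →
  Out (n + 1) A B (fun j => hd (2 * n + 3) (s j) (p j)) (cN n V c) b →
  ∃ (A' B' : ℤ) (c' : ℕ → ℕ), Out (n + 1) A' B' (Kst (n + 1) P 0) c' b ∧ Prs n V c c'

/-- a new node on the same side as `V` (`s = 0`) or on the other side (`s = 1`) -/
def OpenStm (s : ℤ) : Prop := ∀ (n M K : ℕ) (A B : ℤ) (c : ℕ → ℕ) (b : ℕ → ℤ) (V : ℕ), 1 ≤ n → M % 2 = 1 →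
  2 * n + 1 ∣ M → 2 * n + 3 ∣ M → M ∣ K → K % 8 = 1 → 17 * (2 * n + 3) ^ 3 ≤ K → V ≤ n →
  Out n A B (Kst n (PK K n) 0) c b →
  ∃ K₁ : ℕ, ∀ K' ≥ K₁, K' % (8 * M) = K % (8 * M) → ∃ (A' B' : ℤ) (c' : ℕ → ℕ) (b' : ℕ → ℤ),
    Out (n + 1) A' B' (Kst (n + 1) (PK K' (n + 1)) 0) c' b' ∧ (∀ i ≤ n, b' i = b i) ∧
    (b' (n + 1) + b V) % 2 = s ∧ Prs n V c c'

/-- the beginning: one thread from the root (node `0`, on the odd side) to the node `1` -/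
def BaseStm : Prop := ∀ P : ℕ, P % 2 = 0 → ∀ s : ℤ, s = 0 ∨ s = 1 → ∃ (A B : ℤ) (c : ℕ → ℕ) (b : ℕ → ℤ),
  Out 1 A B (Kst 1 P 0) c b ∧ b 0 % 2 = 1 ∧ (b 1 + b 0) % 2 = s ∧ c 2 = 0 ∧
  ((c 0 = 0 ∧ c 1 = 1) ∨ (c 0 = 1 ∧ c 1 = 0))

/-- the threads are the pairs `i`, `up i` -/
def Pr (n : ℕ) (up c : ℕ → ℕ) : Prop := ∀ i, 1 ≤ i → i ≤ n →
  ∃ m < n, (c (2 * m) = i ∧ c (2 * m + 1) = up i) ∨ (c (2 * m) = up i ∧ c (2 * m + 1) = i)

/-- all trees can be grown; `sd i` is the side of the node `i` -/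
def GrowStm : Prop := ∀ N M : ℕ, M % 2 = 1 → (∀ i ≤ N, 2 * i + 1 ∣ M) → 17 * (2 * N + 1) ^ 3 ≤ M →
  ∀ n, 1 ≤ n → n ≤ N → ∀ (up : ℕ → ℕ) (sd : ℕ → ℤ), (∀ i, 1 ≤ i → i ≤ n → up i < i) →
  (∀ i ≤ n, sd i = 0 ∨ sd i = 1) → sd 0 = 1 →
  ∃ K₁ : ℕ, ∀ K ≥ K₁, K % (8 * M) = M * M % (8 * M) → ∃ (A B : ℤ) (c : ℕ → ℕ) (b : ℕ → ℤ),
    Out n A B (Kst n (PK K n) 0) c b ∧ (∀ i ≤ n, b i % 2 = sd i) ∧ c (2 * n) = 0 ∧ Pr n up c

end Pool.Agent.Y790.TR
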