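import Pool.Agent.Y790.TR.Def
import Pool.Agent.Y790.LE.Def
import Pool.Agent.TH56.GT.Def

/-!
# Trees with long threads: statements of the second part
-/

set_option autoImplicit false

namespace Pool.Agent.Y790.TR

open Pool.Agent.Y790.LG (Od Sm rt cst hd Lg Kst prd Cls ClsStm Lags)
open Pool.Agent.TH56.GT (Graceful)

/-! ### networks -/

/-- A labelled tree with nodes `0, …, n` at the positions `b i`, threads `1 ≤ i ≤ n` with `len i` edges and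
the inner vertices `T i` from the node `i` to the node `up i`, and a free path `G` with `g` edges which starts
at the node `0`; its last vertex is at the relative position `-1 - e`. The positions used are those before
the base `(A, B)`; the sums used are all the odd numbers from `1` to `A + B - 3`. -/
def NetL (e : ℤ) (n : ℕ) (up len : ℕ → ℕ) (g : ℕ) : Prop :=
  ∃ (A B : ℤ) (b : ℕ → ℤ) (T : ℕ → List ℤ) (G : List ℤ), (A - B) % 2 = 0 ∧ 0 ≤ A ∧ 0 ≤ B ∧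
    A + B = 2 * (1 + ∑ i ∈ Finset.Icc 1 n, (len i : ℤ) + g) ∧
    (∀ i, 1 ≤ i → i ≤ n → (T i).length + 1 = len i) ∧ G.length = g ∧
    (∀ z : ℤ, In A B z → (∃ i ≤ n, b i = z) ∨ (∃ i, 1 ≤ i ∧ i ≤ n ∧ z ∈ T i) ∨ z ∈ G) ∧
    (∀ i ≤ n, In A B (b i)) ∧ (∀ i, 1 ≤ i → i ≤ n → ∀ z ∈ T i, In A B z) ∧ (∀ z ∈ G, In A B z) ∧
    (∀ i, 1 ≤ i → i ≤ n → (b i :: (T i ++ [b (up i)])).IsChain Od) ∧ (b 0 :: G).IsChain Od ∧
    (∀ v : ℤ, v % 2 = 1 → 1 ≤ v → v < A + B - 1 →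
      (∃ i, 1 ≤ i ∧ i ≤ n ∧ Sm (b i :: (T i ++ [b (up i)])) v) ∨ Sm (b 0 :: G) v) ∧
    (b 0 :: G).getLast? = some (em A B (-1 - e))

/-- the same without a free path -/
def NetF (n : ℕ) (up len : ℕ → ℕ) : Prop :=
  ∃ (A B : ℤ) (b : ℕ → ℤ) (T : ℕ → List ℤ), (A - B) % 2 = 0 ∧ 0 ≤ A ∧ 0 ≤ B ∧
    A + B = 2 * (1 + ∑ i ∈ Finset.Icc 1 n, (len i : ℤ)) ∧
    (∀ i, 1 ≤ i → i ≤ n → (T i).length + 1 = len i) ∧
    (∀ z : ℤ, In A B z → (∃ i ≤ n, b i = z) ∨ (∃ i, 1 ≤ i ∧ i ≤ n ∧ z ∈ T i)) ∧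
    (∀ i ≤ n, In A B (b i)) ∧ (∀ i, 1 ≤ i → i ≤ n → ∀ z ∈ T i, In A B z) ∧
    (∀ i, 1 ≤ i → i ≤ n → (b i :: (T i ++ [b (up i)])).IsChain Od) ∧
    (∀ v : ℤ, v % 2 = 1 → 1 ≤ v → v < A + B - 1 →
      ∃ i, 1 ≤ i ∧ i ≤ n ∧ Sm (b i :: (T i ++ [b (up i)])) v)

/-- the outer part is completed -/
def CloseStm : Prop := ∀ (e : ℤ) (n P : ℕ) (A B : ℤ) (c : ℕ → ℕ) (b : ℕ → ℤ) (up : ℕ → ℕ) (sd : ℕ → ℤ)
  (C₀ : ℕ), P % 2 = 0 → Out n A B (Kst n P 0) c b → (∀ i ≤ n, b i % 2 = sd i) → c (2 * n) = 0 →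
  Pr n up c → (∀ i, 1 ≤ i → i ≤ n → up i < i) →
  (∀ (ℓ : ℕ → ℕ) (g : ℕ), (∀ i < n, ℓ i % 2 = 0) → (∀ i < n, C₀ ≤ ℓ i) → (∀ i < n, ℓ i + C₀ ≤ 2 * g) →
    C₀ ≤ g → @Pool.Agent.Y790.LE.St ⟨e⟩ n (Kst n P 0) ℓ g) →
  ∃ C : ℕ, ∀ (len : ℕ → ℕ) (g : ℕ),
    (∀ i, 1 ≤ i → i ≤ n → ((len i : ℤ) + sd i + sd (up i)) % 2 = 0) →
    (∀ i, 1 ≤ i → i ≤ n → C ≤ len i) → (∀ i, 1 ≤ i → i ≤ n → len i + C ≤ 2 * g) → C ≤ g →
    NetL e n up len g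

/-- all networks with at most `N` long threads and a free path which is longer than half of each thread, with
a common `e` -/
def MainNetStm : Prop := ∀ N : ℕ, ∃ (e : ℤ) (C : ℕ), e % 2 = 0 ∧ 0 ≤ e ∧ ∀ n, 1 ≤ n → n ≤ N →
  ∀ (up len : ℕ → ℕ) (g : ℕ), (∀ i, 1 ≤ i → i ≤ n → up i < i) → (∀ i, 1 ≤ i → i ≤ n → C ≤ len i) →
  (∀ i, 1 ≤ i → i ≤ n → len i + C ≤ 2 * g) → C ≤ g → NetL e n up len g

/-- every thread is divided into two parts by a new node -/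
def HalveStm : Prop := ∀ (e : ℤ) (n : ℕ) (up len up' len' : ℕ → ℕ) (g : ℕ),
  (∀ i, 1 ≤ i → i ≤ n → up i < i) →
  (∀ i, 1 ≤ i → i ≤ n → up' (2 * i) = 2 * i - 1 ∧ up' (2 * i - 1) = 2 * up i ∧
    len' (2 * i) + len' (2 * i - 1) = len i ∧ 1 ≤ len' (2 * i) ∧ 1 ≤ len' (2 * i - 1)) →
  NetL e (2 * n) up' len' g → NetL e n up len g

/-- the free path is the thread number `n + 1` -/
def EndStm : Prop := ∀ (e : ℤ) (n : ℕ) (up len : ℕ → ℕ) (g : ℕ), 1 ≤ g →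
  (∀ i, 1 ≤ i → i ≤ n → up i < i) → NetL e n up len g →
  NetF (n + 1) (fun i => if i = n + 1 then 0 else up i) (fun i => if i = n + 1 then g else len i)

/-- two networks are joined by an edge between the last vertices of the free paths -/
def JoinStm : Prop := ∀ (e : ℤ) (n₁ n₂ : ℕ) (up₁ len₁ up₂ len₂ : ℕ → ℕ) (g₁ g₂ : ℕ), e % 2 = 0 →
  (∀ i, 1 ≤ i → i ≤ n₁ → up₁ i < i) → (∀ i, 1 ≤ i → i ≤ n₂ → up₂ i < i) →
  NetL e n₁ up₁ len₁ g₁ → NetL e n₂ up₂ len₂ g₂ →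
  NetF (n₁ + 1 + n₂)
    (fun i => if i ≤ n₁ then up₁ i else if i = n₁ + 1 then 0 else up₂ (i - (n₁ + 1)) + (n₁ + 1))
    (fun i => if i ≤ n₁ then len₁ i else if i = n₁ + 1 then g₁ + g₂ + 1 else len₂ (i - (n₁ + 1)))

/-- the network theorem: the thread `n₁ + 1` is the longest one, it joins the node `n₁ + 1` and the node `0`,
and the nodes `i ≥ n₁ + 1` are those on the side of the node `n₁ + 1` -/
def NetThmStm : Prop := ∀ N : ℕ, ∃ C : ℕ, ∀ (n n₁ : ℕ) (up len : ℕ → ℕ), n ≤ N → 1 ≤ n₁ → n₁ < n →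
  (∀ i, 1 ≤ i → i ≤ n → up i < i) → up (n₁ + 1) = 0 → (∀ i, 1 ≤ i → i ≤ n → C ≤ len i) →
  (∀ i, 1 ≤ i → i ≤ n → len i ≤ len (n₁ + 1)) → (∀ i, n₁ + 2 ≤ i → i ≤ n → n₁ + 1 ≤ up i) →
  NetF n up len

/-! ### graphs -/

/-- the tree is decomposed into threads; `v i k` is the vertex at distance `k` from the node `i` on the thread
from the node `i` to the node `up i` -/
def Dec {V : Type} [Fintype V] (T : SimpleGraph V) (n : ℕ) (up len : ℕ → ℕ) (v : ℕ → ℕ → V) : Prop :=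
  (∀ i, 1 ≤ i → i ≤ n → up i < i ∧ 1 ≤ len i ∧ v i (len i) = v (up i) 0 ∧
    ∀ k < len i, T.Adj (v i k) (v i (k + 1))) ∧
  (∀ x : V, x = v 0 0 ∨ ∃ i, 1 ≤ i ∧ i ≤ n ∧ ∃ k < len i, x = v i k) ∧
  Fintype.card V = 1 + ∑ i ∈ Finset.Icc 1 n, len i

/-- parents with respect to the root `r` -/
def Rt {V : Type} (T : SimpleGraph V) (r : V) (par : V → V) : Prop :=
  par r = r ∧ (∀ x, x ≠ r → T.Adj (par x) x ∧ T.dist r x = T.dist r (par x) + 1) ∧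
    ∀ a b, T.Adj a b → (a ≠ r ∧ par a = b) ∨ (b ≠ r ∧ par b = a)

def RootStm : Prop := ∀ (V : Type) [Fintype V] (T : SimpleGraph V), T.IsTree → ∀ r : V,
  ∃ par : V → V, Rt T r par

/-- geodesics towards the root -/
def GeoStm : Prop := ∀ (V : Type) [Fintype V] (T : SimpleGraph V) (r : V) (par : V → V), T.IsTree →
  Rt T r par → (∀ x k, k ≤ T.dist r x → T.dist r (par^[k] x) + k = T.dist r x ∧ T.dist x (par^[k] x) = k) ∧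
  (∀ x y k, T.dist x y = k → T.dist r y + k = T.dist r x → y = par^[k] x)

/-- decomposition into the threads between the vertices of `S`; the vertices with the property `D` come last -/
def VDStm : Prop := ∀ (V : Type) [Fintype V] (T : SimpleGraph V) (r : V) (par : V → V) (S : Set V)
  (D : V → Prop), T.IsTree → Rt T r par → r ∈ S → ¬ D r → (∀ x, x ≠ r → D (par x) → D x) →
  (∀ x, x ∉ S → ∃ y, y ≠ r ∧ par y = x ∧ ∀ z, z ≠ r → par z = x → z = y) →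
  ∃ (n n₁ : ℕ) (up len : ℕ → ℕ) (v : ℕ → ℕ → V), Dec T n up len v ∧ n + 1 = S.ncard ∧ n₁ ≤ n ∧ v 0 0 = r ∧
    (∀ i ≤ n, v i 0 ∈ S) ∧ (∀ i ≤ n, ∀ j ≤ n, v i 0 = v j 0 → i = j) ∧ (∀ x ∈ S, ∃ i ≤ n, v i 0 = x) ∧
    (∀ i, 1 ≤ i → i ≤ n → ∀ k < len i, v i (k + 1) = par (v i k) ∧ (1 ≤ k → v i k ∉ S)) ∧
    (∀ i ≤ n, D (v i 0) ↔ n₁ < i) ∧
    (∀ i j, i < j → j ≤ n → (j ≤ n₁ ∨ n₁ < i) → T.dist r (v i 0) ≤ T.dist r (v j 0))

/-- no vertex of `S` strictly between `a` and `b` -/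
def Csc {V : Type} (T : SimpleGraph V) (S : Set V) (a b : V) : Prop :=
  a ∈ S ∧ b ∈ S ∧ a ≠ b ∧ ∀ s ∈ S, T.dist a s + T.dist s b = T.dist a b → s = a ∨ s = b

/-- a longest thread one of whose ends has degree at least three -/
def PairStm : Prop := ∀ (V : Type) [Fintype V] (T : SimpleGraph V), T.IsTree →
  (∃ x, 3 ≤ (T.neighborSet x).ncard) → ∃ a b : V, Csc T {x | (T.neighborSet x).ncard ≠ 2} a b ∧
    3 ≤ (T.neighborSet a).ncard ∧ ∀ a' b' : V, Csc T {x | (T.neighborSet x).ncard ≠ 2} a' b' →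
      3 ≤ (T.neighborSet a').ncard → T.dist a' b' ≤ T.dist a b

def GraphStm : Prop := ∀ (V : Type) [Fintype V] (T : SimpleGraph V) (C k : ℕ), T.IsTree →
  {x : V | (T.neighborSet x).ncard ≠ 2}.ncard ≤ k →
  (∀ x y, x ≠ y → (T.neighborSet x).ncard ≠ 2 → (T.neighborSet y).ncard ≠ 2 → C ≤ T.dist x y) →
  (∃ x, 3 ≤ (T.neighborSet x).ncard) →
  ∃ (n n₁ : ℕ) (up len : ℕ → ℕ) (v : ℕ → ℕ → V), Dec T n up len v ∧ n + 1 ≤ k ∧ 1 ≤ n₁ ∧ n₁ < n ∧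
    up (n₁ + 1) = 0 ∧ (∀ i, 1 ≤ i → i ≤ n → C ≤ len i) ∧
    (∀ i, 1 ≤ i → i ≤ n → len i ≤ len (n₁ + 1)) ∧ (∀ i, n₁ + 2 ≤ i → i ≤ n → n₁ + 1 ≤ up i)

/-- a labelled network gives a graceful labelling -/
def DecStm : Prop := ∀ (V : Type) [Fintype V] (T : SimpleGraph V) (n : ℕ) (up len : ℕ → ℕ)
  (v : ℕ → ℕ → V), T.IsTree → Dec T n up len v → NetF n up len → Graceful T

/-- the theorem -/
def TreeStm : Prop := ∀ k : ℕ, ∃ C : ℕ, ∀ (V : Type) [Fintype V] (T : SimpleGraph V), T.IsTree →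
  {x : V | (T.neighborSet x).ncard ≠ 2}.ncard ≤ k →
  (∀ x y, x ≠ y → (T.neighborSet x).ncard ≠ 2 → (T.neighborSet y).ncard ≠ 2 → C ≤ T.dist x y) →
  Graceful T

end Pool.Agent.Y790.TR
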