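import Pool.Agent.Y790.TR.Def2

/-!
# Trees with few leaves: statements

The construction of `Pool.Agent.Y790.TR.Def` with one more operation: a new node is joined to an old one by a
single edge. In this way all but finitely many trees with at most `k` leaves are labelled.
-/

set_option autoImplicit false

namespace Pool.Agent.Y790.TR

open Pool.Agent.Y790.LG (Od Sm rt cst hd Lg Kst prd Cls ClsStm Lags)
open Pool.Agent.TH56.GT (Graceful)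

/-- the outer part of the labelling: `m + 1` nodes with the positions `b i`, the nodes `i ∈ I` are joined to
the nodes `up i` by edges; `2 n + 1` strands as in `Out` -/
def OutG (n m : ℕ) (A B : ℤ) (x : ℕ → ℤ) (c : ℕ → ℕ) (b : ℕ → ℤ) (I : Finset ℕ) (up : ℕ → ℕ) : Prop :=
  (A - B) % 2 = 0 ∧ 0 ≤ A ∧ 0 ≤ B ∧ n + I.card = m ∧
    (∀ i ∈ I, 1 ≤ i ∧ i ≤ m ∧ up i < i ∧ Od (b i) (b (up i))) ∧ ∃ L : ℕ → List ℤ,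
    A + B = 2 * ((m : ℤ) + 1) + 2 * ∑ j ∈ Finset.range (2 * n + 1), ((L j).length : ℤ) ∧
    (∀ z : ℤ, In A B z → (∃ i ≤ m, b i = z) ∨ ∃ j ≤ 2 * n, z ∈ L j) ∧
    (∀ i ≤ m, In A B (b i)) ∧ (∀ j ≤ 2 * n, ∀ z ∈ L j, In A B z) ∧
    (∀ j ≤ 2 * n, c j ≤ m) ∧
    (∀ j ≤ 2 * n, (b (c j) :: L j).IsChain Od) ∧
    (∀ j ≤ 2 * n, (b (c j) :: L j).getLast? = some (em A B (x j))) ∧
    (∀ v : ℤ, v % 2 = 1 → 1 ≤ v → v < A + B - (2 * n + 1) →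
      (∃ i ∈ I, b i + b (up i) = v) ∨ ∃ j ≤ 2 * n, Sm (b (c j) :: L j) v)

/-! ### the formal rules (as for `Out`) -/

def OutOfStm : Prop := ∀ (n : ℕ) (A B : ℤ) (x : ℕ → ℤ) (c : ℕ → ℕ) (b : ℕ → ℤ) (up : ℕ → ℕ),
  Out n A B x c b → OutG n n A B x c b ∅ up

def OutCongrG : Prop := ∀ (n m : ℕ) (A B : ℤ) (x x' : ℕ → ℤ) (c c' : ℕ → ℕ) (b b' : ℕ → ℤ)
  (I : Finset ℕ) (up up' : ℕ → ℕ), (∀ j ≤ 2 * n, x j = x' j) → (∀ j ≤ 2 * n, c j = c' j) →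
  (∀ i ≤ m, b i = b' i) → (∀ i ∈ I, up i = up' i) → OutG n m A B x c b I up → OutG n m A B x' c' b' I up'

def OutSegG : Prop := ∀ (n m : ℕ) (A B : ℤ) (x y : ℕ → ℤ) (c : ℕ → ℕ) (b : ℕ → ℤ) (I : Finset ℕ)
  (up d : ℕ → ℕ) (W : ℤ), W = ∑ j ∈ Finset.range (2 * n + 1), (d j : ℤ) → OutG n m A B x c b I up →
  Seg n x d y → ∃ A' B' : ℤ, OutG n m A' B' y c b I up ∧ ∀ u : ℤ, em A' B' u = em A B (u + W)

def RelG : Prop := ∀ (n m : ℕ) (A B : ℤ) (x : ℕ → ℤ) (c : ℕ → ℕ) (b : ℕ → ℤ) (I : Finset ℕ)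
  (up π : ℕ → ℕ), (∀ j ≤ 2 * n, π j ≤ 2 * n) → (∀ s ≤ 2 * n, ∃ j ≤ 2 * n, π j = s) →
  OutG n m A B x c b I up → OutG n m A B (fun j => x (π j)) (fun j => c (π j)) b I up

/-- starting nodes with the two new strands `2 n + 1` (from the node `V`) and `2 n + 2` (from the node
`m + 1`) -/
def cM (n m V : ℕ) (c : ℕ → ℕ) : ℕ → ℕ := fun j =>
  if j = 2 * n + 2 then m + 1 else if j = 2 * n + 1 then V else c j

/-- a new node on the side different from the side of `V` -/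
def ExtWG : Prop := ∀ (n m : ℕ) (A B : ℤ) (x : ℕ → ℤ) (c : ℕ → ℕ) (b : ℕ → ℤ) (I : Finset ℕ) (up : ℕ → ℕ)
  (V : ℕ) (xV : ℤ), OutG n m A B x c b I up → V ≤ m → b V = em A B xV → xV % 2 = 0 →
  OutG (n + 1) (m + 1) A (B + 2) (xW n xV x) (cM n m V c) (bN m (B + 1) b) I up

/-- the event with a free class -/
def EvRG : Prop := ∀ (n m : ℕ) (A B : ℤ) (x : ℕ → ℤ) (c : ℕ → ℕ) (b : ℕ → ℤ) (I : Finset ℕ) (up : ℕ → ℕ)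
  (V : ℕ) (xV : ℤ) (a p : ℕ → ℕ) (w t : ℕ), OutG n m A B x c b I up → V ≤ m → b V = em A B xV →
  t ≤ 2 * n + 3 →
  (∀ j ≤ 2 * n + 2, a j ≤ 2 * n + 2) → (∀ s ≤ 2 * n + 2, ∃ j ≤ 2 * n + 2, a j = s) →
  (∀ j ≤ 2 * n, Od (x j) (a j + p j * (2 * n + 3))) →
  Od xV (a (2 * n + 1) + p (2 * n + 1) * (2 * n + 3)) →
  (∀ k : ℤ, 0 ≤ k → k ≤ 2 * n + 1 →
    (∃ j ≤ 2 * n, x j + (a j + p j * (2 * n + 3)) = 2 * k - (2 * n + 1)) ∨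
      xV + (a (2 * n + 1) + p (2 * n + 1) * (2 * n + 3)) = 2 * k - (2 * n + 1)) →
  (∀ j ≤ 2 * n + 2, 2 * p j + 2 ≤ cst w t (a j)) →
  (∀ j ≤ 2 * n + 2, cst w t (a j) % 2 = 1 → p j % 2 = 0) →
  ∃ A' B' : ℤ, OutG (n + 1) (m + 1) A' B'
    (fun j => hd (2 * n + 3) (rt (2 * n + 3) t (a j)) (p j)) (cM n m V c)
    (bN m (em A B (a (2 * n + 2) + p (2 * n + 2) * (2 * n + 3))) b) I up

/-- the pairs of the new state are the pairs of the old one and the pair `V`, `m + 1` -/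
def PrsG (n m V : ℕ) (c c' : ℕ → ℕ) : Prop := c' (2 * n + 2) = c (2 * n) ∧
  (∀ l < n, ∃ l' ≤ n, (c' (2 * l') = c (2 * l) ∧ c' (2 * l' + 1) = c (2 * l + 1)) ∨
    (c' (2 * l') = c (2 * l + 1) ∧ c' (2 * l' + 1) = c (2 * l))) ∧
  ∃ l' ≤ n, (c' (2 * l') = V ∧ c' (2 * l' + 1) = m + 1) ∨ (c' (2 * l') = m + 1 ∧ c' (2 * l' + 1) = V)

/-- the pairs of the new state are the pairs of the old one -/
def PrsE (n : ℕ) (c c' : ℕ → ℕ) : Prop := c' (2 * n) = c (2 * n) ∧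
  ∀ l < n, ∃ l' < n, (c' (2 * l') = c (2 * l) ∧ c' (2 * l' + 1) = c (2 * l + 1)) ∨
    (c' (2 * l') = c (2 * l + 1) ∧ c' (2 * l' + 1) = c (2 * l))

def GatherG : Prop := ∀ (n m V P : ℕ) (A B : ℤ) (c : ℕ → ℕ) (b : ℕ → ℤ) (I : Finset ℕ) (up s p : ℕ → ℕ),
  (∀ j ≤ 2 * n + 2, s j ≤ 2 * n + 2) → (∀ i ≤ 2 * n + 2, ∃ j ≤ 2 * n + 2, s j = i) →
  s (2 * n) = 2 * n + 2 → (∀ l < n, s (2 * l) / 2 = s (2 * l + 1) / 2) →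
  s (2 * n + 1) / 2 = s (2 * n + 2) / 2 → (∀ j ≤ 2 * n + 2, p j % 2 = 0) →
  ∑ j ∈ Finset.range (2 * n + 3), p j = P →
  OutG (n + 1) (m + 1) A B (fun j => hd (2 * n + 3) (s j) (p j)) (cM n m V c) b I up →
  ∃ (A' B' : ℤ) (c' : ℕ → ℕ), OutG (n + 1) (m + 1) A' B' (Kst (n + 1) P 0) c' b I up ∧ PrsG n m V c c'

def GatherE : Prop := ∀ (n m P : ℕ) (A B : ℤ) (c : ℕ → ℕ) (b : ℕ → ℤ) (I : Finset ℕ) (up s p : ℕ → ℕ),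
  (∀ j ≤ 2 * n + 2, s j ≤ 2 * n + 2) → (∀ i ≤ 2 * n + 2, ∃ j ≤ 2 * n + 2, s j = i) →
  s (2 * n + 2) = 2 * n + 2 → (∀ l < n + 1, s (2 * l) / 2 = s (2 * l + 1) / 2) →
  (∀ j ≤ 2 * n + 2, p j % 2 = 0) → ∑ j ∈ Finset.range (2 * n + 3), p j = P →
  OutG (n + 1) m A B (fun j => hd (2 * n + 3) (s j) (p j)) c b I up →
  ∃ (A' B' : ℤ) (c' : ℕ → ℕ), OutG (n + 1) m A' B' (Kst (n + 1) P 0) c' b I up ∧ PrsE (n + 1) c c'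

/-- a new node joined by a long thread, on the same side as `V` (`s = 0`) or on the other side (`s = 1`) -/
def OpenG (s : ℤ) : Prop := ∀ (n m M K : ℕ) (A B : ℤ) (c : ℕ → ℕ) (b : ℕ → ℤ) (I : Finset ℕ) (up : ℕ → ℕ)
  (V : ℕ), 1 ≤ n → M % 2 = 1 → 2 * n + 1 ∣ M → 2 * n + 3 ∣ M → M ∣ K → K % 8 = 1 →
  17 * (2 * n + 3) ^ 3 ≤ K → V ≤ m → OutG n m A B (Kst n (PK K n) 0) c b I up →
  ∃ K₁ : ℕ, ∀ K' ≥ K₁, K' % (8 * M) = K % (8 * M) → ∃ (A' B' : ℤ) (c' : ℕ → ℕ) (b' : ℕ → ℤ),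
    OutG (n + 1) (m + 1) A' B' (Kst (n + 1) (PK K' (n + 1)) 0) c' b' I up ∧ (∀ i ≤ m, b' i = b i) ∧
    (b' (m + 1) + b V) % 2 = s ∧ PrsG n m V c c'

/-! ### a new node joined by an edge -/

/-- as `Seg`, the sum `1` is left out and the sum `-(2 n + 3)` is used -/
def SegS (n : ℕ) (x : ℕ → ℤ) (c : ℕ → ℕ) (y : ℕ → ℤ) : Prop :=
  ∃ (L : ℕ → List ℤ) (W₀ : ℤ), W₀ = ∑ j ∈ Finset.range (2 * n + 1), (c j : ℤ) ∧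
    (∀ j ≤ 2 * n, (L j).length = c j) ∧
    (∀ j ≤ 2 * n, (L j).getLast? = some (y j + W₀)) ∧
    (∀ j ≤ 2 * n, ∀ u ∈ L j, 0 ≤ u ∧ u < W₀) ∧
    (∀ j ≤ 2 * n, (x j :: L j).IsChain Od) ∧
    (∀ u : ℤ, 0 ≤ u → u < W₀ → ∃ j ≤ 2 * n, u ∈ L j) ∧
    (∀ v : ℤ, v % 2 = 1 → -(2 * (n : ℤ) + 3) ≤ v → v < 2 * W₀ - (2 * n + 1) → v ≠ 1 →
      ∃ j ≤ 2 * n, Sm (x j :: L j) v)

def SegSTransStm : Prop := ∀ (n : ℕ) (x y z : ℕ → ℤ) (c d : ℕ → ℕ), SegS n x c y → Seg n y d z →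
  SegS n x (fun i => c i + d i) z

def FwdSStm : Prop := ∀ (n : ℕ) (x : ℕ → ℤ) (a p : ℕ → ℕ) (w t : ℕ), t ≤ 2 * n + 1 →
  (∀ j ≤ 2 * n, a j ≤ 2 * n) → (∀ s ≤ 2 * n, ∃ j ≤ 2 * n, a j = s) →
  (∀ j ≤ 2 * n, Od (x j) (a j + p j * (2 * n + 1))) →
  (∀ k : ℤ, 0 ≤ k → k ≤ 2 * n + 1 → k ≠ n + 2 →
    ∃ j ≤ 2 * n, x j + (a j + p j * (2 * n + 1)) = 2 * k - (2 * n + 3)) →
  (∀ j ≤ 2 * n, 2 * p j + 2 ≤ cst w t (a j)) →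
  (∀ j ≤ 2 * n, cst w t (a j) % 2 = 1 → p j % 2 = 0) →
  SegS n x (fun j => cst w t (a j)) (fun j => hd (2 * n + 1) (rt (2 * n + 1) t (a j)) (p j))

/-- odd heads are lowered by two -/
def sh (z : ℤ) : ℤ := if z % 2 = 0 then z else z - 2

/-- the strands `2 n + 1` and `2 n + 2` pause while the others fill `D` positions; the new node `m + 1` is
put on the first free position of its side, it is a neighbour of the node `V` -/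
def PauseStm : Prop := ∀ (n m : ℕ) (A B : ℤ) (x y : ℕ → ℤ) (c : ℕ → ℕ) (b : ℕ → ℤ) (I : Finset ℕ)
  (up d : ℕ → ℕ) (V : ℕ) (D : ℤ), OutG (n + 1) m A B x c b I up → V ≤ m → up (m + 1) = V → D % 2 = 0 →
  0 < D → b V = em A B (-D) → SegS n x d y → D = ∑ j ∈ Finset.range (2 * n + 1), (d j : ℤ) →
  OutG (n + 1) (m + 1) (A + D) (B + D + 2) (fun j => sh (if j ≤ 2 * n then y j else x j - D)) c
    (bN m (B + D + 1) b) (insert (m + 1) I) up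

/-- the pause with a change of the lags from `p'` to `p''` -/
def MidStm : Prop := ∀ (n : ℕ) (p' p'' : ℕ → ℕ), 1 ≤ n → (∀ j ≤ 2 * n, p' j % 2 = 0) →
  (∀ j ≤ 2 * n, p'' j % 2 = 0) →
  ∑ j ∈ Finset.range (2 * n + 1), p' j = ∑ j ∈ Finset.range (2 * n + 1), p'' j →
  ∃ W₂ : ℕ, ∀ (m : ℕ) (A B : ℤ) (x : ℕ → ℤ) (c : ℕ → ℕ) (b : ℕ → ℤ) (I : Finset ℕ) (up : ℕ → ℕ)
    (V : ℕ) (D : ℤ), OutG (n + 1) m A B x c b I up → V ≤ m → up (m + 1) = V → D % 2 = 0 →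
    (W₂ : ℤ) ≤ D → D % (2 * n + 1) = 0 → b V = em A B (-D) →
    (∀ k : ℤ, 0 ≤ k → k ≤ 2 * n + 1 → k ≠ n + 2 →
      ∃ j ≤ 2 * n, x j + (j + p' j * (2 * n + 1)) = 2 * k - (2 * n + 3)) →
    (∀ j ≤ 2 * n, Od (x j) (j + p' j * (2 * n + 1))) →
    OutG (n + 1) (m + 1) (A + D) (B + D + 2)
      (fun j => sh (if j ≤ 2 * n then hd (2 * n + 1) j (p'' j) else x j - D)) c
      (bN m (B + D + 1) b) (insert (m + 1) I) up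

/-- choice of the lags before the pause of the pair number `μ` -/
def TuneSStm : Prop := ∀ (n P μ : ℕ) (g : ℕ → ℤ), μ ≤ n → P % 2 = 0 → 40 * (2 * n + 3) ^ 2 ≤ P →
  (∀ j ≤ 2 * n + 2, j ≠ 2 * μ → j ≠ 2 * μ + 1 →
    g j % 2 = 0 ∧ -(4 * (n : ℤ) + 8) ≤ g j ∧ g j ≤ 4 * n + 8) →
  ∃ p p' : ℕ → ℕ, (∀ j ≤ 2 * n + 2, p j % 2 = 0) ∧
    (∀ j ≤ 2 * n + 2, j ≠ 2 * μ → j ≠ 2 * μ + 1 → p' j % 2 = 0 ∧
      (2 * (n : ℤ) + 1) * p' j = g j + (2 * n + 3) * p j) ∧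
    ∑ j ∈ Finset.range (2 * n + 3), p j = P ∧
    ∃ j ≤ 2 * n + 2, j ≠ 2 * μ ∧ j ≠ 2 * μ + 1 ∧ 4 * (2 * n + 3) * (2 * n + 1) ≤ p' j

/-- arrangement for a new node joined by an edge: the strand `j ≤ 2 n + 2` is in the slot `rt (2 n + 3) t j`;
the strands of the pair number `μ` pause, the others go to the classes `a j` modulo `2 n + 1`, then all the
strands go to the classes `al j` modulo `2 n + 3` -/
def ArrEStm : Prop := ∀ n t : ℕ, 1 ≤ n → t ≤ 2 * n + 2 → ∃ (μ t' : ℕ) (a al κ : ℕ → ℕ), μ ≤ n ∧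
  t' ≤ 2 * n + 3 ∧
  (∀ j ≤ 2 * n + 2, j ≠ 2 * μ → j ≠ 2 * μ + 1 → a j ≤ 2 * n ∧ a j % 2 = rt (2 * n + 3) t j % 2) ∧
  (∀ i ≤ 2 * n, ∃ j ≤ 2 * n + 2, j ≠ 2 * μ ∧ j ≠ 2 * μ + 1 ∧ a j = i) ∧
  (∀ j ≤ 2 * n + 2, al j ≤ 2 * n + 2 ∧ al j % 2 = rt (2 * n + 3) t j % 2) ∧
  (∀ i ≤ 2 * n + 2, ∃ j ≤ 2 * n + 2, al j = i) ∧
  κ (2 * μ) ≤ 2 * n + 2 ∧ κ (2 * μ + 1) ≤ 2 * n + 2 ∧ κ (2 * μ) ≠ κ (2 * μ + 1) ∧
  (rt (2 * n + 3) t (2 * μ) + rt (2 * n + 3) t (2 * μ + 1)) % 2 = 1 ∧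
  (∀ j, j = 2 * μ ∨ j = 2 * μ + 1 → ((2 * (κ j : ℤ) - al j - rt (2 * n + 3) t j +
    if rt (2 * n + 3) t j % 2 = 0 then 2 else 0) % (2 * n + 3) = 0)) ∧
  rt (2 * n + 3) t' (al (2 * n + 2)) = 2 * n + 2 ∧
  ∀ l < n + 1, rt (2 * n + 3) t' (al (2 * l)) / 2 = rt (2 * n + 3) t' (al (2 * l + 1)) / 2

/-- a new node joined by an edge -/
def EdgeStm : Prop := ∀ (n m M K : ℕ) (A B : ℤ) (c : ℕ → ℕ) (b : ℕ → ℤ) (I : Finset ℕ) (up : ℕ → ℕ)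
  (V : ℕ), 1 ≤ n → M % 2 = 1 → 2 * n + 1 ∣ M → 2 * n + 3 ∣ M → M ∣ K → K % 8 = 1 →
  1000 * (2 * n + 5) ^ 3 ≤ K → V ≤ m → up (m + 1) = V →
  OutG (n + 1) m A B (Kst (n + 1) (PK K (n + 1)) 0) c b I up →
  ∃ K₁ : ℕ, ∀ K' ≥ K₁, K' % (16 * M) = K % (16 * M) → ∃ (A' B' : ℤ) (c' : ℕ → ℕ) (b' : ℕ → ℤ),
    OutG (n + 1) (m + 1) A' B' (Kst (n + 1) (PK K' (n + 1)) 0) c' b' (insert (m + 1) I) up ∧
    (∀ i ≤ m, b' i = b i) ∧ PrsE (n + 1) c c'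

/-! ### growing -/

/-- the threads which are not edges are the pairs `i`, `up i` -/
def PrG (n m : ℕ) (I : Finset ℕ) (up c : ℕ → ℕ) : Prop := ∀ i, 1 ≤ i → i ≤ m → i ∉ I →
  ∃ l < n, (c (2 * l) = i ∧ c (2 * l + 1) = up i) ∨ (c (2 * l) = up i ∧ c (2 * l + 1) = i)

def GrowG : Prop := ∀ N M : ℕ, M % 2 = 1 → (∀ i ≤ N, 2 * i + 1 ∣ M) → 1000 * (2 * N + 5) ^ 3 ≤ M →
  ∀ n m, 2 ≤ m → m ≤ N → ∀ (I : Finset ℕ) (up : ℕ → ℕ) (sd : ℕ → ℤ), n + I.card = m →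
  (∀ i ∈ I, 3 ≤ i ∧ i ≤ m ∧ sd i + sd (up i) = 1) → (∀ i, 1 ≤ i → i ≤ m → up i < i) →
  (∀ i ≤ m, sd i = 0 ∨ sd i = 1) → sd 0 = 1 →
  ∃ K₁ : ℕ, ∀ K ≥ K₁, K % (16 * M) = M * M % (16 * M) → ∃ (A B : ℤ) (c : ℕ → ℕ) (b : ℕ → ℤ),
    OutG n m A B (Kst n (PK K n) 0) c b I up ∧ (∀ i ≤ m, b i % 2 = sd i) ∧ c (2 * n) = 0 ∧
    PrG n m I up c

def CloseG : Prop := ∀ (e : ℤ) (n m P : ℕ) (A B : ℤ) (c : ℕ → ℕ) (b : ℕ → ℤ) (I : Finset ℕ)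
  (up : ℕ → ℕ) (sd : ℕ → ℤ) (C₀ : ℕ), P % 2 = 0 → OutG n m A B (Kst n P 0) c b I up →
  (∀ i ≤ m, b i % 2 = sd i) → c (2 * n) = 0 → PrG n m I up c → (∀ i, 1 ≤ i → i ≤ m → up i < i) →
  (∀ (ℓ : ℕ → ℕ) (g : ℕ), (∀ i < n, ℓ i % 2 = 0) → (∀ i < n, C₀ ≤ ℓ i) → (∀ i < n, ℓ i + C₀ ≤ 2 * g) →
    C₀ ≤ g → @Pool.Agent.Y790.LE.St ⟨e⟩ n (Kst n P 0) ℓ g) →
  ∃ C : ℕ, ∀ (len : ℕ → ℕ) (g : ℕ), (∀ i ∈ I, len i = 1) →
    (∀ i, 1 ≤ i → i ≤ m → i ∉ I → ((len i : ℤ) + sd i + sd (up i)) % 2 = 0 ∧ C ≤ len i ∧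
      len i + C ≤ 2 * g) → C ≤ g → NetL e m up len g

/-! ### networks -/

/-- all networks with threads which are edges or long, the first two of them being long, and a free path
which is longer than half of each thread -/
def MainG : Prop := ∀ N : ℕ, ∃ (e : ℤ) (C : ℕ), e % 2 = 0 ∧ 0 ≤ e ∧ 2 ≤ C ∧ ∀ m, 2 ≤ m → m ≤ N →
  ∀ (up len : ℕ → ℕ) (g : ℕ), (∀ i, 1 ≤ i → i ≤ m → up i < i) → C ≤ len 1 → C ≤ len 2 →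
  (∀ i, 1 ≤ i → i ≤ m → len i = 1 ∨ (C ≤ len i ∧ len i + C ≤ 2 * g)) → C ≤ g → NetL e m up len g

/-- some of the threads are divided into two parts by new nodes, `f i` is the new number of the node `i` -/
def SubdivG : Prop := ∀ (e : ℤ) (m : ℕ) (up len f up' len' : ℕ → ℕ) (g : ℕ), f 0 = 0 →
  (∀ i, 1 ≤ i → i ≤ m → up i < i) →
  (∀ i, 1 ≤ i → i ≤ m →
    (f i = f (i - 1) + 1 ∧ up' (f i) = f (up i) ∧ len' (f i) = len i) ∨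
    (f i = f (i - 1) + 2 ∧ up' (f i) = f i - 1 ∧ up' (f i - 1) = f (up i) ∧
      len' (f i) + len' (f i - 1) = len i ∧ 1 ≤ len' (f i) ∧ 1 ≤ len' (f i - 1))) →
  NetL e (f m) up' len' g → NetL e m up len g

/-- two nodes on the free path are removed -/
def RerootG : Prop := ∀ (e : ℤ) (m : ℕ) (up len up' len' : ℕ → ℕ) (g : ℕ),
  (∀ i, 1 ≤ i → i ≤ m → up i < i) → up' 1 = 0 → up' 2 = 1 → 1 ≤ len' 1 → 1 ≤ len' 2 →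
  (∀ i, 1 ≤ i → i ≤ m → up' (i + 2) = up i + 2 ∧ len' (i + 2) = len i) →
  NetL e (m + 2) up' len' g → NetL e m up len (len' 1 + len' 2 + g)

/-- the network theorem: threads are edges or long, the thread `n₁ + 1` is the longest one, it joins the node
`n₁ + 1` and the node `0`, the nodes `i ≥ n₁ + 1` are those on the side of the node `n₁ + 1` -/
def NetThmG : Prop := ∀ N : ℕ, ∃ C : ℕ, ∀ (n n₁ : ℕ) (up len : ℕ → ℕ), n ≤ N → n₁ < n →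
  (∀ i, 1 ≤ i → i ≤ n → up i < i) → up (n₁ + 1) = 0 → (∀ i, 1 ≤ i → i ≤ n → len i = 1 ∨ C ≤ len i) →
  (∀ i, 1 ≤ i → i ≤ n → len i ≤ len (n₁ + 1)) → C ≤ len (n₁ + 1) →
  (∀ i, n₁ + 2 ≤ i → i ≤ n → n₁ + 1 ≤ up i) → NetF n up len

/-! ### graphs -/

/-- a longest thread -/
def PairG : Prop := ∀ (V : Type) [Fintype V] (T : SimpleGraph V), T.IsTree →
  (∃ x y : V, x ≠ y ∧ (T.neighborSet x).ncard ≠ 2 ∧ (T.neighborSet y).ncard ≠ 2) →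
  ∃ a b : V, Csc T {x | (T.neighborSet x).ncard ≠ 2} a b ∧
    ∀ a' b' : V, Csc T {x | (T.neighborSet x).ncard ≠ 2} a' b' → T.dist a' b' ≤ T.dist a b

/-- decomposition of a large tree with few vertices of degree different from two into edges and long
threads, where long means at least `f N` if there are at most `N` threads -/
def GraphG : Prop := ∀ (f : ℕ → ℕ) (k : ℕ), ∃ N₀ : ℕ, ∀ (V : Type) [Fintype V] (T : SimpleGraph V),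
  T.IsTree → {x : V | (T.neighborSet x).ncard ≠ 2}.ncard ≤ k → N₀ ≤ Fintype.card V →
  ∃ (N n n₁ : ℕ) (up len : ℕ → ℕ) (v : ℕ → ℕ → V), Dec T n up len v ∧ n ≤ N ∧ n₁ < n ∧
    up (n₁ + 1) = 0 ∧ (∀ i, 1 ≤ i → i ≤ n → len i = 1 ∨ f N ≤ len i) ∧
    (∀ i, 1 ≤ i → i ≤ n → len i ≤ len (n₁ + 1)) ∧ f N ≤ len (n₁ + 1) ∧
    (∀ i, n₁ + 2 ≤ i → i ≤ n → n₁ + 1 ≤ up i)

/-- `T` has an `α`-labelling -/
def Alph {V : Type} (T : SimpleGraph V) : Prop :=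
  ∃ (f : V → ℕ) (p : ℕ), Function.Injective f ∧ (∀ u, f u ≤ T.edgeSet.ncard) ∧
    {d : ℕ | ∃ u w : V, T.Adj u w ∧ d = Int.natAbs ((f u : ℤ) - (f w : ℤ))} =
      Set.Icc 1 T.edgeSet.ncard ∧
    ∀ u w : V, T.Adj u w → (f u < p ∧ p ≤ f w) ∨ (f w < p ∧ p ≤ f u)

def DecA : Prop := ∀ (V : Type) [Fintype V] (T : SimpleGraph V) (n : ℕ) (up len : ℕ → ℕ)
  (v : ℕ → ℕ → V), T.IsTree → Dec T n up len v → NetF n up len → Alph T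

/-- the number of leaves bounds the number of vertices of degree different from two -/
def LeafStm : Prop := ∀ (V : Type) [Fintype V] (T : SimpleGraph V), T.IsTree → 2 ≤ Fintype.card V →
  {x : V | (T.neighborSet x).ncard ≠ 2}.ncard ≤ 2 * {x : V | (T.neighborSet x).ncard = 1}.ncard

/-- the theorem: all but finitely many trees with at most `k` leaves have an `α`-labelling -/
def TreeG : Prop := ∀ k : ℕ, ∃ N : ℕ, ∀ (V : Type) [Fintype V] (T : SimpleGraph V), T.IsTree →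
  {x : V | (T.neighborSet x).ncard = 1}.ncard ≤ k → N ≤ Fintype.card V → Alph T

end Pool.Agent.Y790.TR
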