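import Pool.Agent.Y790.TR.Def4

/-!
# Further consequences of `α`-labellings: statements
-/

set_option autoImplicit false

namespace Pool.Agent.Y790.TR

/-- trees with an `α`-labelling are super edge-magic -/
def SemStm : Prop := ∀ (V : Type) [Fintype V] (G : SimpleGraph V), G.IsTree → 2 ≤ Fintype.card V →
  Alph G → ∃ (F : V ⊕ G.edgeSet → ℕ) (k : ℕ), Function.Injective F ∧
    Set.range F = Set.Icc 1 (Fintype.card V + Nat.card G.edgeSet) ∧
    (∀ v : V, F (Sum.inl v) ≤ Fintype.card V) ∧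
    ∀ (e : G.edgeSet) (u v : V), e.val = s(u, v) → F (Sum.inl u) + F (Sum.inr e) + F (Sum.inl v) = k

/-- a tree with an `α`-labelling and `m` edges decomposes every Cayley graph with the connection set
`S ∪ S⁻¹`, `S = {s, d s, d² s, …, d ^ (m - 1) s}`, if these `2 m` elements are different -/
def CayStm : Prop := ∀ (V : Type) [Fintype V] (G : SimpleGraph V), G.IsTree → 2 ≤ Fintype.card V →
  Alph G → ∀ (Γ : Type) [Group Γ] (d s : Γ) (H : SimpleGraph Γ),
    (∀ i j : ℕ, i < G.edgeSet.ncard → j < G.edgeSet.ncard → d ^ i * s = d ^ j * s → i = j) →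
    (∀ i j : ℕ, i < G.edgeSet.ncard → j < G.edgeSet.ncard → d ^ i * s ≠ (d ^ j * s)⁻¹) →
    (∀ x y : Γ, H.Adj x y ↔ ∃ i < G.edgeSet.ncard, y = x * (d ^ i * s) ∨ x = y * (d ^ i * s)) →
    Decomposes G H

/-- the bipartite analogue: parts `Γ` and `Γ`, the neighbours of `x` are `x s, x d s, …, x d ^ (m - 1) s` -/
def BiCayStm : Prop := ∀ (V : Type) [Fintype V] (G : SimpleGraph V), G.IsTree → 2 ≤ Fintype.card V →
  Alph G → ∀ (Γ : Type) [Group Γ] (d s : Γ) (H : SimpleGraph (Γ ⊕ Γ)),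
    (∀ i j : ℕ, i < G.edgeSet.ncard → j < G.edgeSet.ncard → d ^ i * s = d ^ j * s → i = j) →
    (∀ x y : Γ, H.Adj (Sum.inl x) (Sum.inr y) ↔ ∃ i < G.edgeSet.ncard, y = x * (d ^ i * s)) →
    (∀ x y : Γ, ¬ H.Adj (Sum.inl x) (Sum.inl y)) → (∀ x y : Γ, ¬ H.Adj (Sum.inr x) (Sum.inr y)) →
    Decomposes G H

end Pool.Agent.Y790.TR
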